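import Pool.Agent.TH288.FI.Count

/-!
# No branch, no finitary isomorphism
-/

set_option autoImplicit false

open MeasureTheory Set Filter
open scoped ENNReal Topology

namespace Pool.Agent.TH288.FI

open Pool.Agent.H534R3.NonBorel (br length_br br_eq_iff)
open Pool.Agent.TH288.NB (shn measurable_shn P P_cyl cyl unif unif_singleton Obs Good
  exists_obs mem_sections_iff getD_br exists_Icc_superset)

attribute [local irreducible] DD ell Sg mm

theorem exists_obs2 (t : List ℕ → Bool) (ht : ¬ ∃ f : ℕ → ℕ, ∀ n, t (br f n) = true)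
    (g : ℕ → ℕ) : ∃ n, Obs t (br g (n + 2)) := by
  obtain ⟨n, hn⟩ := exists_obs t ht g
  refine ⟨n, ?_, ?_⟩
  · intro h0
    have := congrArg List.length h0
    simp at this
  · rintro ⟨s, hs, hk⟩
    refine hn.2 ⟨s.take (n + 1), ?_, ?_⟩
    · rw [mem_sections_iff] at hs ⊢
      rw [length_br] at hs ⊢
      obtain ⟨h1, h2⟩ := hs
      refine ⟨by rw [List.length_take]; omega, fun i hi => ?_⟩
      have h3 := h2 i (by omega)
      rw [getD_br g (by omega)] at h3 ⊢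
      rw [List.getD_eq_getElem _ _ (by omega)] at h3
      rw [List.getD_eq_getElem _ _ (by rw [List.length_take]; omega), List.getElem_take]
      exact h3
    · intro k hk'
      rw [length_br, Finset.mem_range] at hk'
      have h3 := hk k (by rw [length_br, Finset.mem_range]; omega)
      rw [List.take_take, min_eq_left (by omega)]
      exact h3

theorem exists_ball_subset {β : Type*} [TopologicalSpace β] {x : ℤ → β}
    {S : Set (ℤ → β)} (hS : S ∈ 𝓝 x) :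
    ∃ n : ℕ, ∀ y : ℤ → β, (∀ i : ℤ, |i| ≤ (n : ℤ) → y i = x i) → y ∈ S := by
  rw [nhds_pi, Filter.mem_pi'] at hS
  obtain ⟨I, t, ht, hsub⟩ := hS
  obtain ⟨m, hm⟩ := exists_Icc_superset I
  refine ⟨m, fun y hy => hsub fun i hi => ?_⟩
  have h1 := Finset.mem_Icc.1 (hm hi)
  rw [hy i (abs_le.2 h1)]
  exact mem_of_mem_nhds (ht i)

theorem generic_ae {μ : Measure (ℤ → Fin 32)} (hinv : ∀ n : ℤ, μ.map (shn n) = μ)
    {X₀ : Set (ℤ → Fin 32)} {φ : (ℤ → Fin 32) → (ℤ → Fin 16)} (hnull : μ X₀ᶜ = 0)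
    (heq : ∀ x ∈ X₀, φ (fun n => x (n + 1)) = fun n => φ x (n + 1)) :
    ∀ᵐ x ∂μ, ∀ j : ℤ, shn j x ∈ X₀ ∧ φ x j = φ (shn j x) 0 := by
  have h1 : ∀ᵐ x ∂μ, x ∈ X₀ := hnull
  have h2 : ∀ j : ℤ, ∀ᵐ x ∂μ, shn j x ∈ X₀ := by
    intro j
    have h3 : ∀ᵐ x ∂(μ.map (shn j)), x ∈ X₀ := by rw [hinv j]; exact h1
    exact ae_of_ae_map (measurable_shn j).aemeasurable h3
  have h4 : ∀ᵐ x ∂μ, ∀ j : ℤ, shn j x ∈ X₀ := ae_all_iff.2 h2
  filter_upwards [h4] with x hx
  have hplus : ∀ j : ℤ, φ (shn (j + 1) x) = fun n => φ (shn j x) (n + 1) := by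
    intro j
    have : shn (j + 1) x = fun i => (shn j x) (i + 1) := by
      funext i
      simp only [shn]
      congr 1; ring
    rw [this, heq _ (hx j)]
  have hall : ∀ j : ℤ, φ (shn j x) = shn j (φ x) := by
    intro j
    induction j using Int.induction_on with
    | zero =>
      have : shn 0 x = x := by funext i; simp [shn]
      rw [this]; funext i; simp [shn]
    | succ k ih =>
      rw [hplus, ih]
      funext i
      simp only [shn]
      congr 1; ring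
    | pred k ih =>
      have h5 := hplus (-(k : ℤ) - 1)
      have h6 : -(k : ℤ) - 1 + 1 = -k := by ring
      rw [h6, ih] at h5
      funext i
      have h7 := congrFun h5 (i - 1)
      simp only [shn] at h7 ⊢
      have h8 : i - 1 + 1 = i := by ring
      rw [h8] at h7
      rw [← h7]
      congr 1; ring
  intro j
  refine ⟨hx j, ?_⟩
  rw [hall j]
  simp [shn]

theorem sum_div_le (D n : ℕ) :
    ∑ k ∈ Finset.range n, D / 2 ^ (k + 11) + D / 2 ^ (n + 10) ≤ D / 2 ^ 10 := by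
  induction n with
  | zero => simp
  | succ n ih =>
    rw [Finset.sum_range_succ]
    have h1 : D / 2 ^ (n + 11) = D / 2 ^ (n + 10) / 2 := by
      rw [Nat.div_div_eq_div_mul, ← pow_succ]
    have h2 : n + 1 + 10 = n + 11 := by ring
    rw [h2]
    omega

theorem card_FO (u : List ℕ) (hw : ∀ k < u.length, ell k * 2 ^ (k + 11) ≤ u.getD k 0 + 1) :
    (FO u).card ≤ mm u + 2 + DD u / 2 ^ 10 + u.length := by
  have h1 : (FO u).card ≤ (mm u + 2) + (MF u).card := by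
    unfold FO
    refine (Finset.card_union_le _ _).trans (add_le_add ?_ ?_)
    · rw [Finset.card_product, Finset.card_singleton, Int.card_Icc]
      omega
    · rw [Finset.card_product, Finset.card_singleton, one_mul]
  have h2 : (MF u).card ≤ ∑ k ∈ Finset.range u.length, (DD u / 2 ^ (k + 11) + 1) := by
    unfold MF
    refine Finset.card_biUnion_le.trans (Finset.sum_le_sum fun k hk => ?_)
    refine Finset.card_image_le.trans ?_
    rw [Finset.card_range]
    have hk := Finset.mem_range.1 hk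
    have h3 : DD u * ell k / (u.getD k 0 + 1) ≤ DD u * ell k / (ell k * 2 ^ (k + 11)) :=
      Nat.div_le_div_left (hw k hk) (Nat.mul_pos (ell_pos k) (by positivity))
    have h4 : DD u * ell k / (ell k * 2 ^ (k + 11)) = DD u / 2 ^ (k + 11) := by
      rw [mul_comm (DD u), Nat.mul_div_mul_left _ _ (ell_pos k)]
    omega
  rw [Finset.sum_add_distrib, Finset.sum_const, Finset.card_range] at h2
  have h3 := (Nat.le_add_right _ _).trans (sum_div_le (DD u) u.length)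
  simp only [smul_eq_mul, mul_one] at h2
  omega

theorem exists_K (u : List ℕ) : ∃ K, DD u = 16 * K ∧ 68719476736 * (Encodable.encode u + 1) ≤ K := by
  refine ⟨2 ^ (4 * Encodable.encode u + 36), ?_, ?_⟩
  · unfold DD
    rw [show (16 : ℕ) = 2 ^ 4 by norm_num, ← pow_add]; congr 1; ring
  · have h1 : Encodable.encode u + 1 ≤ 2 ^ Encodable.encode u := Nat.lt_two_pow_self
    have h2 : 2 ^ Encodable.encode u ≤ 2 ^ (4 * Encodable.encode u) :=
      Nat.pow_le_pow_right (by norm_num) (by omega)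
    have h3 : 2 ^ (4 * Encodable.encode u + 36) = 68719476736 * 2 ^ (4 * Encodable.encode u) := by
      rw [pow_add]; norm_num; ring
    rw [h3]
    exact Nat.mul_le_mul_left _ (h1.trans h2)

/-- **Without a branch there is no finitary isomorphism.** -/
theorem not_iso (t : List ℕ → Bool) (ht : ¬ ∃ f : ℕ → ℕ, ∀ n, t (br f n) = true)
    (X₀ : Set (ℤ → Fin 32)) (φ : (ℤ → Fin 32) → (ℤ → Fin 16))
    (hnull : mu t X₀ᶜ = 0) (hcont : ContinuousOn φ X₀)
    (heq : ∀ x ∈ X₀, φ (fun n => x (n + 1)) = fun n => φ x (n + 1))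
    (hmap : Measure.map φ (mu t) = P (Fin 16)) : False := by
  classical
  have hfin : ∀ x ∈ X₀, ∃ n : ℕ, ∀ y ∈ X₀, (∀ i : ℤ, |i| ≤ (n : ℤ) → y i = x i) →
      φ y 0 = φ x 0 := by
    intro x hx
    have h1 : ContinuousWithinAt (fun y => φ y 0) X₀ x :=
      (continuous_apply (0 : ℤ)).continuousAt.comp_continuousWithinAt (hcont x hx)
    have h2 : {c : Fin 16 | c = φ x 0} ∈ 𝓝 (φ x 0) := (isOpen_discrete _).mem_nhds rfl
    have h3 := h1 h2
    obtain ⟨S, hS, hS2⟩ := mem_nhdsWithin_iff_exists_mem_nhds_inter.1 h3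
    obtain ⟨n, hn⟩ := exists_ball_subset hS
    exact ⟨n, fun y hy hyx => hS2 ⟨hn y hyx, hy⟩⟩
  have hgen := generic_ae (mu_shn t) hnull heq
  have hφ : AEMeasurable φ (mu t) := by
    by_contra hcon
    rw [Measure.map_of_not_aemeasurable hcon] at hmap
    have h1 : P (Fin 16) univ = 0 := by rw [← hmap]; rfl
    rw [measure_univ] at h1
    exact one_ne_zero h1
  set T := TT t with hT
  have hT0 : ∀ v ∈ T, 0 < v.length := fun v hv => TT_pos hv
  -- radii
  have hrad : ∀ k : ℕ, ∃ r : ℕ, mu t {x | Und X₀ φ r x} ≤ (2⁻¹) ^ (4 * k + 20) := fun k =>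
    exists_radius X₀ φ (mu t) hnull hfin _ (pos_iff_ne_zero.2 (by simp))
  choose r hr using hrad
  set E : ℕ → ℕ := fun k => r k + k with hE
  have hrE : ∀ k, ((2 * r k + 1 : ℕ) : ℝ≥0∞) * (2⁻¹) ^ (4 * (E k + 1) + 50) ≤
      (2⁻¹) ^ (4 * k + 20) := by
    intro k
    have h1 : 2 * r k + 1 ≤ 2 ^ (2 * r k + 1) := Nat.lt_two_pow_self.le
    have h2 : 4 * (E k + 1) + 50 = (2 * r k + 1) + (2 * r k + 4 * k + 53) := by
      simp only [hE]; ring
    rw [h2, pow_add (2⁻¹ : ℝ≥0∞) (2 * r k + 1), ← mul_assoc]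
    have h3 : ((2 * r k + 1 : ℕ) : ℝ≥0∞) * (2⁻¹) ^ (2 * r k + 1) ≤ 1 := by
      calc ((2 * r k + 1 : ℕ) : ℝ≥0∞) * (2⁻¹) ^ (2 * r k + 1) ≤
            ((2 ^ (2 * r k + 1) : ℕ) : ℝ≥0∞) * (2⁻¹) ^ (2 * r k + 1) := by
              exact mul_le_mul' (by exact_mod_cast h1) le_rfl
        _ = 1 := by
          push_cast
          rw [← mul_pow, ENNReal.mul_inv_cancel (by simp) (by simp), one_pow]
    refine (mul_le_of_le_one_left' h3).trans ?_
    exact pow_le_pow_right_of_le_one' (show (2⁻¹ : ℝ≥0∞) ≤ 1 by norm_num) (by omega)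
  set g : ℕ → ℕ := fun k => (2 * (r k + 3 * Sg (E k)) + 1) * (ell k * 2 ^ (k + 11)) with hg
  obtain ⟨n, hn⟩ := exists_obs2 t ht g
  set u := br g (n + 2) with hu
  have huT : u ∈ T := hn
  have hlen : u.length = n + 2 := length_br g (n + 2)
  have hgetD : ∀ k < u.length, u.getD k 0 = g k := fun k hk => getD_br g (by omega)
  obtain ⟨henc1, henc2⟩ := NB.le_encode_list u
  have hU : ∀ k < u.length, u.getD k 0 + 1 ≤ DD u := by
    intro k hk
    have h1 := henc2 k hk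
    have h2 := lt_DD u
    omega
  have hw : ∀ k < u.length,
      (2 * (r k + 3 * Sg (E k)) + 1) * (ell k * 2 ^ (k + 11)) ≤ u.getD k 0 + 1 := by
    intro k hk
    rw [hgetD k hk]
    exact Nat.le_succ _
  have hw' : ∀ k < u.length, ell k * 2 ^ (k + 11) ≤ u.getD k 0 + 1 := by
    intro k hk
    refine le_trans ?_ (hw k hk)
    exact Nat.le_mul_of_pos_left _ (by omega)
  -- constants
  obtain ⟨K, hK, hKbig⟩ := exists_K u
  have hFO : (FO u).card ≤ K := by
    have h1 := card_FO u hw'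
    have h2 : mm u = 12 * Encodable.encode u + 100 := by unfold mm; rfl
    rw [h2, hK] at h1
    have h3 : 16 * K / 2 ^ 10 = K / 64 := by omega
    omega
  set qo := Q (Fin 3 × ℤ) (OccS u) with hqo
  have hqo_low : (2⁻¹) ^ K ≤ qo :=
    (pow_le_pow_right_of_le_one' (show (2⁻¹ : ℝ≥0∞) ≤ 1 by norm_num) hFO).trans (Occ_lower u)
  have hqo_top : qo ≠ ∞ := measure_ne_top _ _
  have hprod : ∀ S : Set Sk, PP (S ×ˢ univ) = Q (Fin 3 × ℤ) S := by
    intro S
    rw [PP, Measure.prod_prod, measure_univ, mul_one]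
  obtain ⟨O, hOm, hO, hOsub⟩ := exists_small_set (X₀ := X₀) (φ := φ) (r := r) (E := E) hT0 huT K hK
  -- lower bound for the good event
  have hbad := prob_many_bad X₀ φ hT0 (u := u) (by omega) r E (fun k => hr k) hrE hU hw
  have hlow : qo ≤ PP {ω | GD X₀ φ T u r E ω} + qo * 2⁻¹ := by
    have hsub : OccS u ×ˢ (univ : Set (ℤ → Bt)) ⊆ {ω | GD X₀ φ T u r E ω} ∪
        (((OccS u ∩ {s | ¬ NS s u}) ×ˢ univ) ∪ ((OccS u ∩ {s | ¬ ∀ d < DD u,
          hc s (0 + (ell (Encodable.encode u) * d : ℕ)) (Encodable.encode u)}) ×ˢ univ) ∪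
        ((OccS u ∩ {s | DD u ≤
          2 * ((Finset.range (DD u)).filter fun d => ¬ ActD s u 0 d).card}) ×ˢ univ) ∪
        ((OccS u ×ˢ univ) ∩ {ω | DD u ≤
          16 * ((Loc u).filter fun i => ω ∈ BadS X₀ φ T u r E i).card})) := by
      rintro ⟨s, b⟩ ⟨h1, -⟩
      have h1 : s ∈ OccS u := h1
      by_cases h2 : NS s u
      · by_cases h3 : ∀ d < DD u,
          hc s (0 + (ell (Encodable.encode u) * d : ℕ)) (Encodable.encode u)
        · by_cases h4 : DD u ≤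
            2 * ((Finset.range (DD u)).filter fun d => ¬ ActD s u 0 d).card
          · exact Or.inr (Or.inl (Or.inr ⟨⟨h1, h4⟩, mem_univ _⟩))
          · by_cases h5 : DD u ≤
              16 * ((Loc u).filter fun i => (s, b) ∈ BadS X₀ φ T u r E i).card
            · exact Or.inr (Or.inr ⟨⟨h1, mem_univ _⟩, h5⟩)
            · exact Or.inl ⟨Alive_of h1 h3 h2, h2, not_le.1 h4, not_le.1 h5⟩
        · exact Or.inr (Or.inl (Or.inl (Or.inr ⟨⟨h1, h3⟩, mem_univ _⟩)))
      · exact Or.inr (Or.inl (Or.inl (Or.inl ⟨⟨h1, h2⟩, mem_univ _⟩)))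
    have h1 : qo = PP (OccS u ×ˢ univ) := (hprod _).symm
    have hp3 : ∀ m : ℕ, 3 ≤ m → qo * (2⁻¹) ^ m ≤ qo * (2⁻¹) ^ 3 := fun m hm =>
      mul_le_mul' le_rfl (pow_le_pow_right_of_le_one' (show (2⁻¹ : ℝ≥0∞) ≤ 1 by norm_num) hm)
    have b1 : PP ((OccS u ∩ {s | ¬ NS s u}) ×ˢ univ) ≤ qo * (2⁻¹) ^ 3 := by
      rw [hprod]
      exact (Q_not_NS u).trans (hp3 48 (by norm_num))
    have b2 : PP ((OccS u ∩ {s | ¬ ∀ d < DD u,
          hc s (0 + (ell (Encodable.encode u) * d : ℕ)) (Encodable.encode u)}) ×ˢ univ) ≤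
          qo * (2⁻¹) ^ 3 := by
      rw [hprod]
      exact (Q_not_extra u).trans (hp3 8 (by norm_num))
    have b3 : PP ((OccS u ∩ {s | DD u ≤
          2 * ((Finset.range (DD u)).filter fun d => ¬ ActD s u 0 d).card}) ×ˢ univ) ≤
          qo * (2⁻¹) ^ 3 := by
      rw [hprod]
      exact (Q_inactive u).trans (hp3 5 (by norm_num))
    have e2 : qo * 2⁻¹ = qo * (2⁻¹) ^ 3 + qo * (2⁻¹) ^ 3 + qo * (2⁻¹) ^ 3 + qo * (2⁻¹) ^ 3 := by
      have e1 : ((2 : ℝ≥0∞)⁻¹) ^ 3 = (2⁻¹) ^ 2 * 2⁻¹ := pow_succ _ _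
      rw [e1]
      symm
      calc qo * (2⁻¹ ^ 2 * 2⁻¹) + qo * (2⁻¹ ^ 2 * 2⁻¹) + qo * (2⁻¹ ^ 2 * 2⁻¹) +
            qo * (2⁻¹ ^ 2 * 2⁻¹) = (2 ^ 2 * 2⁻¹ ^ 2) * (qo * 2⁻¹) := by ring
        _ = qo * 2⁻¹ := by
          rw [← mul_pow, ENNReal.mul_inv_cancel (by simp) (by simp), one_pow, one_mul]
    rw [e2]
    calc qo = PP (OccS u ×ˢ univ) := h1
      _ ≤ _ := measure_mono hsub
      _ ≤ PP {ω | GD X₀ φ T u r E ω} + _ := measure_union_le _ _
      _ ≤ PP {ω | GD X₀ φ T u r E ω} + (qo * (2⁻¹) ^ 3 + qo * (2⁻¹) ^ 3 + qo * (2⁻¹) ^ 3 +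
          qo * (2⁻¹) ^ 3) := by
        refine add_le_add le_rfl ?_
        refine (measure_union_le _ _).trans (add_le_add ?_ hbad)
        refine (measure_union_le _ _).trans (add_le_add ?_ b3)
        exact (measure_union_le _ _).trans (add_le_add b1 b2)
  have hlow2 : qo * 2⁻¹ ≤ PP {ω | GD X₀ φ T u r E ω} := by
    have h1 : qo * 2⁻¹ + qo * 2⁻¹ = qo := by
      rw [← mul_two, mul_assoc, ENNReal.inv_mul_cancel (by simp) (by simp), mul_one]
    have h2 : qo * 2⁻¹ + qo * 2⁻¹ ≤ PP {ω | GD X₀ φ T u r E ω} + qo * 2⁻¹ := by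
      rw [h1]; exact hlow
    exact (ENNReal.add_le_add_iff_right (ENNReal.mul_ne_top hqo_top (by simp))).1 h2
  -- upper bound
  have hXm : Measurable (XX T) := measurable_Psi (T := T) (q := fun _ => 0) hT0
  have hmu : mu t = PP.map (XX T) := rfl
  have hup : PP {ω | GD X₀ φ T u r E ω} ≤ (2⁻¹) ^ (4 * K) := by
    have h1 : ∀ᵐ ω ∂PP, Gen X₀ φ T ω := by
      rw [hmu] at hgen
      exact ae_of_ae_map hXm.aemeasurable hgen
    have h2 : PP {ω | GD X₀ φ T u r E ω} ≤ PP (XX T ⁻¹' (φ ⁻¹' O)) := by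
      refine measure_mono_ae ?_
      filter_upwards [h1] with ω hω hGD
      exact hOsub ω hGD hω
    refine h2.trans ((Measure.le_map_apply hXm.aemeasurable _).trans ?_)
    rw [← hmu, ← Measure.map_apply_of_aemeasurable hφ hOm, hmap]
    exact hO
  have h1 : ((2 : ℝ≥0∞)⁻¹) ^ (K + 1) ≤ (2⁻¹) ^ (4 * K) := by
    rw [pow_succ]
    exact (mul_le_mul' hqo_low le_rfl).trans (hlow2.trans hup)
  have hK1 : 1 ≤ K := by omega
  have h2 : ((2 ^ (3 * K - 1) : ℕ) : ℝ≥0∞) ≤ ((1 : ℕ) : ℝ≥0∞) := by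
    have e1 : 4 * K = (3 * K - 1) + (K + 1) := by omega
    calc ((2 ^ (3 * K - 1) : ℕ) : ℝ≥0∞) = 2 ^ (3 * K - 1) * (2 ^ (K + 1) * (2⁻¹) ^ (K + 1)) := by
          rw [← mul_pow, ENNReal.mul_inv_cancel (by simp) (by simp), one_pow, mul_one]
          push_cast; rfl
      _ = 2 ^ (4 * K) * (2⁻¹) ^ (K + 1) := by
          rw [← mul_assoc, ← pow_add, ← e1]
      _ ≤ 2 ^ (4 * K) * (2⁻¹) ^ (4 * K) := mul_le_mul' le_rfl h1
      _ = 1 := by rw [← mul_pow, ENNReal.mul_inv_cancel (by simp) (by simp), one_pow]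
      _ = ((1 : ℕ) : ℝ≥0∞) := by simp
  have h3 : 2 ^ (3 * K - 1) ≤ 1 := by exact_mod_cast h2
  have h4 : 2 ^ 1 ≤ 2 ^ (3 * K - 1) := Nat.pow_le_pow_right (by norm_num) (by omega)
  omega

end Pool.Agent.TH288.FI
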