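import Pool.Agent.TH288.FI.Base

/-!
# Parity relations with a chosen pivot
-/

set_option autoImplicit false

open MeasureTheory Set Filter
open scoped ENNReal Topology

namespace Pool.Agent.TH288.FI

theorem bt_add (a : Bt) : a + a = 0 := by revert a; decide

section Alg

variable {ι : Type*} (R : Set ι) (n : ι → ℕ) (π : ι → ℕ → ℤ) (ε : ι → ℤ)

open Classical in
/-- encoded bit -/
noncomputable def encB (q : ι → ℕ) (b : ℤ → Bt) (j : ℤ) : Bt :=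
  if h : ∃ ρ ∈ R, π ρ (q ρ) = j then
    ∑ k ∈ (Finset.range (n h.choose)).erase (q h.choose), b (π h.choose k) else b j

open Classical in
/-- extra bit -/
noncomputable def encE (q : ι → ℕ) (b : ℤ → Bt) (j : ℤ) : Bt :=
  if h : ∃ ρ ∈ R, ε ρ = j then b (π h.choose (q h.choose)) else 0

open Classical in
/-- decoded bit -/
noncomputable def dcdB (q : ι → ℕ) (b' e : ℤ → Bt) (j : ℤ) : Bt :=
  if h : ∃ ρ ∈ R, π ρ (q ρ) = j then e (ε h.choose) else b' j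

variable (hI : ∀ ρ ∈ R, ∀ ρ' ∈ R, ∀ k < n ρ, ∀ k' < n ρ', π ρ k = π ρ' k' → ρ = ρ' ∧ k = k')
variable (hE : ∀ ρ ∈ R, ∀ ρ' ∈ R, ε ρ = ε ρ' → ρ = ρ')
variable {q q' : ι → ℕ} (hq : ∀ ρ ∈ R, q ρ < n ρ) (hq' : ∀ ρ ∈ R, q' ρ < n ρ)

include hI hq in
theorem encB_piv (b : ℤ → Bt) {ρ : ι} (hρ : ρ ∈ R) :
    encB R n π q b (π ρ (q ρ)) = ∑ k ∈ (Finset.range (n ρ)).erase (q ρ), b (π ρ k) := by
  have h : ∃ ρ' ∈ R, π ρ' (q ρ') = π ρ (q ρ) := ⟨ρ, hρ, rfl⟩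
  unfold encB
  rw [dif_pos h]
  have h2 := (hI _ h.choose_spec.1 _ hρ _ (hq _ h.choose_spec.1) _ (hq _ hρ) h.choose_spec.2).1
  rw [h2]

theorem encB_not (b : ℤ → Bt) {j : ℤ} (h : ∀ ρ ∈ R, π ρ (q ρ) ≠ j) : encB R n π q b j = b j := by
  unfold encB
  rw [dif_neg]
  rintro ⟨ρ, h1, h2⟩
  exact h ρ h1 h2

include hI hq in
theorem encB_other (b : ℤ → Bt) {ρ : ι} (hρ : ρ ∈ R) {k : ℕ} (hk : k < n ρ) (hkq : k ≠ q ρ) :
    encB R n π q b (π ρ k) = b (π ρ k) := by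
  refine encB_not R n π b fun ρ' h1 h2 => ?_
  obtain ⟨rfl, h3⟩ := hI _ h1 _ hρ _ (hq _ h1) _ hk h2
  exact hkq h3.symm

include hE in
theorem encE_eps (b : ℤ → Bt) {ρ : ι} (hρ : ρ ∈ R) : encE R π ε q b (ε ρ) = b (π ρ (q ρ)) := by
  have h : ∃ ρ' ∈ R, ε ρ' = ε ρ := ⟨ρ, hρ, rfl⟩
  unfold encE
  rw [dif_pos h]
  have h2 := hE _ h.choose_spec.1 _ hρ h.choose_spec.2
  rw [h2]

theorem encE_not (b : ℤ → Bt) {j : ℤ} (h : ∀ ρ ∈ R, ε ρ ≠ j) : encE R π ε q b j = 0 := by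
  unfold encE
  rw [dif_neg]
  rintro ⟨ρ, h1, h2⟩
  exact h ρ h1 h2

include hI hq in
theorem dcdB_piv (b' e : ℤ → Bt) {ρ : ι} (hρ : ρ ∈ R) : dcdB R π ε q b' e (π ρ (q ρ)) = e (ε ρ) := by
  have h : ∃ ρ' ∈ R, π ρ' (q ρ') = π ρ (q ρ) := ⟨ρ, hρ, rfl⟩
  unfold dcdB
  rw [dif_pos h]
  have h2 := (hI _ h.choose_spec.1 _ hρ _ (hq _ h.choose_spec.1) _ (hq _ hρ) h.choose_spec.2).1
  rw [h2]

theorem dcdB_not (b' e : ℤ → Bt) {j : ℤ} (h : ∀ ρ ∈ R, π ρ (q ρ) ≠ j) :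
    dcdB R π ε q b' e j = b' j := by
  unfold dcdB
  rw [dif_neg]
  rintro ⟨ρ, h1, h2⟩
  exact h ρ h1 h2

include hI hE hq in
/-- decoding inverts encoding -/
theorem dcd_enc (b : ℤ → Bt) : dcdB R π ε q (encB R n π q b) (encE R π ε q b) = b := by
  funext j
  by_cases h : ∃ ρ ∈ R, π ρ (q ρ) = j
  · obtain ⟨ρ, hρ, rfl⟩ := h
    rw [dcdB_piv R n π ε hI hq _ _ hρ, encE_eps R π ε hE b hρ]
  · have h' : ∀ ρ ∈ R, π ρ (q ρ) ≠ j := fun ρ h1 h2 => h ⟨ρ, h1, h2⟩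
    rw [dcdB_not R π ε _ _ h', encB_not R n π b h']

/-- change of pivots -/
noncomputable def Rm (q q' : ι → ℕ) (b : ℤ → Bt) : ℤ → Bt :=
  dcdB R π ε q' (encB R n π q b) (encE R π ε q b)

include hI hE hq' in
theorem Rm_piv (b : ℤ → Bt) {ρ : ι} (hρ : ρ ∈ R) :
    Rm R n π ε q q' b (π ρ (q' ρ)) = b (π ρ (q ρ)) := by
  unfold Rm
  rw [dcdB_piv R n π ε hI hq' _ _ hρ, encE_eps R π ε hE b hρ]

theorem Rm_not (b : ℤ → Bt) {j : ℤ} (h : ∀ ρ ∈ R, π ρ (q' ρ) ≠ j) :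
    Rm R n π ε q q' b j = encB R n π q b j := by
  unfold Rm
  rw [dcdB_not R π ε _ _ h]

include hI hE hq hq' in
set_option linter.unusedSectionVars false in
theorem encB_Rm (b : ℤ → Bt) : encB R n π q' (Rm R n π ε q q' b) = encB R n π q b := by
  funext j
  by_cases h : ∃ ρ ∈ R, π ρ (q' ρ) = j
  · obtain ⟨ρ, hρ, rfl⟩ := h
    rw [encB_piv R n π hI hq' _ hρ]
    have hz : ∀ k < n ρ, k ≠ q' ρ → Rm R n π ε q q' b (π ρ k) = encB R n π q b (π ρ k) := by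
      intro k hk hkq
      refine Rm_not R n π ε b fun ρ' h1 h2 => ?_
      obtain ⟨rfl, h3⟩ := hI _ h1 _ hρ _ (hq' _ h1) _ hk h2
      exact hkq h3.symm
    by_cases hqq : q ρ = q' ρ
    · rw [← hqq, encB_piv R n π hI hq _ hρ]
      refine Finset.sum_congr rfl fun k hk => ?_
      rw [Finset.mem_erase, Finset.mem_range] at hk
      rw [hz k hk.2 (by rw [← hqq]; exact hk.1), encB_other R n π hI hq b hρ hk.2 hk.1]
    · have hqm : q ρ ∈ (Finset.range (n ρ)).erase (q' ρ) :=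
        Finset.mem_erase.2 ⟨hqq, Finset.mem_range.2 (hq _ hρ)⟩
      have hqm' : q' ρ ∈ (Finset.range (n ρ)).erase (q ρ) :=
        Finset.mem_erase.2 ⟨fun hh => hqq hh.symm, Finset.mem_range.2 (hq' _ hρ)⟩
      rw [← Finset.add_sum_erase _ _ hqm, hz _ (hq _ hρ) hqq, encB_piv R n π hI hq _ hρ,
        ← Finset.add_sum_erase _ _ hqm', encB_other R n π hI hq b hρ (hq' _ hρ)
          (fun hh => hqq hh.symm)]
      have h2 : ((Finset.range (n ρ)).erase (q' ρ)).erase (q ρ) =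
          ((Finset.range (n ρ)).erase (q ρ)).erase (q' ρ) := Finset.erase_right_comm
      rw [h2]
      have h3 : ∑ k ∈ ((Finset.range (n ρ)).erase (q ρ)).erase (q' ρ),
          Rm R n π ε q q' b (π ρ k) = ∑ k ∈ ((Finset.range (n ρ)).erase (q ρ)).erase (q' ρ),
            b (π ρ k) := by
        refine Finset.sum_congr rfl fun k hk => ?_
        rw [Finset.mem_erase, Finset.mem_erase, Finset.mem_range] at hk
        rw [hz k hk.2.2 hk.1, encB_other R n π hI hq b hρ hk.2.2 hk.2.1]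
      rw [h3, add_assoc, bt_add, add_zero]
  · have h' : ∀ ρ ∈ R, π ρ (q' ρ) ≠ j := fun ρ h1 h2 => h ⟨ρ, h1, h2⟩
    rw [encB_not R n π _ h', Rm_not R n π ε b h']

include hI hE hq' in
theorem encE_Rm (b : ℤ → Bt) : encE R π ε q' (Rm R n π ε q q' b) = encE R π ε q b := by
  funext j
  by_cases h : ∃ ρ ∈ R, ε ρ = j
  · obtain ⟨ρ, hρ, rfl⟩ := h
    rw [encE_eps R π ε hE _ hρ, encE_eps R π ε hE _ hρ, Rm_piv R n π ε hI hE hq' b hρ]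
  · have h' : ∀ ρ ∈ R, ε ρ ≠ j := fun ρ h1 h2 => h ⟨ρ, h1, h2⟩
    rw [encE_not R π ε _ h', encE_not R π ε _ h']

include hI hE hq hq' in
theorem Rm_Rm (b : ℤ → Bt) : Rm R n π ε q' q (Rm R n π ε q q' b) = b := by
  have h1 : Rm R n π ε q' q (Rm R n π ε q q' b) =
    dcdB R π ε q (encB R n π q' (Rm R n π ε q q' b)) (encE R π ε q' (Rm R n π ε q q' b)) := rfl
  rw [h1, encB_Rm R n π ε hI hE hq hq', encE_Rm R n π ε hI hE hq', dcd_enc R n π ε hI hE hq]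

include hI hE hq hq' in
theorem Rm_local (L : Set ℤ) (hL : ∀ ρ ∈ R, ∀ k < n ρ, π ρ k ∈ L → ∀ k' < n ρ, π ρ k' ∈ L)
    {b b' : ℤ → Bt} (h : ∀ j ∈ L, b j = b' j) {j : ℤ} (hj : j ∈ L) :
    Rm R n π ε q q' b j = Rm R n π ε q q' b' j := by
  by_cases h1 : ∃ ρ ∈ R, π ρ (q' ρ) = j
  · obtain ⟨ρ, hρ, rfl⟩ := h1
    rw [Rm_piv R n π ε hI hE hq' b hρ, Rm_piv R n π ε hI hE hq' b' hρ]
    exact h _ (hL ρ hρ _ (hq' _ hρ) hj _ (hq _ hρ))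
  · have h1' : ∀ ρ ∈ R, π ρ (q' ρ) ≠ j := fun ρ h1' h2 => h1 ⟨ρ, h1', h2⟩
    rw [Rm_not R n π ε b h1', Rm_not R n π ε b' h1']
    by_cases h2 : ∃ ρ ∈ R, π ρ (q ρ) = j
    · obtain ⟨ρ, hρ, rfl⟩ := h2
      rw [encB_piv R n π hI hq b hρ, encB_piv R n π hI hq b' hρ]
      refine Finset.sum_congr rfl fun k hk => ?_
      rw [Finset.mem_erase, Finset.mem_range] at hk
      exact h _ (hL ρ hρ _ (hq _ hρ) hj _ hk.2)
    · have h2' : ∀ ρ ∈ R, π ρ (q ρ) ≠ j := fun ρ h1' h3 => h2 ⟨ρ, h1', h3⟩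
      rw [encB_not R n π b h2', encB_not R n π b' h2']
      exact h j hj

include hI in
/-- finite sets are contained in finite sets closed under the relations -/
theorem exists_closed (F : Finset ℤ) : ∃ L : Finset ℤ, F ⊆ L ∧
    ∀ ρ ∈ R, ∀ k < n ρ, π ρ k ∈ L → ∀ k' < n ρ, π ρ k' ∈ L := by
  classical
  have hfin : (⋃ i ∈ F, {ρ | ρ ∈ R ∧ ∃ k < n ρ, π ρ k = i}).Finite := by
    refine Set.Finite.biUnion F.finite_toSet fun i _ => ?_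
    refine Set.Subsingleton.finite ?_
    rintro ρ ⟨h1, k, h2, h3⟩ ρ' ⟨h1', k', h2', h3'⟩
    exact (hI _ h1 _ h1' _ h2 _ h2' (h3.trans h3'.symm)).1
  let G := hfin.toFinset
  refine ⟨F ∪ G.biUnion fun ρ => (Finset.range (n ρ)).image fun k => π ρ k,
    Finset.subset_union_left, ?_⟩
  intro ρ hρ k hk hmem k' hk'
  rw [Finset.mem_union] at hmem ⊢
  refine Or.inr ?_
  rw [Finset.mem_biUnion]
  refine ⟨ρ, ?_, Finset.mem_image.2 ⟨k', Finset.mem_range.2 hk', rfl⟩⟩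
  rcases hmem with hmem | hmem
  · rw [Set.Finite.mem_toFinset]
    exact Set.mem_biUnion (show π ρ k ∈ (F : Set ℤ) from hmem) ⟨hρ, k, hk, rfl⟩
  · rw [Finset.mem_biUnion] at hmem
    obtain ⟨ρ', h1, h2⟩ := hmem
    rw [Finset.mem_image] at h2
    obtain ⟨k'', h3, h4⟩ := h2
    rw [Finset.mem_range] at h3
    have h1' := h1
    rw [Set.Finite.mem_toFinset] at h1'
    obtain ⟨i, -, h5⟩ := Set.mem_iUnion₂.1 h1'
    obtain ⟨rfl, -⟩ := hI _ h5.1 _ hρ _ h3 _ hk h4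
    exact h1

theorem measurable_encB_fix (j : ℤ) : Measurable fun b => encB R n π q b j := by
  unfold encB
  split_ifs
  · exact Finset.measurable_sum _ fun k _ => measurable_pi_apply _
  · exact measurable_pi_apply _

theorem measurable_encE_fix (j : ℤ) : Measurable fun b => encE R π ε q b j := by
  unfold encE
  split_ifs
  · exact measurable_pi_apply _
  · exact measurable_const

theorem measurable_Rm : Measurable (Rm R n π ε q q') := by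
  refine measurable_pi_iff.2 fun j => ?_
  unfold Rm dcdB
  split_ifs
  · exact measurable_encE_fix _ _ _ _
  · exact measurable_encB_fix _ _ _ _

open Pool.Agent.TH288.NB (P map_P_of_local exists_Icc_superset)

include hI hE hq hq' in
/-- the change of pivots preserves the coin tossing measure -/
theorem map_Rm : (P Bt).map (Rm R n π ε q q') = P Bt := by
  have hcl := fun m : ℕ => exists_closed R n π hI (Finset.Icc (-(m : ℤ)) m)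
  choose L hL1 hL2 using hcl
  refine map_P_of_local (Rm R n π ε q q') (Rm R n π ε q' q) (measurable_Rm R n π ε) L ?_ ?_ ?_ ?_ ?_
  · intro s
    obtain ⟨m, hm⟩ := exists_Icc_superset s
    exact ⟨m, hm.trans (hL1 m)⟩
  · exact Rm_Rm R n π ε hI hE hq' hq
  · exact Rm_Rm R n π ε hI hE hq hq'
  · intro m x y hxy i hi
    exact Rm_local R n π ε hI hE hq hq' (L m : Set ℤ) (hL2 m) hxy hi
  · intro m x y hxy i hi
    exact Rm_local R n π ε hI hE hq' hq (L m : Set ℤ) (hL2 m) hxy hi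

end Alg

section Transfer

variable {ι : Type*} {R R' : Set ι} {n n' : ι → ℕ} {π π' : ι → ℕ → ℤ} {ε ε' : ι → ℤ} {q q' : ι → ℕ}

theorem encB_transfer
    (hI : ∀ ρ ∈ R, ∀ ρ' ∈ R, ∀ k < n ρ, ∀ k' < n ρ', π ρ k = π ρ' k' → ρ = ρ' ∧ k = k')
    (hI' : ∀ ρ ∈ R', ∀ ρ' ∈ R', ∀ k < n' ρ, ∀ k' < n' ρ', π' ρ k = π' ρ' k' → ρ = ρ' ∧ k = k')
    (hq : ∀ ρ ∈ R, q ρ < n ρ) (hq' : ∀ ρ ∈ R', q' ρ < n' ρ) {b b' : ℤ → Bt} (θ : ι → ι) {j j' : ℤ}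
    (h1 : ∀ ρ ∈ R, π ρ (q ρ) = j → θ ρ ∈ R' ∧ n' (θ ρ) = n ρ ∧ q' (θ ρ) = q ρ ∧
      π' (θ ρ) (q ρ) = j' ∧ ∀ k < n ρ, k ≠ q ρ → b (π ρ k) = b' (π' (θ ρ) k))
    (h2 : ∀ ρ' ∈ R', π' ρ' (q' ρ') = j' → ∃ ρ ∈ R, π ρ (q ρ) = j)
    (h3 : (∀ ρ ∈ R, π ρ (q ρ) ≠ j) → b j = b' j') :
    encB R n π q b j = encB R' n' π' q' b' j' := by
  by_cases h : ∃ ρ ∈ R, π ρ (q ρ) = j
  · obtain ⟨ρ, hρ, hj⟩ := h
    obtain ⟨g1, g2, g3, g4, g5⟩ := h1 ρ hρ hj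
    have e1 : j' = π' (θ ρ) (q' (θ ρ)) := by rw [g3]; exact g4.symm
    rw [e1, encB_piv R' n' π' hI' hq' b' g1, ← hj, encB_piv R n π hI hq b hρ, g2, g3]
    refine Finset.sum_congr rfl fun k hk => ?_
    rw [Finset.mem_erase, Finset.mem_range] at hk
    exact g5 k hk.2 hk.1
  · have h' : ∀ ρ ∈ R, π ρ (q ρ) ≠ j := fun ρ g1 g2 => h ⟨ρ, g1, g2⟩
    have h'' : ∀ ρ ∈ R', π' ρ (q' ρ) ≠ j' := fun ρ g1 g2 => h (h2 ρ g1 g2)
    rw [encB_not R n π b h', encB_not R' n' π' b' h'']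
    exact h3 h'

theorem encE_transfer
    (hE : ∀ ρ ∈ R, ∀ ρ' ∈ R, ε ρ = ε ρ' → ρ = ρ')
    (hE' : ∀ ρ ∈ R', ∀ ρ' ∈ R', ε' ρ = ε' ρ' → ρ = ρ')
    {b b' : ℤ → Bt} (θ : ι → ι) {j j' : ℤ}
    (h1 : ∀ ρ ∈ R, ε ρ = j → θ ρ ∈ R' ∧ ε' (θ ρ) = j' ∧
      b (π ρ (q ρ)) = b' (π' (θ ρ) (q' (θ ρ))))
    (h2 : ∀ ρ' ∈ R', ε' ρ' = j' → ∃ ρ ∈ R, ε ρ = j) :
    encE R π ε q b j = encE R' π' ε' q' b' j' := by
  by_cases h : ∃ ρ ∈ R, ε ρ = j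
  · obtain ⟨ρ, hρ, hj⟩ := h
    obtain ⟨g1, g2, g3⟩ := h1 ρ hρ hj
    rw [← g2, encE_eps R' π' ε' hE' b' g1, ← hj, encE_eps R π ε hE b hρ]
    exact g3
  · have h' : ∀ ρ ∈ R, ε ρ ≠ j := fun ρ g1 g2 => h ⟨ρ, g1, g2⟩
    have h'' : ∀ ρ ∈ R', ε' ρ ≠ j' := fun ρ g1 g2 => h (h2 ρ g1 g2)
    rw [encE_not R π ε b h', encE_not R' π' ε' b' h'']

theorem dcdB_transfer
    (hI : ∀ ρ ∈ R, ∀ ρ' ∈ R, ∀ k < n ρ, ∀ k' < n ρ', π ρ k = π ρ' k' → ρ = ρ' ∧ k = k')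
    (hI' : ∀ ρ ∈ R', ∀ ρ' ∈ R', ∀ k < n' ρ, ∀ k' < n' ρ', π' ρ k = π' ρ' k' → ρ = ρ' ∧ k = k')
    (hq : ∀ ρ ∈ R, q ρ < n ρ) (hq' : ∀ ρ ∈ R', q' ρ < n' ρ) {b b' e e' : ℤ → Bt} (θ : ι → ι)
    {j j' : ℤ}
    (h1 : ∀ ρ ∈ R, π ρ (q ρ) = j → θ ρ ∈ R' ∧ π' (θ ρ) (q' (θ ρ)) = j' ∧ e (ε ρ) = e' (ε' (θ ρ)))
    (h2 : ∀ ρ' ∈ R', π' ρ' (q' ρ') = j' → ∃ ρ ∈ R, π ρ (q ρ) = j)
    (h3 : b j = b' j') :
    dcdB R π ε q b e j = dcdB R' π' ε' q' b' e' j' := by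
  by_cases h : ∃ ρ ∈ R, π ρ (q ρ) = j
  · obtain ⟨ρ, hρ, hj⟩ := h
    obtain ⟨g1, g2, g3⟩ := h1 ρ hρ hj
    rw [← g2, dcdB_piv R' n' π' ε' hI' hq' b' e' g1, ← hj, dcdB_piv R n π ε hI hq b e hρ]
    exact g3
  · have h' : ∀ ρ ∈ R, π ρ (q ρ) ≠ j := fun ρ g1 g2 => h ⟨ρ, g1, g2⟩
    have h'' : ∀ ρ ∈ R', π' ρ (q' ρ) ≠ j' := fun ρ g1 g2 => h (h2 ρ g1 g2)
    rw [dcdB_not R π ε b e h', dcdB_not R' π' ε' b' e' h'']
    exact h3

end Transfer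

section JointMeasurability

variable {S : Type*} [MeasurableSpace S]

theorem measurable_eval_at {g : S → ℤ} (hg : Measurable g) :
    Measurable fun p : S × (ℤ → Bt) => p.2 (g p.1) := by
  refine measurable_to_countable' fun v => ?_
  have : (fun p : S × (ℤ → Bt) => p.2 (g p.1)) ⁻¹' {v} =
      ⋃ j : ℤ, ({p : S × (ℤ → Bt) | g p.1 = j} ∩ {p | p.2 j = v}) := by
    ext p
    simp
  rw [this]
  refine MeasurableSet.iUnion fun j => MeasurableSet.inter ?_ ?_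
  · exact (hg.comp measurable_fst) (measurableSet_singleton j)
  · have h6 : Measurable fun p : S × (ℤ → Bt) => p.2 j := by fun_prop
    exact h6 (measurableSet_singleton v)

variable {ι : Type*} [Countable ι] {R : S → Set ι} {n : ι → ℕ} {π : S → ι → ℕ → ℤ}
  {ε : S → ι → ℤ} {q : ι → ℕ}

theorem measurable_encB (hR : ∀ ρ, MeasurableSet {s | ρ ∈ R s})
    (hπ : ∀ ρ k, Measurable fun s => π s ρ k)
    (hI : ∀ s, ∀ ρ ∈ R s, ∀ ρ' ∈ R s, ∀ k < n ρ, ∀ k' < n ρ', π s ρ k = π s ρ' k' → ρ = ρ' ∧ k = k')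
    (hq : ∀ s, ∀ ρ ∈ R s, q ρ < n ρ) (j : ℤ) :
    Measurable fun p : S × (ℤ → Bt) => encB (R p.1) n (π p.1) q p.2 j := by
  refine measurable_to_countable' fun v => ?_
  have : (fun p : S × (ℤ → Bt) => encB (R p.1) n (π p.1) q p.2 j) ⁻¹' {v} =
      (⋃ ρ : ι, ({p : S × (ℤ → Bt) | ρ ∈ R p.1} ∩ {p | π p.1 ρ (q ρ) = j} ∩
        {p | ∑ k ∈ (Finset.range (n ρ)).erase (q ρ), p.2 (π p.1 ρ k) = v})) ∪
      ((⋂ ρ : ι, ({p : S × (ℤ → Bt) | ρ ∈ R p.1} ∩ {p | π p.1 ρ (q ρ) = j})ᶜ) ∩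
        {p | p.2 j = v}) := by
    ext p
    constructor
    · intro hp
      have hp : encB (R p.1) n (π p.1) q p.2 j = v := hp
      by_cases h : ∃ ρ ∈ R p.1, π p.1 ρ (q ρ) = j
      · obtain ⟨ρ, h1, h2⟩ := h
        refine Or.inl (mem_iUnion.2 ⟨ρ, ⟨⟨h1, h2⟩, ?_⟩⟩)
        show ∑ k ∈ (Finset.range (n ρ)).erase (q ρ), p.2 (π p.1 ρ k) = v
        rw [← encB_piv (R p.1) n (π p.1) (hI p.1) (hq p.1) p.2 h1, h2, hp]
      · have h' : ∀ ρ ∈ R p.1, π p.1 ρ (q ρ) ≠ j := fun ρ g1 g2 => h ⟨ρ, g1, g2⟩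
        refine Or.inr ⟨mem_iInter.2 fun ρ hρ => h' ρ hρ.1 hρ.2, ?_⟩
        show p.2 j = v
        rw [← hp, encB_not (R p.1) n (π p.1) p.2 h']
    · rintro (hp | hp)
      · obtain ⟨ρ, ⟨h1, h2⟩, h3⟩ := mem_iUnion.1 hp
        have h2 : π p.1 ρ (q ρ) = j := h2
        show encB (R p.1) n (π p.1) q p.2 j = v
        rw [← h2, encB_piv (R p.1) n (π p.1) (hI p.1) (hq p.1) p.2 h1]
        exact h3
      · show encB (R p.1) n (π p.1) q p.2 j = v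
        rw [encB_not (R p.1) n (π p.1) p.2 (fun ρ h1 h2 => mem_iInter.1 hp.1 ρ ⟨h1, h2⟩)]
        exact hp.2
  rw [this]
  have m1 : ∀ ρ, MeasurableSet {p : S × (ℤ → Bt) | ρ ∈ R p.1} := fun ρ => measurable_fst (hR ρ)
  have m2 : ∀ ρ, MeasurableSet {p : S × (ℤ → Bt) | π p.1 ρ (q ρ) = j} := fun ρ =>
    ((hπ ρ (q ρ)).comp measurable_fst) (measurableSet_singleton j)
  refine MeasurableSet.union (MeasurableSet.iUnion fun ρ => ((m1 ρ).inter (m2 ρ)).inter ?_)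
    (MeasurableSet.inter (MeasurableSet.iInter fun ρ => ((m1 ρ).inter (m2 ρ)).compl) ?_)
  · have : Measurable fun p : S × (ℤ → Bt) =>
        ∑ k ∈ (Finset.range (n ρ)).erase (q ρ), p.2 (π p.1 ρ k) :=
      Finset.measurable_sum _ fun k _ => measurable_eval_at (hπ ρ k)
    exact this (measurableSet_singleton v)
  · have h6 : Measurable fun p : S × (ℤ → Bt) => p.2 j := by fun_prop
    exact h6 (measurableSet_singleton v)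

theorem measurable_encE (hR : ∀ ρ, MeasurableSet {s | ρ ∈ R s})
    (hπ : ∀ ρ k, Measurable fun s => π s ρ k) (hε : ∀ ρ, Measurable fun s => ε s ρ)
    (hE : ∀ s, ∀ ρ ∈ R s, ∀ ρ' ∈ R s, ε s ρ = ε s ρ' → ρ = ρ') (j : ℤ) :
    Measurable fun p : S × (ℤ → Bt) => encE (R p.1) (π p.1) (ε p.1) q p.2 j := by
  refine measurable_to_countable' fun v => ?_
  have : (fun p : S × (ℤ → Bt) => encE (R p.1) (π p.1) (ε p.1) q p.2 j) ⁻¹' {v} =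
      (⋃ ρ : ι, ({p : S × (ℤ → Bt) | ρ ∈ R p.1} ∩ {p | ε p.1 ρ = j} ∩
        {p | p.2 (π p.1 ρ (q ρ)) = v})) ∪
      ((⋂ ρ : ι, ({p : S × (ℤ → Bt) | ρ ∈ R p.1} ∩ {p | ε p.1 ρ = j})ᶜ) ∩
        {_p | (0 : Bt) = v}) := by
    ext p
    constructor
    · intro hp
      have hp : encE (R p.1) (π p.1) (ε p.1) q p.2 j = v := hp
      by_cases h : ∃ ρ ∈ R p.1, ε p.1 ρ = j
      · obtain ⟨ρ, h1, h2⟩ := h
        refine Or.inl (mem_iUnion.2 ⟨ρ, ⟨⟨h1, h2⟩, ?_⟩⟩)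
        show p.2 (π p.1 ρ (q ρ)) = v
        rw [← encE_eps (R p.1) (π p.1) (ε p.1) (hE p.1) p.2 h1, h2, hp]
      · have h' : ∀ ρ ∈ R p.1, ε p.1 ρ ≠ j := fun ρ g1 g2 => h ⟨ρ, g1, g2⟩
        refine Or.inr ⟨mem_iInter.2 fun ρ hρ => h' ρ hρ.1 hρ.2, ?_⟩
        show (0 : Bt) = v
        rw [← hp, encE_not (R p.1) (π p.1) (ε p.1) p.2 h']
    · rintro (hp | hp)
      · obtain ⟨ρ, ⟨h1, h2⟩, h3⟩ := mem_iUnion.1 hp
        have h2 : ε p.1 ρ = j := h2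
        show encE (R p.1) (π p.1) (ε p.1) q p.2 j = v
        rw [← h2, encE_eps (R p.1) (π p.1) (ε p.1) (hE p.1) p.2 h1]
        exact h3
      · show encE (R p.1) (π p.1) (ε p.1) q p.2 j = v
        rw [encE_not (R p.1) (π p.1) (ε p.1) p.2 (fun ρ h1 h2 => mem_iInter.1 hp.1 ρ ⟨h1, h2⟩)]
        exact hp.2
  rw [this]
  have m1 : ∀ ρ, MeasurableSet {p : S × (ℤ → Bt) | ρ ∈ R p.1} := fun ρ => measurable_fst (hR ρ)
  have m2 : ∀ ρ, MeasurableSet {p : S × (ℤ → Bt) | ε p.1 ρ = j} := fun ρ =>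
    ((hε ρ).comp measurable_fst) (measurableSet_singleton j)
  refine MeasurableSet.union (MeasurableSet.iUnion fun ρ => ((m1 ρ).inter (m2 ρ)).inter ?_)
    (MeasurableSet.inter (MeasurableSet.iInter fun ρ => ((m1 ρ).inter (m2 ρ)).compl)
      (MeasurableSet.const _))
  exact (measurable_eval_at (hπ ρ (q ρ))) (measurableSet_singleton v)

theorem measurable_dcdB (hR : ∀ ρ, MeasurableSet {s | ρ ∈ R s})
    (hπ : ∀ ρ k, Measurable fun s => π s ρ k) (hε : ∀ ρ, Measurable fun s => ε s ρ)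
    (hI : ∀ s, ∀ ρ ∈ R s, ∀ ρ' ∈ R s, ∀ k < n ρ, ∀ k' < n ρ', π s ρ k = π s ρ' k' → ρ = ρ' ∧ k = k')
    (hq : ∀ s, ∀ ρ ∈ R s, q ρ < n ρ) (j : ℤ) :
    Measurable fun p : S × (ℤ → Bt) × (ℤ → Bt) =>
      dcdB (R p.1) (π p.1) (ε p.1) q p.2.1 p.2.2 j := by
  refine measurable_to_countable' fun v => ?_
  have : (fun p : S × (ℤ → Bt) × (ℤ → Bt) =>
      dcdB (R p.1) (π p.1) (ε p.1) q p.2.1 p.2.2 j) ⁻¹' {v} =
      (⋃ ρ : ι, ({p : S × (ℤ → Bt) × (ℤ → Bt) | ρ ∈ R p.1} ∩ {p | π p.1 ρ (q ρ) = j} ∩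
        {p | p.2.2 (ε p.1 ρ) = v})) ∪
      ((⋂ ρ : ι, ({p : S × (ℤ → Bt) × (ℤ → Bt) | ρ ∈ R p.1} ∩ {p | π p.1 ρ (q ρ) = j})ᶜ) ∩
        {p | p.2.1 j = v}) := by
    ext p
    constructor
    · intro hp
      have hp : dcdB (R p.1) (π p.1) (ε p.1) q p.2.1 p.2.2 j = v := hp
      by_cases h : ∃ ρ ∈ R p.1, π p.1 ρ (q ρ) = j
      · obtain ⟨ρ, h1, h2⟩ := h
        refine Or.inl (mem_iUnion.2 ⟨ρ, ⟨⟨h1, h2⟩, ?_⟩⟩)
        show p.2.2 (ε p.1 ρ) = v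
        rw [← dcdB_piv (R p.1) n (π p.1) (ε p.1) (hI p.1) (hq p.1) p.2.1 p.2.2 h1, h2, hp]
      · have h' : ∀ ρ ∈ R p.1, π p.1 ρ (q ρ) ≠ j := fun ρ g1 g2 => h ⟨ρ, g1, g2⟩
        refine Or.inr ⟨mem_iInter.2 fun ρ hρ => h' ρ hρ.1 hρ.2, ?_⟩
        show p.2.1 j = v
        rw [← hp, dcdB_not (R p.1) (π p.1) (ε p.1) _ _ h']
    · rintro (hp | hp)
      · obtain ⟨ρ, ⟨h1, h2⟩, h3⟩ := mem_iUnion.1 hp
        have h2 : π p.1 ρ (q ρ) = j := h2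
        show dcdB (R p.1) (π p.1) (ε p.1) q p.2.1 p.2.2 j = v
        rw [← h2, dcdB_piv (R p.1) n (π p.1) (ε p.1) (hI p.1) (hq p.1) _ _ h1]
        exact h3
      · show dcdB (R p.1) (π p.1) (ε p.1) q p.2.1 p.2.2 j = v
        rw [dcdB_not (R p.1) (π p.1) (ε p.1) _ _ (fun ρ h1 h2 => mem_iInter.1 hp.1 ρ ⟨h1, h2⟩)]
        exact hp.2
  rw [this]
  have m1 : ∀ ρ, MeasurableSet {p : S × (ℤ → Bt) × (ℤ → Bt) | ρ ∈ R p.1} :=
    fun ρ => measurable_fst (hR ρ)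
  have m2 : ∀ ρ, MeasurableSet {p : S × (ℤ → Bt) × (ℤ → Bt) | π p.1 ρ (q ρ) = j} := fun ρ =>
    ((hπ ρ (q ρ)).comp measurable_fst) (measurableSet_singleton j)
  refine MeasurableSet.union (MeasurableSet.iUnion fun ρ => ((m1 ρ).inter (m2 ρ)).inter ?_)
    (MeasurableSet.inter (MeasurableSet.iInter fun ρ => ((m1 ρ).inter (m2 ρ)).compl) ?_)
  · have h5 : Measurable fun p : S × (ℤ → Bt) × (ℤ → Bt) => (p.1, p.2.2) := by fun_prop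
    exact ((measurable_eval_at (hε ρ)).comp h5) (measurableSet_singleton v)
  · have h6 : Measurable fun p : S × (ℤ → Bt) × (ℤ → Bt) => p.2.1 j := by fun_prop
    exact h6 (measurableSet_singleton v)

end JointMeasurability

end Pool.Agent.TH288.FI
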