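import Pool.Agent.TH288.NB.Neg1

/-!
# I.i.d. bits over an arbitrary index set; independence of events over disjoint windows
-/

set_option autoImplicit false

open MeasureTheory Set Filter ProbabilityTheory
open scoped ENNReal Topology

namespace Pool.Agent.TH288.FI

open Pool.Agent.TH288.NB (unif unif_singleton)

/-- bits -/
abbrev Bt : Type := Fin 2

section Index

variable {ι : Type*}

/-- i.i.d. fair bits over `ι` -/
noncomputable def Q (ι : Type*) : Measure (ι → Bt) := Measure.infinitePi (fun _ : ι => unif Bt)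

instance : IsProbabilityMeasure (Q ι) := by unfold Q; infer_instance

/-- cylinder -/
def cy (F : Finset ι) (w : ι → Bt) : Set (ι → Bt) := {x | ∀ i ∈ F, x i = w i}

theorem Q_cy (F : Finset ι) (w : ι → Bt) : Q ι (cy F w) = (2⁻¹) ^ F.card := by
  have : cy F w = Set.pi F (fun i => {w i}) := by
    ext x; simp [cy, Set.pi]
  rw [this, Q, Measure.infinitePi_pi _ (fun _ _ => measurableSet_singleton _)]
  simp [unif_singleton]

/-- the event `E` depends only on the coordinates in `F` -/
def Dep (F : Finset ι) (E : Set (ι → Bt)) : Prop :=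
  ∀ x y : ι → Bt, (∀ i ∈ F, x i = y i) → x ∈ E → y ∈ E

theorem Dep.mono {F G : Finset ι} {E : Set (ι → Bt)} (h : Dep F E) (hFG : F ⊆ G) : Dep G E :=
  fun x y hxy hx => h x y (fun i hi => hxy i (hFG hi)) hx

theorem Dep.compl {F : Finset ι} {E : Set (ι → Bt)} (h : Dep F E) : Dep F Eᶜ :=
  fun x y hxy hx hy => hx (h y x (fun i hi => (hxy i hi).symm) hy)

theorem Dep.inter [DecidableEq ι] {F G : Finset ι} {E E' : Set (ι → Bt)} (h : Dep F E)
    (h' : Dep G E') : Dep (F ∪ G) (E ∩ E') :=
  fun x y hxy hx => ⟨h x y (fun i hi => hxy i (Finset.mem_union_left _ hi)) hx.1,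
    h' x y (fun i hi => hxy i (Finset.mem_union_right _ hi)) hx.2⟩

theorem Dep_cy (F : Finset ι) (w : ι → Bt) : Dep F (cy F w) :=
  fun x y hxy hx i hi => by rw [← hxy i hi]; exact hx i hi

theorem Dep.eq_preimage {F : Finset ι} {E : Set (ι → Bt)} (h : Dep F E) :
    E = (Finset.restrict (π := fun _ => Bt) F) ⁻¹' ((Finset.restrict (π := fun _ => Bt) F) '' E) := by
  ext x
  constructor
  · intro hx; exact ⟨x, hx, rfl⟩
  · rintro ⟨y, hy, hxy⟩
    exact h y x (fun i hi => congrFun hxy ⟨i, hi⟩) hy

theorem Dep.measurableSet {F : Finset ι} {E : Set (ι → Bt)} (h : Dep F E) : MeasurableSet E := by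
  rw [h.eq_preimage]
  exact (Finset.measurable_restrict F) (Set.toFinite _).measurableSet

theorem Q_inter {F G : Finset ι} (hd : Disjoint F G) {E E' : Set (ι → Bt)} (hE : Dep F E)
    (hE' : Dep G E') : Q ι (E ∩ E') = Q ι E * Q ι E' := by
  have h1 : iIndepFun (fun (i : ι) (ω : ι → Bt) => ω i) (Q ι) :=
    iIndepFun_infinitePi (P := fun _ : ι => unif Bt) (X := fun _ ω => ω) (fun _ => measurable_id)
  have h2 := h1.indepFun_finset F G hd (fun i => measurable_pi_apply i)
  have h3 := h2.measure_inter_preimage_eq_mul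
    ((Finset.restrict (π := fun _ => Bt) F) '' E) ((Finset.restrict (π := fun _ => Bt) G) '' E')
    (Set.toFinite _).measurableSet (Set.toFinite _).measurableSet
  have e1 := hE.eq_preimage
  have e2 := hE'.eq_preimage
  rw [e1, e2]
  exact h3

end Index

end Pool.Agent.TH288.FI
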