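import Pool.Agent.TH288.FI.Und

/-!
# The counting argument
-/

set_option autoImplicit false

open MeasureTheory Set Filter
open scoped ENNReal Topology

namespace Pool.Agent.TH288.FI

open Pool.Agent.TH288.NB (shn measurable_shn P P_cyl cyl unif unif_singleton Obs
  measurableSet_window exists_Icc_superset measurableSet_cyl)

attribute [local irreducible] DD ell Sg mm

/-- inside the regions, the encoded sequence is determined by the bits outside the pivots -/
theorem Psi_reg_congr {T : Set (List ℕ)} (hT0 : ∀ v ∈ T, 0 < v.length) {u : List ℕ} (huT : u ∈ T)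
    {s s' : Sk} {b b' : ℤ → Bt} (hA : Alive s u 0) (hA' : Alive s' u 0) (hN : NS s u)
    (hN' : NS s' u)
    (hs : ∀ (τ : Fin 3) (x : ℤ), (bs u 0 0 : ℤ) ≤ x → x < Len u → s (τ, x) = s' (τ, x))
    (hb : ∀ x : ℤ, (bs u 0 0 : ℤ) ≤ x → x < Len u →
      (∀ d, ActD s u 0 d → piv s u 0 d 0 ≠ x) → b x = b' x)
    {j : ℤ} (hj0 : (bs u 0 0 : ℤ) ≤ j) (hj1 : j < Len u) :
    Psi T (fun _ => 0) (s, b) j = Psi T (fun _ => 0) (s', b') j := by
  have inside : ∀ s : Sk, NS s u → ∀ (v : List ℕ) (a i : ℤ), Hd s v a → ¬ (v = u ∧ a = 0) →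
      (bs u 0 0 : ℤ) ≤ i → i < Len u → Cov v a i →
      (bs u 0 0 : ℤ) ≤ a - mm v - 2 ∧ a + Len v ≤ Len u := by
    intro s hN v a i h1 h2 h3 h4 h5
    obtain ⟨-, n2, -, n4⟩ := hN v a h1 h2
    unfold Cov at n2 n4 h5
    constructor
    · by_contra hcon
      exact n2 ⟨by omega, by omega⟩
    · by_contra hcon
      exact n4 ⟨by omega, by omega⟩
  have hdiff : ∀ s s' : Sk, Alive s' u 0 → NS s u →
      (∀ (τ : Fin 3) (x : ℤ), (bs u 0 0 : ℤ) ≤ x → x < Len u → s (τ, x) = s' (τ, x)) →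
      ∀ (v : List ℕ) (a i : ℤ), (bs u 0 0 : ℤ) ≤ i → i < Len u → Cov v a i → Hd s v a →
        Hd s' v a := by
    intro s s' hA' hN hs v a i h1 h2 h3 h4
    by_cases hva : v = u ∧ a = 0
    · rw [hva.1, hva.2]; exact hA'.1
    · obtain ⟨g1, g2⟩ := inside s hN v a i h4 hva h1 h2 h3
      refine Hd_congr (fun x hx1 hx2 => hs 0 x (by omega) ?_) h4
      have : (0 : ℤ) ≤ Len v := by positivity
      omega
  have key : ∀ s s' : Sk, Alive s u 0 → Alive s' u 0 → NS s u → NS s' u →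
      (∀ (τ : Fin 3) (x : ℤ), (bs u 0 0 : ℤ) ≤ x → x < Len u → s (τ, x) = s' (τ, x)) →
      ∀ v a d, v ∈ T → Act s v a d → (piv s v a d 0 = j ∨ eps s v a d = j) →
        Act s' v a d ∧ (∀ k < v.length, piv s' v a d k = piv s v a d k ∧
          (bs u 0 0 : ℤ) ≤ piv s v a d k ∧ piv s v a d k < Len u) ∧
        (eps s v a d = j → ¬ (v = u ∧ a = 0) ∧ eps s' v a d = j) := by
    intro s s' hA hA' hN hN' hs v a d hv hact htouch
    have hs' : ∀ (τ : Fin 3) (x : ℤ), (bs u 0 0 : ℤ) ≤ x → x < Len u → s' (τ, x) = s (τ, x) :=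
      fun τ x h1 h2 => (hs τ x h1 h2).symm
    by_cases hva : v = u ∧ a = 0
    · obtain ⟨rfl, rfl⟩ := hva
      refine ⟨⟨hA', ActD_congr ?_ ?_ hact.2⟩, fun k hk => ⟨?_, ?_, ?_⟩, fun h => ?_⟩
      · intro u' a' i _ h1 h2 h3 h4
        exact hdiff s' s hA hN' hs' u' a' i (by omega) (by omega) h3 h4
      · intro τ x h1 h2
        exact hs τ x (by omega) (by omega)
      · refine (piv_congr hact.2.1 hk fun τ x h1 h2 => ?_).symm
        exact hs τ x (by omega) (by omega)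
      · have h1 := (piv_bounds hact.2 hk).1
        have h2 : bs v 0 0 ≤ bs v k 0 := bs_mono v (Nat.zero_le _)
        omega
      · have h1 := (piv_bounds hact.2 hk).2
        have h2 : bs v (k + 1) 0 ≤ Len v := bs_mono v hk
        omega
      · exfalso
        have h1 := (eps_bounds hact.1 hact.2.1).2
        omega
    · have hcov : Cov v a j := by
        rcases htouch with h | h
        · rw [← h]; exact Cov_piv hact.2 (hT0 v hv)
        · rw [← h]; exact Cov_eps hact.1 hact.2.1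
      obtain ⟨g1, g2⟩ := inside s hN v a j hact.1.1 hva hj0 hj1 hcov
      have hLv : (0 : ℤ) ≤ Len v := by positivity
      have hmv : (0 : ℤ) ≤ mm v := by positivity
      have hbv : (0 : ℤ) ≤ bs v 0 0 := by positivity
      have hbody : ∀ (τ : Fin 3) (x : ℤ), a ≤ x → x < a + Len v → s (τ, x) = s' (τ, x) :=
        fun τ x h1 h2 => hs τ x (by omega) (by omega)
      refine ⟨⟨Alive_congr ?_ ?_ hbody hact.1, ActD_congr ?_ ?_ hact.2⟩,
        fun k hk => ⟨?_, ?_, ?_⟩, fun h => ⟨hva, ?_⟩⟩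
      · exact hdiff s s' hA' hN hs v a j hj0 hj1 hcov hact.1.1
      · intro a' i h1 h2 h3
        obtain ⟨c1, c2⟩ := h2
        exact hdiff s' s hA hN' hs' v a' i (by omega) (by omega) h1 h3
      · intro u' a' i _ h1 h2 h3 h4
        exact hdiff s' s hA hN' hs' u' a' i (by omega) (by omega) h3 h4
      · intro τ x h1 h2
        exact hbody τ x (by omega) (by omega)
      · refine (piv_congr hact.2.1 hk fun τ x h1 h2 => ?_).symm
        exact hbody τ x (by omega) (by omega)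
      · have h1 := (piv_bounds hact.2 hk).1
        have : (0 : ℤ) ≤ bs v k 0 := by positivity
        omega
      · have h1 := (piv_bounds hact.2 hk).2
        have h2 : bs v (k + 1) 0 ≤ Len v := bs_mono v hk
        omega
      · rw [← h]
        exact (eps_congr hact.2.1 hbody).symm
  have hs' : ∀ (τ : Fin 3) (x : ℤ), (bs u 0 0 : ℤ) ≤ x → x < Len u → s' (τ, x) = s (τ, x) :=
    fun τ x h1 h2 => (hs τ x h1 h2).symm
  refine Psi_transfer (q := fun _ => 0) hT0 hT0 (fun τ => hs τ j hj0 hj1) ?_ ?_ ?_ ?_ ?_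
  · intro h
    exact hb j hj0 hj1 fun d hd => h u 0 d huT ⟨hA, hd⟩
  · intro v a d hv hact h
    obtain ⟨g1, g2, -⟩ := key s s' hA hA' hN hN' hs v a d hv hact (Or.inl h)
    refine ⟨hv, g1, fun k hk => ⟨(g2 k hk).1, fun hk0 => ?_⟩⟩
    refine hb _ (g2 k hk).2.1 (g2 k hk).2.2 fun d' hd' heq => ?_
    obtain ⟨-, -, -, h5⟩ := piv_inj ⟨hA, hd'⟩ hact (hT0 u huT) hk heq
    exact hk0 h5.symm
  · intro v a d hv hact h
    obtain ⟨g1, g2, -⟩ := key s' s hA' hA hN' hN hs' v a d hv hact (Or.inl h)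
    exact ⟨hv, g1, (g2 0 (hT0 v hv)).1.trans h⟩
  · intro v a d hv hact h
    obtain ⟨g1, g2, g3⟩ := key s s' hA hA' hN hN' hs v a d hv hact (Or.inr h)
    obtain ⟨g4, g5⟩ := g3 h
    refine ⟨hv, g1, g5, (g2 0 (hT0 v hv)).1, ?_⟩
    refine hb _ (g2 0 (hT0 v hv)).2.1 (g2 0 (hT0 v hv)).2.2 fun d' hd' heq => ?_
    obtain ⟨h5, h6, -, -⟩ := piv_inj ⟨hA, hd'⟩ hact (hT0 u huT) (hT0 v hv) heq
    exact g4 ⟨h5.symm, h6.symm⟩
  · intro v a d hv hact h
    obtain ⟨g1, g2, g3⟩ := key s' s hA' hA hN' hN hs' v a d hv hact (Or.inr h)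
    exact ⟨hv, g1, (g3 h).2⟩

theorem Len_eq (u : List ℕ) : Len u = bs u 0 0 + DD u * oo u.length := by
  unfold Len bs oo
  simp
  ring

theorem card_Loc (u : List ℕ) : (Loc u).card = DD u * oo u.length := by
  unfold Loc oo
  rw [Finset.card_sigma, Finset.mul_sum]
  simp

theorem Loc_inj (u : List ℕ) {i i' : Σ _ : ℕ, ℕ} (hi : i ∈ Loc u) (hi' : i' ∈ Loc u)
    (h : (bs u i.1 0 : ℤ) + i.2 = (bs u i'.1 0 : ℤ) + i'.2) : i = i' := by
  obtain ⟨k, p⟩ := i
  obtain ⟨k', p'⟩ := i'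
  unfold Loc at hi hi'
  rw [Finset.mem_sigma, Finset.mem_range, Finset.mem_range] at hi hi'
  simp only at hi hi' h
  have b1 := bs_succ u k
  have b2 := bs_succ u k'
  have hk : k = k' := by
    rcases lt_trichotomy k k' with hlt | heq | hgt
    · have := bs_mono u (Nat.succ_le_of_lt hlt)
      have h3 : bs u (k + 1) 0 ≤ bs u k' 0 := this
      omega
    · exact heq
    · have := bs_mono u (Nat.succ_le_of_lt hgt)
      have h3 : bs u (k' + 1) 0 ≤ bs u k 0 := this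
      omega
  subst hk
  have : p = p' := by omega
  subst this
  rfl

section Small

variable (X₀ : Set (ℤ → Fin 32)) (φ : (ℤ → Fin 32) → (ℤ → Fin 16))
variable (T : Set (List ℕ)) (u : List ℕ) (r E : ℕ → ℕ)

/-- the encoded sequence -/
noncomputable def XX (ω : Sk × (ℤ → Bt)) : ℤ → Fin 32 := Psi T (fun _ => 0) ω

open Classical in
/-- good points -/
def GD (ω : Sk × (ℤ → Bt)) : Prop :=
  Alive ω.1 u 0 ∧ NS ω.1 u ∧
  2 * ((Finset.range (DD u)).filter fun d => ¬ ActD ω.1 u 0 d).card < DD u ∧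
  16 * ((Loc u).filter fun i => ω ∈ BadS X₀ φ T u r E i).card < DD u

/-- generic points -/
def Gen (ω : Sk × (ℤ → Bt)) : Prop :=
  ∀ j : ℤ, shn j (XX T ω) ∈ X₀ ∧ φ (XX T ω) j = φ (shn j (XX T ω)) 0

open Classical in
/-- decided positions -/
noncomputable def Qd (ω : Sk × (ℤ → Bt)) : Finset ℤ :=
  ((Loc u).filter fun i => ω ∉ BadS X₀ φ T u r E i).image fun i => (bs u i.1 0 : ℤ) + i.2

open Classical in
theorem card_Qd (ω : Sk × (ℤ → Bt)) : (Qd X₀ φ T u r E ω).card +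
    ((Loc u).filter fun i => ω ∈ BadS X₀ φ T u r E i).card = DD u * oo u.length := by
  unfold Qd
  rw [Finset.card_image_of_injOn, add_comm, Finset.card_filter_add_card_filter_not, card_Loc]
  intro i hi i' hi' h
  simp only [Finset.coe_filter] at hi hi'
  exact Loc_inj u hi.1 hi'.1 h

variable {X₀ φ T u r E}

theorem BadS_congr {ω ω' : Sk × (ℤ → Bt)}
    (h : ∀ j : ℤ, (bs u 0 0 : ℤ) ≤ j → j < Len u → XX T ω j = XX T ω' j)
    {i : Σ _ : ℕ, ℕ} (hi : i ∈ Loc u) (hω : ω ∈ BadS X₀ φ T u r E i) :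
    ω' ∈ BadS X₀ φ T u r E i := by
  obtain ⟨k, p⟩ := i
  unfold Loc at hi
  rw [Finset.mem_sigma, Finset.mem_range, Finset.mem_range] at hi
  simp only at hi
  by_cases hG : GLo u k (r k + 3 * Sg (E k)) p
  · rcases hω with hω | hω
    · exact absurd hG hω
    · refine Or.inr (Und_congr X₀ φ (fun l hl => ?_) hω)
      obtain ⟨g1, g2, -⟩ := hG l (by push_cast; simp only at hl; omega)
      have b1 : bs u 0 0 ≤ bs u k 0 := bs_mono u (Nat.zero_le _)
      have b2 := bs_succ u k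
      have b3 : bs u (k + 1) 0 ≤ Len u := bs_mono u hi.1
      have b4 : (bs u (k + 1) 0 : ℤ) = bs u k 0 + ((DD u * ell k : ℕ) : ℤ) := by
        exact_mod_cast b2
      exact h (l + ((bs u k 0 : ℤ) + p)) (by omega) (by omega)
  · exact Or.inl hG

theorem Qd_congr {ω ω' : Sk × (ℤ → Bt)}
    (h : ∀ j : ℤ, (bs u 0 0 : ℤ) ≤ j → j < Len u → XX T ω j = XX T ω' j) :
    Qd X₀ φ T u r E ω = Qd X₀ φ T u r E ω' := by
  classical
  unfold Qd
  congr 1
  refine Finset.filter_congr fun i hi => not_congr ⟨fun h1 => BadS_congr h hi h1, fun h1 => ?_⟩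
  exact BadS_congr (fun j h2 h3 => (h j h2 h3).symm) hi h1

/-- the output at decided positions is a function of the input inside the regions -/
theorem out_congr {ω ω' : Sk × (ℤ → Bt)} (hg : Gen X₀ φ T ω) (hg' : Gen X₀ φ T ω')
    (h : ∀ j : ℤ, (bs u 0 0 : ℤ) ≤ j → j < Len u → XX T ω j = XX T ω' j) {p : ℤ}
    (hp : p ∈ Qd X₀ φ T u r E ω) : φ (XX T ω) p = φ (XX T ω') p := by
  classical
  unfold Qd at hp
  rw [Finset.mem_image] at hp
  obtain ⟨⟨k, p⟩, hi, rfl⟩ := hp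
  rw [Finset.mem_filter] at hi
  obtain ⟨hi, hbad⟩ := hi
  unfold Loc at hi
  rw [Finset.mem_sigma, Finset.mem_range, Finset.mem_range] at hi
  simp only at hi hbad ⊢
  have hG : GLo u k (r k + 3 * Sg (E k)) p := by
    by_contra hcon
    exact hbad (Or.inl hcon)
  have hU : ¬ Und X₀ φ (r k) (shn ((bs u k 0 : ℤ) + p) (XX T ω)) := fun hcon =>
    hbad (Or.inr hcon)
  unfold Und at hU
  push Not at hU
  obtain ⟨c, hc⟩ := hU
  have b1 : bs u 0 0 ≤ bs u k 0 := bs_mono u (Nat.zero_le _)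
  have b2 := bs_succ u k
  have b3 : bs u (k + 1) 0 ≤ Len u := bs_mono u hi.1
  have b4 : (bs u (k + 1) 0 : ℤ) = bs u k 0 + ((DD u * ell k : ℕ) : ℤ) := by
    exact_mod_cast b2
  rw [(hg _).2, (hg' _).2, hc _ (hg _).1 (fun _ _ => rfl), hc _ (hg' _).1 (fun l hl => ?_)]
  obtain ⟨g1, g2, -⟩ := hG l (by push_cast; omega)
  exact (h (l + ((bs u k 0 : ℤ) + p)) (by omega) (by omega)).symm

open Classical in
/-- the outputs of good points form a small set -/
theorem exists_small_set (hT0 : ∀ v ∈ T, 0 < v.length) (huT : u ∈ T) (K : ℕ)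
    (hK : DD u = 16 * K) :
    ∃ O : Set (ℤ → Fin 16), MeasurableSet O ∧ P (Fin 16) O ≤ (2⁻¹) ^ (4 * K) ∧
      ∀ ω, GD X₀ φ T u r E ω → Gen X₀ φ T ω → φ (XX T ω) ∈ O := by
  set R0 := DD u * oo u.length with hR0
  set Reg : Finset ℤ := Finset.Ico (bs u 0 0 : ℤ) (Len u : ℤ) with hReg
  have hcReg : Reg.card = R0 := by
    rw [hReg, Int.card_Ico]
    have := Len_eq u
    omega
  have hmemReg : ∀ j : ℤ, j ∈ Reg ↔ (bs u 0 0 : ℤ) ≤ j ∧ j < Len u := fun j => Finset.mem_Ico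
  have hulen := hT0 u huT
  -- patterns
  let V := Reg → Fin 32
  let pat : Sk × (ℤ → Bt) → V := fun ω i => XX T ω i
  let good : Sk × (ℤ → Bt) → Prop := fun ω => GD X₀ φ T u r E ω ∧ Gen X₀ φ T ω
  let G : Finset V := Finset.univ.filter fun v => ∃ ω, good ω ∧ pat ω = v
  obtain ⟨rep, hrep⟩ : ∃ rep : V → Sk × (ℤ → Bt), ∀ v ∈ G, good (rep v) ∧ pat (rep v) = v := by
    have h : ∀ v, ∃ ω, v ∈ G → good ω ∧ pat ω = v := by
      intro v
      by_cases hv : v ∈ G
      · obtain ⟨ω, hω⟩ := (Finset.mem_filter.1 hv).2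
        exact ⟨ω, fun _ => hω⟩
      · exact ⟨(fun _ => 0, fun _ => 0), fun h => absurd h hv⟩
    choose rep hrep using h
    exact ⟨rep, hrep⟩
  have hpat : ∀ ω ω', pat ω = pat ω' →
      ∀ j : ℤ, (bs u 0 0 : ℤ) ≤ j → j < Len u → XX T ω j = XX T ω' j := by
    intro ω ω' h j h1 h2
    exact congrFun h ⟨j, (hmemReg j).2 ⟨h1, h2⟩⟩
  let O : Set (ℤ → Fin 16) := ⋃ v ∈ G, cyl (Qd X₀ φ T u r E (rep v)) (φ (XX T (rep v)))
  refine ⟨O, ?_, ?_, ?_⟩
  · exact Finset.measurableSet_biUnion _ fun v _ => measurableSet_cyl _ _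
  · -- measure bound
    have hoo : 1 ≤ oo u.length := by
      unfold oo
      have h1 : ell 0 ≤ ∑ i ∈ Finset.range u.length, ell i :=
        Finset.single_le_sum (fun _ _ => Nat.zero_le _) (Finset.mem_range.2 hulen)
      have := ell_pos 0
      omega
    have hR0K : 16 * K ≤ R0 := by
      rw [hR0, hK]
      exact Nat.le_mul_of_pos_right _ hoo
    have h1 : ∀ v ∈ G, P (Fin 16) (cyl (Qd X₀ φ T u r E (rep v)) (φ (XX T (rep v)))) ≤
        (2⁻¹) ^ (4 * R0 - 8 * K) * (2⁻¹) ^ (4 * K) := by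
      intro v hv
      obtain ⟨⟨hGD, -⟩, -⟩ := hrep v hv
      rw [P_cyl]
      have hc := card_Qd X₀ φ T u r E (rep v)
      have h2 := hGD.2.2.2
      rw [hK] at h2
      have h3 : R0 - K ≤ (Qd X₀ φ T u r E (rep v)).card := by omega
      have h4 : ((Fintype.card (Fin 16) : ℝ≥0∞))⁻¹ = (2⁻¹) ^ 4 := by
        rw [Fintype.card_fin, ← ENNReal.inv_pow]
        norm_num
      rw [h4, ← pow_mul, ← pow_add]
      exact pow_le_pow_right_of_le_one' (show (2⁻¹ : ℝ≥0∞) ≤ 1 by norm_num) (by omega)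
    -- number of patterns
    let Pv : Sk → Finset ℤ := fun s =>
      ((Finset.range (DD u)).filter fun d => ActD s u 0 d).image fun d => piv s u 0 d 0
    let C : V → Set (Sk × (ℤ → Bt)) := fun v =>
      cy (Finset.univ ×ˢ Reg) (rep v).1 ×ˢ cyl (Reg \ Pv (rep v).1) (rep v).2
    have hmemPv : ∀ s x, x ∈ Pv s ↔ ∃ d, ActD s u 0 d ∧ piv s u 0 d 0 = x := by
      intro s x
      simp only [Pv, Finset.mem_image, Finset.mem_filter, Finset.mem_range]
      constructor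
      · rintro ⟨d, ⟨-, h2⟩, h3⟩; exact ⟨d, h2, h3⟩
      · rintro ⟨d, h2, h3⟩; exact ⟨d, ⟨h2.1, h2⟩, h3⟩
    have hCm : ∀ v ∈ G, MeasurableSet (C v) := fun v _ =>
      (Dep_cy _ _).measurableSet.prod (measurableSet_cyl _ _)
    have hCdisj : (G : Set V).PairwiseDisjoint C := by
      intro v hv v' hv' hne
      rw [Function.onFun, Set.disjoint_left]
      rintro ⟨s, b⟩ ⟨h2, h3⟩ ⟨h4, h5⟩
      refine hne ?_
      obtain ⟨⟨hGD, hGen⟩, hp⟩ := hrep v hv
      obtain ⟨⟨hGD', hGen'⟩, hp'⟩ := hrep v' hv'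
      have hsk : ∀ (τ : Fin 3) (x : ℤ), (bs u 0 0 : ℤ) ≤ x → x < Len u →
          (rep v).1 (τ, x) = (rep v').1 (τ, x) := by
        intro τ x g1 g2
        have hm : (τ, x) ∈ Finset.univ ×ˢ Reg :=
          Finset.mem_product.2 ⟨Finset.mem_univ _, (hmemReg x).2 ⟨g1, g2⟩⟩
        rw [← h2 _ hm, ← h4 _ hm]
      -- the pivots agree
      have hdiff : ∀ s s' : Sk, Alive s u 0 → Alive s' u 0 → NS s' u →
          (∀ (τ : Fin 3) (x : ℤ), (bs u 0 0 : ℤ) ≤ x → x < Len u → s (τ, x) = s' (τ, x)) →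
          ∀ d, ActD s u 0 d → ActD s' u 0 d ∧ piv s u 0 d 0 = piv s' u 0 d 0 := by
        intro s s' hA hA' hN' hs d hd
        refine ⟨ActD_congr ?_ ?_ hd, ?_⟩
        · intro u' a' i _ g1 g2 g3 g4
          by_cases hva : u' = u ∧ a' = 0
          · rw [hva.1, hva.2]; exact hA.1
          · obtain ⟨-, n2, -, n4⟩ := hN' u' a' g4 hva
            unfold Cov at n2 n4 g3
            have g5 : (bs u 0 0 : ℤ) ≤ a' - mm u' - 2 := by
              by_contra hcon
              exact n2 ⟨by omega, by omega⟩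
            have g6 : a' + Len u' ≤ Len u := by
              by_contra hcon
              exact n4 ⟨by omega, by omega⟩
            refine Hd_congr (fun x hx1 hx2 => (hs 0 x (by omega) ?_).symm) g4
            have : (0 : ℤ) ≤ Len u' := by positivity
            omega
        · intro τ x g1 g2
          exact hs τ x (by omega) (by omega)
        · refine piv_congr hd.1 hulen fun τ x g1 g2 => ?_
          exact hs τ x (by omega) (by omega)
      have hPeq : ∀ x, x ∈ Pv (rep v).1 ↔ x ∈ Pv (rep v').1 := by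
        intro x
        rw [hmemPv, hmemPv]
        constructor
        · rintro ⟨d, g1, g2⟩
          obtain ⟨g3, g4⟩ := hdiff _ _ hGD.1 hGD'.1 hGD'.2.1 hsk d g1
          exact ⟨d, g3, g4 ▸ g2⟩
        · rintro ⟨d, g1, g2⟩
          obtain ⟨g3, g4⟩ := hdiff _ _ hGD'.1 hGD.1 hGD.2.1
            (fun τ x g1 g2 => (hsk τ x g1 g2).symm) d g1
          exact ⟨d, g3, g4 ▸ g2⟩
      rw [← hp, ← hp']
      funext ⟨j, hj⟩
      obtain ⟨g1, g2⟩ := (hmemReg j).1 hj
      refine Psi_reg_congr hT0 huT hGD.1 hGD'.1 hGD.2.1 hGD'.2.1 hsk ?_ g1 g2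
      intro x g3 g4 g5
      have hx : x ∈ Reg := (hmemReg x).2 ⟨g3, g4⟩
      have hx1 : x ∉ Pv (rep v).1 := by
        rw [hmemPv]
        rintro ⟨d, g6, g7⟩
        exact g5 d g6 g7
      have hx2 : x ∉ Pv (rep v').1 := fun h => hx1 ((hPeq x).2 h)
      rw [← h3 x (Finset.mem_sdiff.2 ⟨hx, hx1⟩), ← h5 x (Finset.mem_sdiff.2 ⟨hx, hx2⟩)]
    have hCle : ∀ v ∈ G, (2⁻¹) ^ (4 * R0 - 8 * K) ≤ PP (C v) := by
      intro v hv
      obtain ⟨⟨hGD, -⟩, -⟩ := hrep v hv
      set s := (rep v).1 with hs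
      have hPsub : Pv s ⊆ Reg := by
        intro x hx
        obtain ⟨d, g1, rfl⟩ := (hmemPv s x).1 hx
        have g2 := piv_bounds g1 hulen
        have g3 : bs u (0 + 1) 0 ≤ Len u := bs_mono u hulen
        rw [hmemReg]
        constructor <;> omega
      have hPcard : (Pv s).card = ((Finset.range (DD u)).filter fun d => ActD s u 0 d).card := by
        refine Finset.card_image_of_injOn ?_
        intro d hd d' hd' h
        simp only [Finset.coe_filter] at hd hd'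
        exact (piv_inj ⟨hGD.1, hd.2⟩ ⟨hGD.1, hd'.2⟩ hulen hulen h).2.2.1
      have hact : 8 * K ≤ (Pv s).card := by
        rw [hPcard]
        have h2 := Finset.card_filter_add_card_filter_not (s := Finset.range (DD u))
          (fun d => ActD s u 0 d)
        rw [Finset.card_range] at h2
        have h3 := hGD.2.2.1
        rw [← hs] at h3
        omega
      have hcard : (Reg \ Pv s).card + (Pv s).card = R0 := by
        rw [Finset.card_sdiff_add_card_eq_card hPsub, hcReg]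
      show _ ≤ PP (cy (Finset.univ ×ˢ Reg) s ×ˢ cyl (Reg \ Pv s) (rep v).2)
      rw [PP, Measure.prod_prod, Q_cy, P_cyl, Finset.card_product, Finset.card_univ,
        Fintype.card_fin, hcReg]
      have h4 : ((Fintype.card (Fin 2) : ℝ≥0∞))⁻¹ = 2⁻¹ := by
        rw [Fintype.card_fin]; rfl
      rw [h4, ← pow_add]
      exact pow_le_pow_right_of_le_one' (show (2⁻¹ : ℝ≥0∞) ≤ 1 by norm_num) (by omega)
    have hcardG : (G.card : ℝ≥0∞) * (2⁻¹) ^ (4 * R0 - 8 * K) ≤ 1 := by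
      have h2 : PP (⋃ v ∈ G, C v) = ∑ v ∈ G, PP (C v) := measure_biUnion_finset hCdisj hCm
      have h3 : ∑ v ∈ G, ((2 : ℝ≥0∞)⁻¹) ^ (4 * R0 - 8 * K) ≤ ∑ v ∈ G, PP (C v) :=
        Finset.sum_le_sum hCle
      rw [Finset.sum_const, nsmul_eq_mul, ← h2] at h3
      exact h3.trans prob_le_one
    refine (measure_biUnion_finset_le _ _).trans ((Finset.sum_le_sum h1).trans ?_)
    rw [Finset.sum_const, nsmul_eq_mul, ← mul_assoc]
    exact mul_le_of_le_one_left' hcardG
  · intro ω hω hgen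
    have hv : pat ω ∈ G := Finset.mem_filter.2 ⟨Finset.mem_univ _, ω, ⟨hω, hgen⟩, rfl⟩
    obtain ⟨⟨hGD, hGen⟩, hp⟩ := hrep _ hv
    have hag := hpat _ _ hp
    refine mem_iUnion₂.2 ⟨pat ω, hv, ?_⟩
    intro x hx
    exact (out_congr hGen hgen hag hx).symm

end Small

end Pool.Agent.TH288.FI
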