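import Pool.Agent.TH288.FI.Struct
import Pool.Agent.TH288.FI.Alg

/-!
# The encoding and decoding maps
-/

set_option autoImplicit false

open MeasureTheory Set Filter
open scoped ENNReal Topology

namespace Pool.Agent.TH288.FI

open Pool.Agent.TH288.NB (shn measurable_shn)

/-- indices of relations: node, anchor, number -/
abbrev Ix : Type := List ℕ × ℤ × ℕ

/-- active relations for the nodes in `T` -/
def RS (T : Set (List ℕ)) (s : Sk) : Set Ix := {ρ | ρ.1 ∈ T ∧ Act s ρ.1 ρ.2.1 ρ.2.2}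

/-- number of pivots -/
def nn (ρ : Ix) : ℕ := ρ.1.length

/-- pivots -/
noncomputable def pp (s : Sk) (ρ : Ix) (k : ℕ) : ℤ := piv s ρ.1 ρ.2.1 ρ.2.2 k

/-- extra positions -/
noncomputable def ee (s : Sk) (ρ : Ix) : ℤ := eps s ρ.1 ρ.2.1 ρ.2.2

/-- selection of pivots -/
def qq (q : List ℕ → ℕ) (ρ : Ix) : ℕ := q ρ.1

theorem RS_inj (T : Set (List ℕ)) (s : Sk) : ∀ ρ ∈ RS T s, ∀ ρ' ∈ RS T s, ∀ k < nn ρ,
    ∀ k' < nn ρ', pp s ρ k = pp s ρ' k' → ρ = ρ' ∧ k = k' := by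
  rintro ⟨u, a, d⟩ ⟨-, h⟩ ⟨u', a', d'⟩ ⟨-, h'⟩ k hk k' hk' heq
  obtain ⟨rfl, rfl, rfl, rfl⟩ := piv_inj h h' hk hk' heq
  exact ⟨rfl, rfl⟩

theorem RS_einj (T : Set (List ℕ)) (s : Sk) : ∀ ρ ∈ RS T s, ∀ ρ' ∈ RS T s,
    ee s ρ = ee s ρ' → ρ = ρ' := by
  rintro ⟨u, a, d⟩ ⟨-, h⟩ ⟨u', a', d'⟩ ⟨-, h'⟩ heq
  obtain ⟨rfl, rfl, rfl⟩ := eps_inj h h' heq
  rfl

theorem RS_q {T : Set (List ℕ)} {q : List ℕ → ℕ} (hq : ∀ u ∈ T, q u < u.length) (s : Sk) :
    ∀ ρ ∈ RS T s, qq q ρ < nn ρ := fun ρ hρ => hq ρ.1 hρ.1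

/-! ### Measurability of the structure -/

/-- window of coordinates -/
noncomputable def Wd (l r : ℤ) : Finset (Fin 3 × ℤ) := Finset.univ ×ˢ Finset.Icc l r

theorem mem_Wd {l r : ℤ} {τ : Fin 3} {x : ℤ} : (τ, x) ∈ Wd l r ↔ l ≤ x ∧ x ≤ r := by
  simp [Wd]

theorem measurableSet_Act (u : List ℕ) (a : ℤ) (d : ℕ) : MeasurableSet {s : Sk | Act s u a d} := by
  have : Dep (Wd (a - 2 * Sg (Encodable.encode u)) (a + 2 * Sg (Encodable.encode u)))
      {s : Sk | Act s u a d} := by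
    intro s s' h hs
    exact Act_local (fun τ x h1 h2 => h (τ, x) (mem_Wd.2 ⟨h1, h2⟩)) hs
  exact this.measurableSet

theorem measurable_pt (A : ℤ) (k : ℕ) : Measurable fun s : Sk => pt s A k := by
  refine measurable_to_countable' fun j => ?_
  have : Dep (Wd A (A + ell k)) ((fun s : Sk => pt s A k) ⁻¹' {j}) := by
    intro s s' h hs
    show pt s' A k = j
    rw [← pt_congr (s := s) (s' := s') fun x h1 h2 => h (2, x) (mem_Wd.2 ⟨h1, h2.le⟩)]
    exact hs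
  exact this.measurableSet

theorem measurableSet_RS (T : Set (List ℕ)) (ρ : Ix) : MeasurableSet {s : Sk | ρ ∈ RS T s} := by
  have : {s : Sk | ρ ∈ RS T s} = {_s : Sk | ρ.1 ∈ T} ∩ {s : Sk | Act s ρ.1 ρ.2.1 ρ.2.2} := rfl
  rw [this]
  exact (MeasurableSet.const _).inter (measurableSet_Act _ _ _)

theorem measurable_pp (ρ : Ix) (k : ℕ) : Measurable fun s : Sk => pp s ρ k := measurable_pt _ _

theorem measurable_ee (ρ : Ix) : Measurable fun s : Sk => ee s ρ := measurable_pt _ _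

/-! ### Alphabets -/

/-- source alphabet -/
noncomputable def eA : ((Fin 3 → Bt) × Bt × Bt) ≃ Fin 32 := Fintype.equivFinOfCardEq (by simp)

/-- target alphabet -/
noncomputable def eB : ((Fin 3 → Bt) × Bt) ≃ Fin 16 := Fintype.equivFinOfCardEq (by simp)

/-- encoder -/
noncomputable def Psi (T : Set (List ℕ)) (q : List ℕ → ℕ) (p : Sk × (ℤ → Bt)) : ℤ → Fin 32 :=
  fun j => eA (fun τ => p.1 (τ, j), encB (RS T p.1) nn (pp p.1) (qq q) p.2 j,
    encE (RS T p.1) (pp p.1) (ee p.1) (qq q) p.2 j)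

/-- target sequence -/
noncomputable def Yy (p : Sk × (ℤ → Bt)) : ℤ → Fin 16 := fun j => eB (fun τ => p.1 (τ, j), p.2 j)

/-- components of the target sequence -/
noncomputable def Yi (y : ℤ → Fin 16) : Sk × (ℤ → Bt) :=
  (fun p => (eB.symm (y p.2)).1 p.1, fun j => (eB.symm (y j)).2)

/-- skeleton of a source sequence -/
noncomputable def skA (x : ℤ → Fin 32) : Sk := fun p => (eA.symm (x p.2)).1 p.1

/-- encoded bits -/
noncomputable def b1A (x : ℤ → Fin 32) : ℤ → Bt := fun j => (eA.symm (x j)).2.1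

/-- extra bits -/
noncomputable def b2A (x : ℤ → Fin 32) : ℤ → Bt := fun j => (eA.symm (x j)).2.2

/-- decoder -/
noncomputable def Phi (T : Set (List ℕ)) (q : List ℕ → ℕ) (x : ℤ → Fin 32) : ℤ → Fin 16 :=
  fun j => eB (fun τ => skA x (τ, j),
    dcdB (RS T (skA x)) (pp (skA x)) (ee (skA x)) (qq q) (b1A x) (b2A x) j)

theorem Yi_Yy (p : Sk × (ℤ → Bt)) : Yi (Yy p) = p := by
  unfold Yi Yy
  simp

theorem Yy_Yi (y : ℤ → Fin 16) : Yy (Yi y) = y := by
  unfold Yi Yy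
  funext j
  simp

theorem skA_Psi (T : Set (List ℕ)) (q : List ℕ → ℕ) (p : Sk × (ℤ → Bt)) : skA (Psi T q p) = p.1 := by
  unfold skA Psi
  simp

theorem b1A_Psi (T : Set (List ℕ)) (q : List ℕ → ℕ) (p : Sk × (ℤ → Bt)) :
    b1A (Psi T q p) = encB (RS T p.1) nn (pp p.1) (qq q) p.2 := by
  unfold b1A Psi
  simp

theorem b2A_Psi (T : Set (List ℕ)) (q : List ℕ → ℕ) (p : Sk × (ℤ → Bt)) :
    b2A (Psi T q p) = encE (RS T p.1) (pp p.1) (ee p.1) (qq q) p.2 := by
  unfold b2A Psi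
  simp

theorem Phi_Psi {T : Set (List ℕ)} {q : List ℕ → ℕ} (hq : ∀ u ∈ T, q u < u.length)
    (p : Sk × (ℤ → Bt)) : Phi T q (Psi T q p) = Yy p := by
  unfold Phi
  rw [skA_Psi, b1A_Psi, b2A_Psi,
    dcd_enc (RS T p.1) nn (pp p.1) (ee p.1) (RS_inj T p.1) (RS_einj T p.1) (RS_q hq p.1)]
  rfl

/-- change of pivots -/
noncomputable def RR (T : Set (List ℕ)) (q q' : List ℕ → ℕ) (p : Sk × (ℤ → Bt)) : Sk × (ℤ → Bt) :=
  (p.1, Rm (RS T p.1) nn (pp p.1) (ee p.1) (qq q) (qq q') p.2)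

theorem Psi_RR {T : Set (List ℕ)} {q q' : List ℕ → ℕ} (hq : ∀ u ∈ T, q u < u.length)
    (hq' : ∀ u ∈ T, q' u < u.length) (p : Sk × (ℤ → Bt)) : Psi T q' (RR T q q' p) = Psi T q p := by
  unfold Psi RR
  simp only
  rw [encB_Rm (RS T p.1) nn (pp p.1) (ee p.1) (RS_inj T p.1) (RS_einj T p.1) (RS_q hq p.1)
      (RS_q hq' p.1),
    encE_Rm (RS T p.1) nn (pp p.1) (ee p.1) (RS_inj T p.1) (RS_einj T p.1) (RS_q hq' p.1)]

/-! ### Measurability of the maps -/

theorem measurable_encB' {T : Set (List ℕ)} {q : List ℕ → ℕ} (hq : ∀ u ∈ T, q u < u.length) (j : ℤ) :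
    Measurable fun p : Sk × (ℤ → Bt) => encB (RS T p.1) nn (pp p.1) (qq q) p.2 j :=
  measurable_encB (R := RS T) (n := nn) (π := pp) (measurableSet_RS T) measurable_pp (RS_inj T)
    (RS_q hq) j

theorem measurable_encE' {T : Set (List ℕ)} {q : List ℕ → ℕ} (j : ℤ) :
    Measurable fun p : Sk × (ℤ → Bt) => encE (RS T p.1) (pp p.1) (ee p.1) (qq q) p.2 j :=
  measurable_encE (R := RS T) (π := pp) (ε := ee) (measurableSet_RS T) measurable_pp measurable_ee
    (RS_einj T) j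

theorem measurable_Psi {T : Set (List ℕ)} {q : List ℕ → ℕ} (hq : ∀ u ∈ T, q u < u.length) :
    Measurable (Psi T q) := by
  refine measurable_pi_iff.2 fun j => ?_
  refine (measurable_of_finite eA).comp (Measurable.prodMk ?_ (Measurable.prodMk ?_ ?_))
  · fun_prop
  · exact measurable_encB' hq j
  · exact measurable_encE' j

theorem measurable_Yy : Measurable Yy := by
  refine measurable_pi_iff.2 fun j => ?_
  refine (measurable_of_finite eB).comp (Measurable.prodMk ?_ ?_)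
  · fun_prop
  · fun_prop

theorem measurable_skA : Measurable skA := by
  refine measurable_pi_iff.2 fun p => ?_
  exact (measurable_of_finite fun a : Fin 32 => (eA.symm a).1 p.1).comp (measurable_pi_apply p.2)

theorem measurable_b1A : Measurable b1A := by
  refine measurable_pi_iff.2 fun j => ?_
  exact (measurable_of_finite fun a : Fin 32 => (eA.symm a).2.1).comp (measurable_pi_apply j)

theorem measurable_b2A : Measurable b2A := by
  refine measurable_pi_iff.2 fun j => ?_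
  exact (measurable_of_finite fun a : Fin 32 => (eA.symm a).2.2).comp (measurable_pi_apply j)

theorem measurable_Phi {T : Set (List ℕ)} {q : List ℕ → ℕ} (hq : ∀ u ∈ T, q u < u.length) :
    Measurable (Phi T q) := by
  refine measurable_pi_iff.2 fun j => ?_
  refine (measurable_of_finite eB).comp (Measurable.prodMk ?_ ?_)
  · refine measurable_pi_iff.2 fun τ => ?_
    exact (measurable_pi_apply (τ, j)).comp measurable_skA
  · have h1 := measurable_dcdB (R := RS T) (n := nn) (π := pp) (ε := ee) (q := qq q)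
      (measurableSet_RS T) measurable_pp measurable_ee (RS_inj T) (RS_q hq) j
    exact h1.comp (measurable_skA.prodMk (measurable_b1A.prodMk measurable_b2A))

theorem measurable_RR2 {T : Set (List ℕ)} {q q' : List ℕ → ℕ} (hq : ∀ u ∈ T, q u < u.length)
    (hq' : ∀ u ∈ T, q' u < u.length) :
    Measurable fun p : Sk × (ℤ → Bt) => Rm (RS T p.1) nn (pp p.1) (ee p.1) (qq q) (qq q') p.2 := by
  refine measurable_pi_iff.2 fun j => ?_
  have h1 := measurable_dcdB (R := RS T) (n := nn) (π := pp) (ε := ee) (q := qq q')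
      (measurableSet_RS T) measurable_pp measurable_ee (RS_inj T) (RS_q hq') j
  have h2 : Measurable fun p : Sk × (ℤ → Bt) => encB (RS T p.1) nn (pp p.1) (qq q) p.2 :=
    measurable_pi_iff.2 fun j => measurable_encB' hq j
  have h3 : Measurable fun p : Sk × (ℤ → Bt) => encE (RS T p.1) (pp p.1) (ee p.1) (qq q) p.2 :=
    measurable_pi_iff.2 fun j => measurable_encE' j
  exact h1.comp (measurable_fst.prodMk (h2.prodMk h3))

/-! ### Transfer -/

theorem Psi_transfer {T T' : Set (List ℕ)} {q : List ℕ → ℕ} (hq : ∀ u ∈ T, q u < u.length)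
    (hq' : ∀ u ∈ T', q u < u.length) {s s' : Sk} {b b' : ℤ → Bt} {j : ℤ}
    (h0 : ∀ τ, s (τ, j) = s' (τ, j))
    (hb : (∀ u a d, u ∈ T → Act s u a d → piv s u a d (q u) ≠ j) → b j = b' j)
    (h1 : ∀ u a d, u ∈ T → Act s u a d → piv s u a d (q u) = j → u ∈ T' ∧ Act s' u a d ∧
      ∀ k < u.length, piv s' u a d k = piv s u a d k ∧
        (k ≠ q u → b (piv s u a d k) = b' (piv s u a d k)))
    (h2 : ∀ u a d, u ∈ T' → Act s' u a d → piv s' u a d (q u) = j →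
      u ∈ T ∧ Act s u a d ∧ piv s u a d (q u) = j)
    (h3 : ∀ u a d, u ∈ T → Act s u a d → eps s u a d = j → u ∈ T' ∧ Act s' u a d ∧
      eps s' u a d = j ∧ piv s' u a d (q u) = piv s u a d (q u) ∧
        b (piv s u a d (q u)) = b' (piv s u a d (q u)))
    (h4 : ∀ u a d, u ∈ T' → Act s' u a d → eps s' u a d = j →
      u ∈ T ∧ Act s u a d ∧ eps s u a d = j) :
    Psi T q (s, b) j = Psi T' q (s', b') j := by
  unfold Psi
  simp only
  congr 1
  refine Prod.ext ?_ (Prod.ext ?_ ?_)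
  · funext τ; exact h0 τ
  · refine encB_transfer (RS_inj T s) (RS_inj T' s') (RS_q hq s) (RS_q hq' s') id ?_ ?_ ?_
    · rintro ⟨u, a, d⟩ ⟨g1, g2⟩ g3
      obtain ⟨g4, g5, g6⟩ := h1 u a d g1 g2 g3
      refine ⟨⟨g4, g5⟩, rfl, rfl, ((g6 _ (hq u g1)).1).trans g3, fun k hk hkq => ?_⟩
      show b (piv s u a d k) = b' (piv s' u a d k)
      rw [(g6 k hk).1]
      exact (g6 k hk).2 hkq
    · rintro ⟨u, a, d⟩ ⟨g1, g2⟩ g3
      obtain ⟨g4, g5, g6⟩ := h2 u a d g1 g2 g3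
      exact ⟨(u, a, d), ⟨g4, g5⟩, g6⟩
    · intro h
      exact hb fun u a d g1 g2 => h (u, a, d) ⟨g1, g2⟩
  · refine encE_transfer (RS_einj T s) (RS_einj T' s') id ?_ ?_
    · rintro ⟨u, a, d⟩ ⟨g1, g2⟩ g3
      obtain ⟨g4, g5, g6, g7, g8⟩ := h3 u a d g1 g2 g3
      refine ⟨⟨g4, g5⟩, g6, ?_⟩
      show b (piv s u a d (q u)) = b' (piv s' u a d (q u))
      rw [g7]; exact g8
    · rintro ⟨u, a, d⟩ ⟨g1, g2⟩ g3
      obtain ⟨g4, g5, g6⟩ := h4 u a d g1 g2 g3
      exact ⟨(u, a, d), ⟨g4, g5⟩, g6⟩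

theorem Psi_T_congr {T T' : Set (List ℕ)} {q : List ℕ → ℕ} (hq : ∀ u ∈ T, q u < u.length)
    (hq' : ∀ u ∈ T', q u < u.length) {s : Sk} {b : ℤ → Bt} {j : ℤ}
    (h : ∀ u a d, (u ∈ T ∨ u ∈ T') → Act s u a d → (piv s u a d (q u) = j ∨ eps s u a d = j) →
      (u ∈ T ↔ u ∈ T')) :
    Psi T q (s, b) j = Psi T' q (s, b) j := by
  refine Psi_transfer hq hq' (fun _ => rfl) (fun _ => rfl) ?_ ?_ ?_ ?_
  · intro u a d h1 h2 h3
    exact ⟨(h u a d (Or.inl h1) h2 (Or.inl h3)).1 h1, h2, fun k _ => ⟨rfl, fun _ => rfl⟩⟩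
  · intro u a d h1 h2 h3
    exact ⟨(h u a d (Or.inr h1) h2 (Or.inl h3)).2 h1, h2, h3⟩
  · intro u a d h1 h2 h3
    exact ⟨(h u a d (Or.inl h1) h2 (Or.inr h3)).1 h1, h2, h3, rfl, rfl⟩
  · intro u a d h1 h2 h3
    exact ⟨(h u a d (Or.inr h1) h2 (Or.inr h3)).2 h1, h2, h3⟩

theorem Phi_transfer {T T' : Set (List ℕ)} {q : List ℕ → ℕ} (hq : ∀ u ∈ T, q u < u.length)
    (hq' : ∀ u ∈ T', q u < u.length) {x x' : ℤ → Fin 32} {j : ℤ} (h0 : x j = x' j)
    (h1 : ∀ u a d, u ∈ T → Act (skA x) u a d → piv (skA x) u a d (q u) = j → u ∈ T' ∧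
      Act (skA x') u a d ∧ piv (skA x') u a d (q u) = j ∧
        x (eps (skA x) u a d) = x' (eps (skA x') u a d))
    (h2 : ∀ u a d, u ∈ T' → Act (skA x') u a d → piv (skA x') u a d (q u) = j →
      u ∈ T ∧ Act (skA x) u a d ∧ piv (skA x) u a d (q u) = j) :
    Phi T q x j = Phi T' q x' j := by
  unfold Phi
  congr 1
  refine Prod.ext ?_ ?_
  · funext τ
    show (eA.symm (x j)).1 τ = (eA.symm (x' j)).1 τ
    rw [h0]
  · refine dcdB_transfer (n := nn) (n' := nn) (RS_inj T (skA x)) (RS_inj T' (skA x'))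
      (RS_q hq (skA x)) (RS_q hq' (skA x')) id ?_ ?_ ?_
    · rintro ⟨u, a, d⟩ ⟨g1, g2⟩ g3
      obtain ⟨g4, g5, g6, g7⟩ := h1 u a d g1 g2 g3
      refine ⟨⟨g4, g5⟩, g6, ?_⟩
      show (eA.symm (x (eps (skA x) u a d))).2.2 = (eA.symm (x' (eps (skA x') u a d))).2.2
      rw [g7]
    · rintro ⟨u, a, d⟩ ⟨g1, g2⟩ g3
      obtain ⟨g4, g5, g6⟩ := h2 u a d g1 g2 g3
      exact ⟨(u, a, d), ⟨g4, g5⟩, g6⟩
    · show (eA.symm (x j)).2.1 = (eA.symm (x' j)).2.1
      rw [h0]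

/-! ### Translation -/

theorem Psi_tr {T : Set (List ℕ)} {q : List ℕ → ℕ} (hq : ∀ u ∈ T, q u < u.length) (n : ℤ)
    (s : Sk) (b : ℤ → Bt) : Psi T q (tr n s, shn n b) = shn n (Psi T q (s, b)) := by
  funext j
  show Psi T q (tr n s, shn n b) j = Psi T q (s, b) (j + n)
  unfold Psi
  simp only
  congr 1
  have hp : ∀ (u : List ℕ) (a : ℤ) (d k : ℕ), piv (tr n s) u a d k + n = piv s u (a + n) d k :=
    fun u a d k => piv_tr
  have he : ∀ (u : List ℕ) (a : ℤ) (d : ℕ), eps (tr n s) u a d + n = eps s u (a + n) d :=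
    fun u a d => eps_tr
  refine Prod.ext ?_ (Prod.ext ?_ ?_)
  · rfl
  · refine encB_transfer (RS_inj T (tr n s)) (RS_inj T s) (RS_q hq _) (RS_q hq _)
      (fun ρ => (ρ.1, ρ.2.1 + n, ρ.2.2)) ?_ ?_ ?_
    · rintro ⟨u, a, d⟩ ⟨g1, g2⟩ g3
      have g3 : piv (tr n s) u a d (q u) = j := g3
      refine ⟨⟨g1, Act_tr.1 g2⟩, rfl, rfl, ?_, fun k hk hkq => ?_⟩
      · show piv s u (a + n) d (q u) = j + n
        rw [← hp, g3]
      · show shn n b (piv (tr n s) u a d k) = b (piv s u (a + n) d k)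
        rw [← hp]; rfl
    · rintro ⟨u, a, d⟩ ⟨g1, g2⟩ g3
      have g3 : piv s u a d (q u) = j + n := g3
      have e1 : a = (a - n) + n := by ring
      refine ⟨(u, a - n, d), ⟨g1, ?_⟩, ?_⟩
      · show Act (tr n s) u (a - n) d
        rw [Act_tr, ← e1]; exact g2
      · show piv (tr n s) u (a - n) d (q u) = j
        have := hp u (a - n) d (q u)
        rw [← e1, g3] at this
        omega
    · intro _; rfl
  · refine encE_transfer (RS_einj T (tr n s)) (RS_einj T s)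
      (fun ρ => (ρ.1, ρ.2.1 + n, ρ.2.2)) ?_ ?_
    · rintro ⟨u, a, d⟩ ⟨g1, g2⟩ g3
      have g3 : eps (tr n s) u a d = j := g3
      refine ⟨⟨g1, Act_tr.1 g2⟩, ?_, ?_⟩
      · show eps s u (a + n) d = j + n
        rw [← he, g3]
      · show shn n b (piv (tr n s) u a d (q u)) = b (piv s u (a + n) d (q u))
        rw [← hp]; rfl
    · rintro ⟨u, a, d⟩ ⟨g1, g2⟩ g3
      have g3 : eps s u a d = j + n := g3
      have e1 : a = (a - n) + n := by ring
      refine ⟨(u, a - n, d), ⟨g1, ?_⟩, ?_⟩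
      · show Act (tr n s) u (a - n) d
        rw [Act_tr, ← e1]; exact g2
      · show eps (tr n s) u (a - n) d = j
        have := he u (a - n) d
        rw [← e1, g3] at this
        omega

theorem Phi_shn {T : Set (List ℕ)} {q : List ℕ → ℕ} (hq : ∀ u ∈ T, q u < u.length) (n : ℤ)
    (x : ℤ → Fin 32) : Phi T q (shn n x) = shn n (Phi T q x) := by
  funext j
  show Phi T q (shn n x) j = Phi T q x (j + n)
  have hs : skA (shn n x) = tr n (skA x) := rfl
  have hp : ∀ (u : List ℕ) (a : ℤ) (d k : ℕ),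
      piv (tr n (skA x)) u a d k + n = piv (skA x) u (a + n) d k := fun u a d k => piv_tr
  have he : ∀ (u : List ℕ) (a : ℤ) (d : ℕ),
      eps (tr n (skA x)) u a d + n = eps (skA x) u (a + n) d := fun u a d => eps_tr
  unfold Phi
  rw [hs]
  congr 1
  refine Prod.ext ?_ ?_
  · rfl
  · refine dcdB_transfer (n := nn) (n' := nn) (RS_inj T _) (RS_inj T _)
      (RS_q hq _) (RS_q hq _) (fun ρ => (ρ.1, ρ.2.1 + n, ρ.2.2)) ?_ ?_ rfl
    · rintro ⟨u, a, d⟩ ⟨g1, g2⟩ g3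
      have g3 : piv (tr n (skA x)) u a d (q u) = j := g3
      refine ⟨⟨g1, Act_tr.1 g2⟩, ?_, ?_⟩
      · show piv (skA x) u (a + n) d (q u) = j + n
        rw [← hp, g3]
      · show (eA.symm (x (eps (tr n (skA x)) u a d + n))).2.2 =
          (eA.symm (x (eps (skA x) u (a + n) d))).2.2
        rw [he]
    · rintro ⟨u, a, d⟩ ⟨g1, g2⟩ g3
      have g3 : piv (skA x) u a d (q u) = j + n := g3
      have e1 : a = (a - n) + n := by ring
      refine ⟨(u, a - n, d), ⟨g1, ?_⟩, ?_⟩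
      · show Act (tr n (skA x)) u (a - n) d
        rw [Act_tr, ← e1]; exact g2
      · show piv (tr n (skA x)) u (a - n) d (q u) = j
        have := hp u (a - n) d (q u)
        rw [← e1, g3] at this
        omega

/-! ### Locality -/

theorem Cov_bound {u : List ℕ} {a j : ℤ} (h : Cov u a j) :
    a - Sg (Encodable.encode u) ≤ j ∧ j < a + Sg (Encodable.encode u) := by
  have := Len_le u
  obtain ⟨h1, h2⟩ := h
  constructor <;> omega

theorem Psi_local {E : ℕ} {T : Set (List ℕ)} (hT : ∀ u ∈ T, Encodable.encode u ≤ E)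
    {q : List ℕ → ℕ} (hq : ∀ u ∈ T, q u < u.length) {s s' : Sk} {b b' : ℤ → Bt} {j : ℤ}
    (hs : ∀ (τ : Fin 3) (x : ℤ), |x - j| ≤ 3 * Sg E → s (τ, x) = s' (τ, x))
    (hb : ∀ x : ℤ, |x - j| ≤ 3 * Sg E → b x = b' x) :
    Psi T q (s, b) j = Psi T q (s', b') j := by
  -- one direction of the structure transfer
  have key : ∀ s s' : Sk, (∀ (τ : Fin 3) (x : ℤ), |x - j| ≤ 3 * Sg E → s (τ, x) = s' (τ, x)) →
      ∀ u a d, u ∈ T → Act s u a d → Cov u a j → Act s' u a d ∧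
        (∀ k < u.length, piv s' u a d k = piv s u a d k) ∧ eps s' u a d = eps s u a d := by
    intro s s' hs u a d hu hact hcov
    have h1 := Cov_bound hcov
    have h2 := Sg_mono (hT u hu)
    have hL := Len_le u
    refine ⟨Act_local (fun τ x h3 h4 => hs τ x ?_) hact, fun k hk => ?_, ?_⟩
    · rw [abs_le]; constructor <;> omega
    · refine piv_congr hact.2.1 hk fun τ x h3 h4 => (hs τ x ?_).symm
      rw [abs_le]; constructor <;> omega
    · refine eps_congr hact.2.1 fun τ x h3 h4 => (hs τ x ?_).symm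
      rw [abs_le]; constructor <;> omega
  have hS0 : (0 : ℤ) ≤ 3 * Sg E := by positivity
  have hbp : ∀ u a d k, u ∈ T → Act s u a d → Cov u a j → k < u.length →
      b (piv s u a d k) = b' (piv s u a d k) := by
    intro u a d k hu hact hcov hk
    have h1 := Cov_bound hcov
    have h3 := Cov_bound (Cov_piv hact.2 hk)
    have h2 := Sg_mono (hT u hu)
    refine hb _ ?_
    rw [abs_le]; constructor <;> omega
  refine Psi_transfer hq hq (fun τ => hs τ j ?_) (fun _ => hb j ?_) ?_ ?_ ?_ ?_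
  · rw [sub_self, abs_zero]; exact hS0
  · rw [sub_self, abs_zero]; exact hS0
  · intro u a d h1 h2 h3
    have hcov : Cov u a j := by rw [← h3]; exact Cov_piv h2.2 (hq u h1)
    obtain ⟨g1, g2, g3⟩ := key s s' hs u a d h1 h2 hcov
    exact ⟨h1, g1, fun k hk => ⟨g2 k hk, fun _ => hbp u a d k h1 h2 hcov hk⟩⟩
  · intro u a d h1 h2 h3
    have hcov : Cov u a j := by rw [← h3]; exact Cov_piv h2.2 (hq u h1)
    obtain ⟨g1, g2, g3⟩ := key s' s (fun τ x hx => (hs τ x hx).symm) u a d h1 h2 hcov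
    exact ⟨h1, g1, (g2 _ (hq u h1)).trans h3⟩
  · intro u a d h1 h2 h3
    have hcov : Cov u a j := by rw [← h3]; exact Cov_eps h2.1 h2.2.1
    obtain ⟨g1, g2, g3⟩ := key s s' hs u a d h1 h2 hcov
    exact ⟨h1, g1, g3.trans h3, g2 _ (hq u h1), hbp u a d _ h1 h2 hcov (hq u h1)⟩
  · intro u a d h1 h2 h3
    have hcov : Cov u a j := by rw [← h3]; exact Cov_eps h2.1 h2.2.1
    obtain ⟨g1, g2, g3⟩ := key s' s (fun τ x hx => (hs τ x hx).symm) u a d h1 h2 hcov
    exact ⟨h1, g1, g3.trans h3⟩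

theorem Phi_local {E : ℕ} {T : Set (List ℕ)} (hT : ∀ u ∈ T, Encodable.encode u ≤ E)
    {q : List ℕ → ℕ} (hq : ∀ u ∈ T, q u < u.length) {x x' : ℤ → Fin 32} {j : ℤ}
    (hx : ∀ i : ℤ, |i - j| ≤ 3 * Sg E → x i = x' i) :
    Phi T q x j = Phi T q x' j := by
  have key : ∀ s s' : Sk, (∀ (τ : Fin 3) (x : ℤ), |x - j| ≤ 3 * Sg E → s (τ, x) = s' (τ, x)) →
      ∀ u a d, u ∈ T → Act s u a d → Cov u a j → Act s' u a d ∧
        (∀ k < u.length, piv s' u a d k = piv s u a d k) ∧ eps s' u a d = eps s u a d := by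
    intro s s' hs u a d hu hact hcov
    have h1 := Cov_bound hcov
    have h2 := Sg_mono (hT u hu)
    have hL := Len_le u
    refine ⟨Act_local (fun τ x h3 h4 => hs τ x ?_) hact, fun k hk => ?_, ?_⟩
    · rw [abs_le]; constructor <;> omega
    · refine piv_congr hact.2.1 hk fun τ x h3 h4 => (hs τ x ?_).symm
      rw [abs_le]; constructor <;> omega
    · refine eps_congr hact.2.1 fun τ x h3 h4 => (hs τ x ?_).symm
      rw [abs_le]; constructor <;> omega
  have hs : ∀ (τ : Fin 3) (i : ℤ), |i - j| ≤ 3 * Sg E → skA x (τ, i) = skA x' (τ, i) := by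
    intro τ i hi
    show (eA.symm (x i)).1 τ = (eA.symm (x' i)).1 τ
    rw [hx i hi]
  have hS0 : (0 : ℤ) ≤ 3 * Sg E := by positivity
  refine Phi_transfer hq hq (hx j (by rw [sub_self, abs_zero]; exact hS0)) ?_ ?_
  · intro u a d h1 h2 h3
    have hcov : Cov u a j := by rw [← h3]; exact Cov_piv h2.2 (hq u h1)
    obtain ⟨g1, g2, g3⟩ := key _ _ hs u a d h1 h2 hcov
    refine ⟨h1, g1, (g2 _ (hq u h1)).trans h3, ?_⟩
    rw [g3]
    refine hx _ ?_
    have h5 := Cov_bound hcov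
    have h6 := Cov_bound (Cov_eps h2.1 h2.2.1)
    have h7 := Sg_mono (hT u h1)
    rw [abs_le]; constructor <;> omega
  · intro u a d h1 h2 h3
    have hcov : Cov u a j := by rw [← h3]; exact Cov_piv h2.2 (hq u h1)
    obtain ⟨g1, g2, g3⟩ := key _ _ (fun τ i hi => (hs τ i hi).symm) u a d h1 h2 hcov
    exact ⟨h1, g1, (g2 _ (hq u h1)).trans h3⟩

theorem Phi_T_congr {T T' : Set (List ℕ)} {q : List ℕ → ℕ} (hq : ∀ u ∈ T, q u < u.length)
    (hq' : ∀ u ∈ T', q u < u.length) {x : ℤ → Fin 32} {j : ℤ}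
    (h : ∀ u a d, (u ∈ T ∨ u ∈ T') → Act (skA x) u a d → piv (skA x) u a d (q u) = j →
      (u ∈ T ↔ u ∈ T')) :
    Phi T q x j = Phi T' q x j := by
  refine Phi_transfer hq hq' rfl ?_ ?_
  · intro u a d h1 h2 h3
    exact ⟨(h u a d (Or.inl h1) h2 h3).1 h1, h2, h3, rfl⟩
  · intro u a d h1 h2 h3
    exact ⟨(h u a d (Or.inr h1) h2 h3).2 h1, h2, h3⟩

end Pool.Agent.TH288.FI
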