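import Pool.Agent.TH288.FI.Maps

/-!
# The measures: invariance, independence of the pivots, covering estimates, continuity
-/

set_option autoImplicit false

open MeasureTheory Set Filter
open scoped ENNReal Topology

namespace Pool.Agent.TH288.FI

open Pool.Agent.TH288.NB (shn measurable_shn P P_cyl cyl unif unif_singleton Obs isClopen_Obs
  measure_eq_of_windows exists_Icc_superset measurableSet_cyl P_shn)

/-- the basic probability space: skeleton and bits -/
noncomputable def PP : Measure (Sk × (ℤ → Bt)) := (Q (Fin 3 × ℤ)).prod (P Bt)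

instance : IsProbabilityMeasure PP := by unfold PP; infer_instance

theorem measurable_tr (a : ℤ) : Measurable (tr a) := by
  unfold tr
  fun_prop

theorem Q_tr (a : ℤ) : (Q (Fin 3 × ℤ)).map (tr a) = Q (Fin 3 × ℤ) := by
  let e : (Fin 3 × ℤ) ≃ (Fin 3 × ℤ) :=
    { toFun := fun p => (p.1, p.2 - a)
      invFun := fun p => (p.1, p.2 + a)
      left_inv := fun p => by simp
      right_inv := fun p => by simp }
  have h := Measure.infinitePi_map_piCongrLeft (μ := fun _ : Fin 3 × ℤ => unif Bt) e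
  have h2 : (tr a : Sk → Sk) = MeasurableEquiv.piCongrLeft (fun _ : Fin 3 × ℤ => Bt) e := by
    funext s p
    have h3 := MeasurableEquiv.piCongrLeft_apply_apply (β := fun _ : Fin 3 × ℤ => Bt) e s (e.symm p)
    rw [Equiv.apply_symm_apply] at h3
    rw [h3]
    rfl
  rw [h2]
  exact h

theorem PP_tr (a : ℤ) : PP.map (fun p => (tr a p.1, shn a p.2)) = PP := by
  have h1 : MeasurePreserving (tr a) (Q (Fin 3 × ℤ)) (Q (Fin 3 × ℤ)) := ⟨measurable_tr a, Q_tr a⟩
  have h2 : MeasurePreserving (shn a : (ℤ → Bt) → ℤ → Bt) (P Bt) (P Bt) :=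
    ⟨measurable_shn a, P_shn a⟩
  exact (h1.prod h2).map_eq

/-- the change of pivots preserves the measure -/
theorem PP_RR {T : Set (List ℕ)} {q q' : List ℕ → ℕ} (hq : ∀ u ∈ T, q u < u.length)
    (hq' : ∀ u ∈ T, q' u < u.length) : MeasurePreserving (RR T q q') PP PP := by
  have h1 : MeasurePreserving (id : Sk → Sk) (Q (Fin 3 × ℤ)) (Q (Fin 3 × ℤ)) :=
    MeasurePreserving.id _
  refine MeasurePreserving.skew_product (f := id)
    (g := fun s b => Rm (RS T s) nn (pp s) (ee s) (qq q) (qq q') b) h1 ?_ ?_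
  · exact measurable_RR2 hq hq'
  · refine Eventually.of_forall fun s => ?_
    exact map_Rm (RS T s) nn (pp s) (ee s) (RS_inj T s) (RS_einj T s) (RS_q hq s) (RS_q hq' s)

/-- the law does not depend on the pivots -/
theorem law_Psi {T : Set (List ℕ)} {q q' : List ℕ → ℕ} (hq : ∀ u ∈ T, q u < u.length)
    (hq' : ∀ u ∈ T, q' u < u.length) : PP.map (Psi T q) = PP.map (Psi T q') := by
  have h1 : Psi T q = Psi T q' ∘ RR T q q' := funext fun p => (Psi_RR hq hq' p).symm
  rw [h1, ← Measure.map_map (measurable_Psi hq') (PP_RR hq hq').measurable, (PP_RR hq hq').map_eq]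

theorem map_Psi_shn {T : Set (List ℕ)} {q : List ℕ → ℕ} (hq : ∀ u ∈ T, q u < u.length) (n : ℤ) :
    (PP.map (Psi T q)).map (shn n) = PP.map (Psi T q) := by
  rw [Measure.map_map (measurable_shn n) (measurable_Psi hq)]
  have h1 : shn n ∘ Psi T q = Psi T q ∘ fun p => (tr n p.1, shn n p.2) :=
    funext fun p => (Psi_tr hq n p.1 p.2).symm
  have h2 : Measurable fun p : Sk × (ℤ → Bt) => (tr n p.1, shn n p.2) :=
    ((measurable_tr n).comp measurable_fst).prodMk ((measurable_shn n).comp measurable_snd)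
  rw [h1, ← Measure.map_map (measurable_Psi hq) h2, PP_tr]

theorem map_Yy : PP.map Yy = P (Fin 16) := by
  have : IsProbabilityMeasure (PP.map Yy) :=
    Measure.isProbabilityMeasure_map measurable_Yy.aemeasurable
  refine measure_eq_of_windows _ _ _ exists_Icc_superset fun m w => ?_
  set L := Finset.Icc (-(m : ℤ)) m
  rw [Measure.map_apply measurable_Yy (measurableSet_cyl _ _), P_cyl]
  have h1 : Yy ⁻¹' cyl L w = cy (Finset.univ ×ˢ L) (Yi w).1 ×ˢ cyl L (Yi w).2 := by
    ext p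
    have e1 : ∀ i, Yy p i = w i ↔ (∀ τ, p.1 (τ, i) = (Yi w).1 (τ, i)) ∧ p.2 i = (Yi w).2 i := by
      intro i
      have : Yy p i = w i ↔ ((fun τ => p.1 (τ, i), p.2 i) : (Fin 3 → Bt) × Bt) = eB.symm (w i) := by
        rw [Equiv.eq_symm_apply]; rfl
      rw [this, Prod.ext_iff, funext_iff]
      rfl
    constructor
    · intro hp
      refine ⟨fun q hq => ?_, fun i hi => ((e1 i).1 (hp i hi)).2⟩
      obtain ⟨τ, i⟩ := q
      rw [Finset.mem_product] at hq
      exact ((e1 i).1 (hp i hq.2)).1 τ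
    · rintro ⟨h1, h2⟩ i hi
      refine (e1 i).2 ⟨fun τ => h1 (τ, i) ?_, h2 i hi⟩
      rw [Finset.mem_product]
      exact ⟨Finset.mem_univ _, hi⟩
  rw [h1, PP, Measure.prod_prod, Q_cy, P_cyl, Finset.card_product, Finset.card_univ,
    Fintype.card_fin, Fintype.card_fin, Fintype.card_fin, pow_mul, ← mul_pow]
  congr 1
  have e2 : ((2 : ℕ) : ℝ≥0∞) = 2 := rfl
  rw [e2, ← pow_succ, ← ENNReal.inv_pow]
  norm_num

/-! ### Covering estimates -/

/-- run of a header -/
noncomputable def Rn (u : List ℕ) (a : ℤ) : Finset (Fin 3 × ℤ) :=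
  {0} ×ˢ Finset.Ico (a - mm u - 1) (a - 1)

theorem card_Rn (u : List ℕ) (a : ℤ) : (Rn u a).card = mm u := by
  unfold Rn
  rw [Finset.card_product, Finset.card_singleton, Int.card_Ico]
  omega

theorem Hd_subset (u : List ℕ) (a : ℤ) : {s : Sk | Hd s u a} ⊆ cy (Rn u a) (fun _ => 1) := by
  intro s hs
  rintro ⟨τ, x⟩ hp
  unfold Rn at hp
  rw [Finset.mem_product, Finset.mem_singleton, Finset.mem_Ico] at hp
  obtain ⟨rfl, h1, h2⟩ := hp
  exact hs.1 x (by omega) h2

theorem Q_Hd (u : List ℕ) (a : ℤ) : Q (Fin 3 × ℤ) {s : Sk | Hd s u a} ≤ (2⁻¹) ^ (mm u) := by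
  refine (measure_mono (Hd_subset u a)).trans ?_
  rw [Q_cy, card_Rn]

theorem Sg_mul (u : List ℕ) : ((Sg (Encodable.encode u) : ℕ) : ℝ≥0∞) * (2⁻¹) ^ (mm u) =
    (2⁻¹) ^ (5 * Encodable.encode u + 51) := by
  unfold Sg mm
  have h : 12 * Encodable.encode u + 100 =
    (7 * Encodable.encode u + 49) + (5 * Encodable.encode u + 51) := by ring
  rw [h, pow_add (2⁻¹ : ℝ≥0∞) (7 * Encodable.encode u + 49), ← mul_assoc]
  push_cast
  rw [← mul_pow, ENNReal.mul_inv_cancel (by simp) (by simp), one_pow, one_mul]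

theorem sum_encode_le : ∑' u : List ℕ, ((2 : ℝ≥0∞)⁻¹) ^ (Encodable.encode u + 1) ≤ 1 := by
  refine (ENNReal.tsum_comp_le_tsum_of_injective (Encodable.encode_injective (α := List ℕ))
    (fun e => ((2 : ℝ≥0∞)⁻¹) ^ (e + 1))).trans ?_
  rw [ENNReal.tsum_geometric_add_one, ENNReal.one_sub_inv_two, inv_inv,
    ENNReal.inv_mul_cancel (by simp) (by simp)]

theorem cover_le (O : Set Sk) (Ex : List ℕ → ℤ → Prop)
    (hO : ∀ u a, ¬ Ex u a → Q (Fin 3 × ℤ) (O ∩ {s | Hd s u a}) ≤ Q (Fin 3 × ℤ) O * (2⁻¹) ^ (mm u))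
    (e0 : ℕ) (j : ℤ) :
    Q (Fin 3 × ℤ) (O ∩ {s | ∃ u a, ¬ Ex u a ∧ e0 ≤ Encodable.encode u ∧ Hd s u a ∧ Cov u a j}) ≤
      Q (Fin 3 × ℤ) O * (2⁻¹) ^ (4 * e0 + 50) := by
  classical
  let I : List ℕ → Finset ℤ := fun u => Finset.Ioc (j - Len u) (j + mm u + 2)
  have hI : ∀ u, (I u).card ≤ Sg (Encodable.encode u) := by
    intro u
    have := Len_le u
    simp only [I, Int.card_Ioc]
    omega
  have hsub : O ∩ {s | ∃ u a, ¬ Ex u a ∧ e0 ≤ Encodable.encode u ∧ Hd s u a ∧ Cov u a j} ⊆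
      ⋃ u : List ℕ, ⋃ a ∈ I u, {s | ¬ Ex u a ∧ e0 ≤ Encodable.encode u ∧ s ∈ O ∩ {s | Hd s u a}} := by
    rintro s ⟨h1, u, a, h2, h3, h4, h5⟩
    refine mem_iUnion.2 ⟨u, mem_iUnion₂.2 ⟨a, ?_, h2, h3, h1, h4⟩⟩
    simp only [I, Finset.mem_Ioc]
    obtain ⟨h6, h7⟩ := h5
    constructor <;> omega
  refine (measure_mono hsub).trans ((measure_iUnion_le _).trans ?_)
  have hterm : ∀ u : List ℕ, Q (Fin 3 × ℤ)
      (⋃ a ∈ I u, {s | ¬ Ex u a ∧ e0 ≤ Encodable.encode u ∧ s ∈ O ∩ {s | Hd s u a}}) ≤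
      Q (Fin 3 × ℤ) O * (2⁻¹) ^ (4 * e0 + 50) * (2⁻¹) ^ (Encodable.encode u + 1) := by
    intro u
    by_cases he : e0 ≤ Encodable.encode u
    · have h1 : ∀ a ∈ I u, Q (Fin 3 × ℤ)
          {s | ¬ Ex u a ∧ e0 ≤ Encodable.encode u ∧ s ∈ O ∩ {s | Hd s u a}} ≤
          Q (Fin 3 × ℤ) O * (2⁻¹) ^ (mm u) := by
        intro a _
        by_cases hEx : Ex u a
        · have : {s : Sk | ¬ Ex u a ∧ e0 ≤ Encodable.encode u ∧ s ∈ O ∩ {s | Hd s u a}} = ∅ := by
            rw [eq_empty_iff_forall_notMem]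
            rintro s ⟨h1, -⟩
            exact h1 hEx
          rw [this, measure_empty]
          exact zero_le
        · exact (measure_mono fun s hs => hs.2.2).trans (hO u a hEx)
      refine (measure_biUnion_finset_le _ _).trans ((Finset.sum_le_sum h1).trans ?_)
      rw [Finset.sum_const, nsmul_eq_mul]
      calc ((I u).card : ℝ≥0∞) * (Q (Fin 3 × ℤ) O * (2⁻¹) ^ (mm u))
          ≤ (Sg (Encodable.encode u) : ℝ≥0∞) * (Q (Fin 3 × ℤ) O * (2⁻¹) ^ (mm u)) := by
            gcongr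
            exact_mod_cast hI u
        _ = Q (Fin 3 × ℤ) O * ((Sg (Encodable.encode u) : ℝ≥0∞) * (2⁻¹) ^ (mm u)) := by ring
        _ = Q (Fin 3 × ℤ) O * (2⁻¹) ^ (5 * Encodable.encode u + 51) := by rw [Sg_mul]
        _ ≤ Q (Fin 3 × ℤ) O * (2⁻¹) ^ (4 * e0 + 50 + (Encodable.encode u + 1)) := by
            exact mul_le_mul' le_rfl (pow_le_pow_right_of_le_one'
              (show (2⁻¹ : ℝ≥0∞) ≤ 1 by norm_num) (by omega))
        _ = _ := by rw [pow_add, ← mul_assoc]
    · have : (⋃ a ∈ I u, {s : Sk | ¬ Ex u a ∧ e0 ≤ Encodable.encode u ∧ s ∈ O ∩ {s | Hd s u a}}) =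
          ∅ := by
        rw [eq_empty_iff_forall_notMem]
        intro s hs
        obtain ⟨a, -, -, h1, -⟩ := mem_iUnion₂.1 hs
        exact he h1
      rw [this, measure_empty]
      exact zero_le
  refine (ENNReal.tsum_le_tsum hterm).trans ?_
  rw [ENNReal.tsum_mul_left]
  exact mul_le_of_le_one_right' sum_encode_le

theorem cover_univ (e0 : ℕ) (j : ℤ) :
    Q (Fin 3 × ℤ) {s | ∃ u a, e0 ≤ Encodable.encode u ∧ Hd s u a ∧ Cov u a j} ≤
      (2⁻¹) ^ (4 * e0 + 50) := by
  have h := cover_le univ (fun _ _ => False) (fun u a _ => by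
    rw [univ_inter, measure_univ, one_mul]; exact Q_Hd u a) e0 j
  rw [univ_inter, measure_univ, one_mul] at h
  refine (measure_mono ?_).trans h
  rintro s ⟨u, a, h1, h2, h3⟩
  exact ⟨u, a, id, h1, h2, h3⟩

/-- almost surely every position is covered only by frames of bounded index -/
theorem ae_bounded : ∀ᵐ s ∂(Q (Fin 3 × ℤ)), ∀ j : ℤ, ∃ E : ℕ, ∀ u a, Hd s u a → Cov u a j →
    Encodable.encode u < E := by
  rw [ae_all_iff]
  intro j
  rw [ae_iff]
  refine le_antisymm ?_ zero_le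
  have h1 : ∀ E : ℕ, Q (Fin 3 × ℤ) {s | ¬ ∃ E : ℕ, ∀ u a, Hd s u a → Cov u a j →
      Encodable.encode u < E} ≤ (2⁻¹) ^ E := by
    intro E
    refine (measure_mono ?_).trans ((cover_univ E j).trans
      (pow_le_pow_right_of_le_one' (by norm_num) (by omega)))
    intro s hs
    have hs : ¬ ∃ E : ℕ, ∀ u a, Hd s u a → Cov u a j → Encodable.encode u < E := hs
    push Not at hs
    obtain ⟨u, a, h1, h2, h3⟩ := hs E
    exact ⟨u, a, h3, h1, h2⟩
  exact ge_of_tendsto' (ENNReal.tendsto_pow_atTop_nhds_zero_of_lt_one (by norm_num)) h1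

/-! ### The measure attached to a tree -/

/-- the obstructions of a tree -/
def TT (t : List ℕ → Bool) : Set (List ℕ) := {u | Obs t u}

theorem TT_pos {t : List ℕ → Bool} {u : List ℕ} (h : u ∈ TT t) : 0 < u.length :=
  List.length_pos_iff.2 h.1

/-- the measure -/
noncomputable def mu (t : List ℕ → Bool) : Measure (ℤ → Fin 32) :=
  PP.map (Psi (TT t) fun _ => 0)

instance mu_prob (t : List ℕ → Bool) : IsProbabilityMeasure (mu t) :=
  Measure.isProbabilityMeasure_map (measurable_Psi fun _ => TT_pos).aemeasurable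

theorem mu_eq {t : List ℕ → Bool} {q : List ℕ → ℕ} (hq : ∀ u ∈ TT t, q u < u.length) :
    mu t = PP.map (Psi (TT t) q) := law_Psi (fun _ => TT_pos) hq

theorem mu_shn (t : List ℕ → Bool) (n : ℤ) : (mu t).map (shn n) = mu t :=
  map_Psi_shn (fun _ => TT_pos) n

/-- the measure as a point of the space of probability measures -/
noncomputable def muP (t : List ℕ → Bool) : ProbabilityMeasure (ℤ → Fin 32) := ⟨mu t, mu_prob t⟩

theorem continuous_Psi {s : Sk} (hs : ∀ j : ℤ, ∃ E : ℕ, ∀ u a, Hd s u a → Cov u a j →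
    Encodable.encode u < E) (b : ℤ → Bt) : Continuous fun t => Psi (TT t) (fun _ => 0) (s, b) := by
  refine continuous_pi fun j => ?_
  refine continuous_iff_continuousAt.2 fun t => ?_
  obtain ⟨E, hE⟩ := hs j
  have h1 : ∀ᶠ t' in 𝓝 t, ∀ u ∈ {u : List ℕ | Encodable.encode u < E}, (Obs t' u ↔ Obs t u) := by
    rw [Filter.eventually_all_finite]
    · intro u _
      by_cases hu : Obs t u
      · have := (isClopen_Obs u).isOpen.mem_nhds hu
        filter_upwards [this] with t' ht'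
        exact iff_of_true ht' hu
      · have := (isClopen_Obs u).compl.isOpen.mem_nhds hu
        filter_upwards [this] with t' ht'
        exact iff_of_false ht' hu
    · exact Set.Finite.preimage Encodable.encode_injective.injOn (Set.finite_Iio E)
  refine tendsto_const_nhds.congr' ?_
  filter_upwards [h1] with t' ht'
  refine Psi_T_congr (fun _ => TT_pos) (fun _ => TT_pos) fun u a d hu hact hj => ?_
  have hu : 0 < u.length := by
    rcases hu with hu | hu
    · exact TT_pos hu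
    · exact TT_pos hu
  have hcov : Cov u a j := by
    rcases hj with hj | hj
    · rw [← hj]; exact Cov_piv hact.2 hu
    · rw [← hj]; exact Cov_eps hact.1 hact.2.1
  exact (ht' u (hE u a hact.1.1 hcov)).symm

theorem continuous_muP : Continuous muP := by
  rw [ProbabilityMeasure.continuous_iff_forall_continuous_integral]
  intro f
  have h1 : ∀ t, ∫ x, f x ∂(muP t : Measure (ℤ → Fin 32)) =
      ∫ p, f (Psi (TT t) (fun _ => 0) p) ∂PP := by
    intro t
    show ∫ x, f x ∂(mu t) = _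
    unfold mu
    rw [integral_map (measurable_Psi fun _ => TT_pos).aemeasurable]
    exact f.continuous.aestronglyMeasurable
  simp only [h1]
  refine continuous_of_dominated (bound := fun _ => ‖f‖) ?_ ?_ (integrable_const _) ?_
  · intro t
    exact (f.continuous.measurable.comp (measurable_Psi fun _ => TT_pos)).aestronglyMeasurable
  · intro t
    exact Eventually.of_forall fun p => f.norm_coe_le_norm _
  · have h2 : ∀ᵐ p ∂PP, ∀ j : ℤ, ∃ E : ℕ, ∀ u a, Hd p.1 u a → Cov u a j →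
        Encodable.encode u < E := by
      unfold PP
      exact Measure.quasiMeasurePreserving_fst.ae ae_bounded
    filter_upwards [h2] with p hp
    exact f.continuous.comp (continuous_Psi hp p.2)

end Pool.Agent.TH288.FI
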