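import Pool.Agent.TH288.FI.Meas

/-!
# A branch gives a finitary isomorphism
-/

set_option autoImplicit false

open MeasureTheory Set Filter
open scoped ENNReal Topology

namespace Pool.Agent.TH288.FI

open Pool.Agent.H534R3.NonBorel (br length_br br_eq_iff)
open Pool.Agent.TH288.NB (shn measurable_shn P P_cyl cyl unif unif_singleton Obs isClopen_Obs
  exists_late)

/-- good skeletons -/
def G0 (s : Sk) : Prop :=
  (∀ U : ℕ, 0 < U → ∀ j : ℤ, ∃ m : ℕ, s (1, j + m * U) = 0) ∧
  (∀ U : ℕ, 0 < U → ∀ j : ℤ, ∃ m : ℕ, s (1, j - m * U) = 0) ∧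
  ∀ j : ℤ, ∃ x : ℕ, s (2, j + x) = 0

theorem Q_all_one {ι : Type*} (g : ℕ → ι) (hg : Function.Injective g) :
    ∀ᵐ s ∂(Q ι), ∃ m, s (g m) = 0 := by
  classical
  rw [ae_iff]
  refine le_antisymm ?_ zero_le
  have h1 : ∀ N : ℕ, Q ι {s | ¬ ∃ m, s (g m) = 0} ≤ (2⁻¹) ^ N := by
    intro N
    have h2 : {s : ι → Bt | ¬ ∃ m, s (g m) = 0} ⊆ cy ((Finset.range N).image g) (fun _ => 1) := by
      intro s hs i hi
      have hs : ¬ ∃ m, s (g m) = 0 := hs
      obtain ⟨m, -, rfl⟩ := Finset.mem_image.1 hi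
      by_contra hcon
      have hcon : ¬ s (g m) = 1 := hcon
      exact hs ⟨m, by revert hcon; generalize s (g m) = v; revert v; decide⟩
    refine (measure_mono h2).trans ?_
    rw [Q_cy, Finset.card_image_of_injective _ hg, Finset.card_range]
  exact ge_of_tendsto' (ENNReal.tendsto_pow_atTop_nhds_zero_of_lt_one (by norm_num)) h1

theorem ae_G0 : ∀ᵐ s ∂(Q (Fin 3 × ℤ)), G0 s := by
  have h1 : ∀ᵐ s ∂(Q (Fin 3 × ℤ)), ∀ U : ℕ, 0 < U → ∀ j : ℤ, ∃ m : ℕ, s (1, j + m * U) = 0 := by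
    rw [ae_all_iff]; intro U
    by_cases hU : 0 < U
    · have : ∀ᵐ s ∂(Q (Fin 3 × ℤ)), ∀ j : ℤ, ∃ m : ℕ, s (1, j + m * U) = 0 := by
        rw [ae_all_iff]; intro j
        refine Q_all_one (fun m : ℕ => ((1 : Fin 3), j + m * (U : ℤ))) ?_
        intro m m' h
        have h2 : j + m * (U : ℤ) = j + m' * (U : ℤ) := (Prod.ext_iff.1 h).2
        have h3 : (m : ℤ) * U = m' * U := by linarith
        have h4 := mul_right_cancel₀ (by positivity) h3
        exact_mod_cast h4
      filter_upwards [this] with s hs _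
      exact hs
    · exact Eventually.of_forall fun s h => absurd h hU
  have h2 : ∀ᵐ s ∂(Q (Fin 3 × ℤ)), ∀ U : ℕ, 0 < U → ∀ j : ℤ, ∃ m : ℕ, s (1, j - m * U) = 0 := by
    rw [ae_all_iff]; intro U
    by_cases hU : 0 < U
    · have : ∀ᵐ s ∂(Q (Fin 3 × ℤ)), ∀ j : ℤ, ∃ m : ℕ, s (1, j - m * U) = 0 := by
        rw [ae_all_iff]; intro j
        refine Q_all_one (fun m : ℕ => ((1 : Fin 3), j - m * (U : ℤ))) ?_
        intro m m' h
        have h2 : j - m * (U : ℤ) = j - m' * (U : ℤ) := (Prod.ext_iff.1 h).2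
        have h3 : (m : ℤ) * U = m' * U := by linarith
        have h4 := mul_right_cancel₀ (by positivity) h3
        exact_mod_cast h4
      filter_upwards [this] with s hs _
      exact hs
    · exact Eventually.of_forall fun s h => absurd h hU
  have h3 : ∀ᵐ s ∂(Q (Fin 3 × ℤ)), ∀ j : ℤ, ∃ x : ℕ, s (2, j + x) = 0 := by
    rw [ae_all_iff]; intro j
    refine Q_all_one (fun m : ℕ => ((2 : Fin 3), j + (m : ℤ))) ?_
    intro m m' h
    have h2 : j + (m : ℤ) = j + (m' : ℤ) := (Prod.ext_iff.1 h).2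
    omega
  filter_upwards [h1, h2, h3] with s a b c
  exact ⟨a, b, c⟩

/-- every position has a class -/
theorem exists_cls {s : Sk} (hs : G0 s) (j : ℤ) : ∃ k, cls s j k := by
  classical
  have h := hs.2.2 j
  refine ⟨Nat.find h, fun x hx => ?_, Nat.find_spec h⟩
  have := Nat.find_min h hx
  revert this
  generalize s (2, j + x) = v
  revert v
  decide

theorem exists_bound {α : Type*} (S : Finset α) (p : α → ℕ → Prop) (h : ∀ a ∈ S, ∃ m, p a m) :
    ∃ M, ∀ a ∈ S, ∃ m ≤ M, p a m := by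
  classical
  choose! g hg using h
  exact ⟨S.sup g, fun a ha => ⟨g a, Finset.le_sup ha, hg a ha⟩⟩

theorem lt_DD (u : List ℕ) : Encodable.encode u < DD u := by
  unfold DD
  calc Encodable.encode u < 2 ^ Encodable.encode u := Nat.lt_two_pow_self
    _ ≤ _ := Nat.pow_le_pow_right (by norm_num) (by omega)

/-- near a good skeleton only boundedly many relations can touch a given position -/
theorem exists_index_bound {T : Set (List ℕ)} {q : List ℕ → ℕ} {f : ℕ → ℕ}
    (hq : ∀ u ∈ T, q u < u.length ∧ u.getD (q u) 0 < f (q u)) {s : Sk} (hs : G0 s) (j : ℤ) :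
    ∃ W B : ℕ, ∀ s' : Sk, (∀ (τ : Fin 3) (x : ℤ), |x - j| ≤ W → s (τ, x) = s' (τ, x)) →
      ∀ u a d, u ∈ T → Act s' u a d → (piv s' u a d (q u) = j ∨ eps s' u a d = j) →
        Encodable.encode u ≤ B := by
  obtain ⟨κ, hκ⟩ := exists_cls hs j
  obtain ⟨M1, hM1⟩ := exists_bound ((Finset.range (f κ + 1)) ×ˢ Finset.Icc j (j + f κ))
    (fun p m => 0 < p.1 → s (1, p.2 + m * (p.1 : ℤ)) = 0) (by
      rintro ⟨U, i⟩ _
      by_cases hU : 0 < U
      · obtain ⟨m, hm⟩ := hs.1 U hU i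
        exact ⟨m, fun _ => hm⟩
      · exact ⟨0, fun h => absurd h hU⟩)
  obtain ⟨M2, hM2⟩ := exists_bound ((Finset.range (f κ + 1)) ×ˢ Finset.Icc (j - f κ) j)
    (fun p m => 0 < p.1 → s (1, p.2 - m * (p.1 : ℤ)) = 0) (by
      rintro ⟨U, i⟩ _
      by_cases hU : 0 < U
      · obtain ⟨m, hm⟩ := hs.2.1 U hU i
        exact ⟨m, fun _ => hm⟩
      · exact ⟨0, fun h => absurd h hU⟩)
  set W : ℕ := κ + (M1 + M2 + 2) * (f κ + 1) with hW
  refine ⟨W, κ + (M1 + M2 + 2) * (f κ + 1), fun s' hs' u a d hu hact hj => ?_⟩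
  have hκ' : cls s' j κ := by
    refine cls_congr (fun x h1 h2 => hs' 2 x ?_) hκ
    rw [abs_le, hW]
    push_cast
    constructor
    · have : (0 : ℤ) ≤ (κ : ℤ) + ((M1 : ℤ) + M2 + 2) * (f κ + 1) := by positivity
      omega
    · have : (0 : ℤ) ≤ ((M1 : ℤ) + M2 + 2) * (f κ + 1) := by positivity
      omega
  rcases hj with hj | hj
  · have c1 := cls_pt (hact.2.2 (q u) (hq u hu).1).2
    have e1 : pt s' (a + (bs u (q u) d : ℕ)) (q u) = j := hj
    rw [e1] at c1
    have e2 : q u = κ := cls_unique c1 hκ'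
    have hb := piv_bounds hact.2 (hq u hu).1
    rw [hj] at hb
    have hqu := hq u hu
    rw [e2] at hb hqu
    set U : ℕ := u.getD κ 0 + 1 with hU
    have hUf : U ≤ f κ := hqu.2
    have hU0 : (0 : ℤ) < U := by rw [hU]; positivity
    set r0 : ℤ := a + (bs u κ 0 : ℤ) with hr0
    have hmark : ∀ x : ℕ, x < DD u * ell κ → U ∣ x → s' (1, r0 + x) = 1 :=
      fun x h1 h2 => hact.1.2.1 κ hqu.1 x h1 h2
    obtain ⟨xj, hxj⟩ := Int.eq_ofNat_of_zero_le (show 0 ≤ j - r0 by omega)
    have hbs := bs_succ u κ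
    have hxlt : xj + κ < DD u * ell κ := by
      zify
      push_cast at hbs
      have h3 : (bs u (κ + 1) 0 : ℤ) = bs u κ 0 + (DD u : ℤ) * ell κ := by exact_mod_cast hbs
      omega
    -- the last mark to the left
    set c := xj / U with hc
    have hUpos : 0 < U := by omega
    have hc1 : U * c ≤ xj := Nat.mul_div_le xj U
    have hc2 : xj < U * c + U := by
      have := Nat.lt_mul_div_succ xj hUpos
      rw [mul_add, mul_one] at this
      exact this
    clear_value c
    have hUfz : (U : ℤ) ≤ f κ := by exact_mod_cast hUf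
    -- left side
    have hleft : c ≤ M2 := by
      have hmem : (U, r0 + ((U * c : ℕ) : ℤ)) ∈ (Finset.range (f κ + 1)) ×ˢ Finset.Icc (j - f κ) j := by
        rw [Finset.mem_product, Finset.mem_range, Finset.mem_Icc]
        refine ⟨by simp only; omega, ?_, ?_⟩ <;> simp only <;> omega
      obtain ⟨m, hm, hm2⟩ := hM2 _ hmem
      have hm2 := hm2 hUpos
      simp only at hm2
      by_contra hcon
      have hmc : m ≤ c := by omega
      obtain ⟨c', rfl⟩ := Nat.exists_eq_add_of_le hmc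
      have h4 : r0 + ((U * (m + c') : ℕ) : ℤ) - m * (U : ℤ) = r0 + ((U * c' : ℕ) : ℤ) := by
        push_cast; ring
      rw [h4, hs' 1 _ ?_, hmark (U * c') ?_ (dvd_mul_right _ _)] at hm2
      · exact absurd hm2 (by decide)
      · have : U * c' ≤ U * (m + c') := Nat.mul_le_mul_left _ (Nat.le_add_left _ _)
        omega
      · have h5 : U * (m + c') = U * m + U * c' := by ring
        have h6 : U * m ≤ f κ * M2 := Nat.mul_le_mul hUf hm
        have h7 : (f κ : ℤ) * M2 ≤ (M1 + M2 + 2) * (f κ + 1) - f κ := by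
          have : (0 : ℤ) ≤ f κ := by positivity
          have : (0 : ℤ) ≤ M1 := by positivity
          have : (0 : ℤ) ≤ M2 := by positivity
          nlinarith
        have h8 : ((U * c' : ℕ) : ℤ) ≤ xj := by exact_mod_cast (by omega : U * c' ≤ xj)
        have h9 : (xj : ℤ) < (U * c' : ℕ) + (U * m : ℕ) + U := by
          exact_mod_cast (by omega : xj < U * c' + U * m + U)
        have h10 : ((U * m : ℕ) : ℤ) ≤ (f κ : ℤ) * M2 := by exact_mod_cast h6
        have h11 : (W : ℤ) = κ + (M1 + M2 + 2) * (f κ + 1) := by rw [hW]; push_cast; ring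
        rw [abs_le, h11]
        constructor <;> omega
    -- right side
    have hright : DD u * ell κ ≤ U * (c + 1) + U * M1 := by
      have hmem : (U, r0 + ((U * (c + 1) : ℕ) : ℤ)) ∈
          (Finset.range (f κ + 1)) ×ˢ Finset.Icc j (j + f κ) := by
        rw [Finset.mem_product, Finset.mem_range, Finset.mem_Icc]
        have h4 : U * (c + 1) = U * c + U := by ring
        refine ⟨by simp only; omega, ?_, ?_⟩ <;> simp only <;> rw [h4] <;> push_cast <;> push_cast at hc1 hc2 <;> omega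
      obtain ⟨m, hm, hm2⟩ := hM1 _ hmem
      have hm2 := hm2 hUpos
      simp only at hm2
      by_contra hcon
      push Not at hcon
      have h4 : r0 + ((U * (c + 1) : ℕ) : ℤ) + m * (U : ℤ) = r0 + ((U * (c + 1) + U * m : ℕ) : ℤ) := by
        push_cast; ring
      have h5 : U * m ≤ U * M1 := Nat.mul_le_mul_left _ hm
      rw [h4, hs' 1 _ ?_, hmark (U * (c + 1) + U * m) (by omega)
        ((dvd_mul_right _ _).add (dvd_mul_right _ _))] at hm2
      · exact absurd hm2 (by decide)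
      · have h6 : U * M1 ≤ f κ * M1 := Nat.mul_le_mul_right _ hUf
        have h7 : (f κ : ℤ) * M1 ≤ (M1 + M2 + 2) * (f κ + 1) - f κ := by
          have : (0 : ℤ) ≤ f κ := by positivity
          have : (0 : ℤ) ≤ M1 := by positivity
          have : (0 : ℤ) ≤ M2 := by positivity
          nlinarith
        have h8 : U * (c + 1) = U * c + U := by ring
        have h10 : ((U * m : ℕ) : ℤ) ≤ (f κ : ℤ) * M1 := by exact_mod_cast (h5.trans h6)
        have h11 : (W : ℤ) = κ + (M1 + M2 + 2) * (f κ + 1) := by rw [hW]; push_cast; ring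
        rw [abs_le, h11, h8]
        push_cast at h10 hc1 hc2 ⊢
        constructor <;> omega
    have h12 := lt_DD u
    have h13 : DD u ≤ DD u * ell κ := Nat.le_mul_of_pos_right _ (ell_pos κ)
    have h14 : U * (c + 1) + U * M1 ≤ (M1 + M2 + 2) * (f κ + 1) := by
      calc U * (c + 1) + U * M1 = U * (c + 1 + M1) := by ring
        _ ≤ (f κ + 1) * (M1 + M2 + 2) := Nat.mul_le_mul (by omega) (by omega)
        _ = _ := by ring
    omega
  · have c1 := cls_pt (hact.1.2.2.1 d hact.2.1)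
    have e1 : pt s' (a + (ell (Encodable.encode u) * d : ℕ)) (Encodable.encode u) = j := hj
    rw [e1] at c1
    have := cls_unique c1 hκ'
    omega

/-- truncation of a set of nodes -/
def Tr (T : Set (List ℕ)) (B : ℕ) : Set (List ℕ) := {u | u ∈ T ∧ Encodable.encode u ≤ B}

theorem Psi_stable {T : Set (List ℕ)} {q : List ℕ → ℕ} {f : ℕ → ℕ}
    (hq : ∀ u ∈ T, q u < u.length ∧ u.getD (q u) 0 < f (q u)) {s : Sk} (hs : G0 s) (b : ℤ → Bt)
    (j : ℤ) : ∃ W : ℕ, ∀ (s' : Sk) (b' : ℤ → Bt),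
      (∀ (τ : Fin 3) (x : ℤ), |x - j| ≤ W → s (τ, x) = s' (τ, x)) →
      (∀ x : ℤ, |x - j| ≤ W → b x = b' x) → Psi T q (s', b') j = Psi T q (s, b) j := by
  obtain ⟨W, B, hWB⟩ := exists_index_bound hq hs j
  have hq1 : ∀ u ∈ T, q u < u.length := fun u hu => (hq u hu).1
  have hq2 : ∀ u ∈ Tr T B, q u < u.length := fun u hu => (hq u hu.1).1
  refine ⟨max W (3 * Sg B), fun s' b' hs' hb' => ?_⟩
  have hc : ((max W (3 * Sg B) : ℕ) : ℤ) = max (W : ℤ) (3 * Sg B) := by push_cast; rfl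
  have key : ∀ (s' : Sk) (b' : ℤ → Bt),
      (∀ (τ : Fin 3) (x : ℤ), |x - j| ≤ W → s (τ, x) = s' (τ, x)) →
      Psi T q (s', b') j = Psi (Tr T B) q (s', b') j := by
    intro s' b' hs'
    refine Psi_T_congr hq1 hq2 fun u a d hu hact hj => ?_
    have huT : u ∈ T := by
      rcases hu with hu | hu
      · exact hu
      · exact hu.1
    exact ⟨fun _ => ⟨huT, hWB s' hs' u a d huT hact hj⟩, fun _ => huT⟩
  rw [key s' b' (fun τ x hx => hs' τ x (hx.trans (by rw [hc]; exact le_max_left _ _))),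
    key s b (fun _ _ _ => rfl)]
  exact (Psi_local (E := B) (fun u hu => hu.2) hq2
    (fun τ x hx => hs' τ x (hx.trans (by rw [hc]; exact le_max_right _ _)))
    (fun x hx => hb' x (hx.trans (by rw [hc]; exact le_max_right _ _)))).symm

theorem Phi_stable {T : Set (List ℕ)} {q : List ℕ → ℕ} {f : ℕ → ℕ}
    (hq : ∀ u ∈ T, q u < u.length ∧ u.getD (q u) 0 < f (q u)) {x : ℤ → Fin 32} (hs : G0 (skA x))
    (j : ℤ) : ∃ W : ℕ, ∀ x' : ℤ → Fin 32, (∀ i : ℤ, |i - j| ≤ W → x i = x' i) →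
      Phi T q x' j = Phi T q x j := by
  obtain ⟨W, B, hWB⟩ := exists_index_bound hq hs j
  have hq1 : ∀ u ∈ T, q u < u.length := fun u hu => (hq u hu).1
  have hq2 : ∀ u ∈ Tr T B, q u < u.length := fun u hu => (hq u hu.1).1
  refine ⟨max W (3 * Sg B), fun x' hx' => ?_⟩
  have hc : ((max W (3 * Sg B) : ℕ) : ℤ) = max (W : ℤ) (3 * Sg B) := by push_cast; rfl
  have key : ∀ x' : ℤ → Fin 32, (∀ i : ℤ, |i - j| ≤ W → x i = x' i) →
      Phi T q x' j = Phi (Tr T B) q x' j := by
    intro x' hx'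
    refine Phi_T_congr hq1 hq2 fun u a d hu hact hj => ?_
    have huT : u ∈ T := by
      rcases hu with hu | hu
      · exact hu
      · exact hu.1
    refine ⟨fun _ => ⟨huT, hWB (skA x') (fun τ i hi => ?_) u a d huT hact (Or.inl hj)⟩,
      fun _ => huT⟩
    show (eA.symm (x i)).1 τ = (eA.symm (x' i)).1 τ
    rw [hx' i hi]
  rw [key x' (fun i hi => hx' i (hi.trans (by rw [hc]; exact le_max_left _ _))),
    key x (fun _ _ => rfl)]
  exact (Phi_local (E := B) (fun u hu => hu.2) hq2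
    (fun i hi => hx' i (hi.trans (by rw [hc]; exact le_max_right _ _)))).symm

theorem ball_mem_nhds {β : Type*} [TopologicalSpace β] [DiscreteTopology β] (x : ℤ → β) (j : ℤ)
    (W : ℕ) : {x' : ℤ → β | ∀ i : ℤ, |i - j| ≤ W → x i = x' i} ∈ 𝓝 x := by
  have : {x' : ℤ → β | ∀ i : ℤ, |i - j| ≤ W → x i = x' i} =
      ⋂ i ∈ Finset.Icc (j - W) (j + W), {x' : ℤ → β | x i = x' i} := by
    ext x'
    simp only [mem_iInter, Finset.mem_Icc]
    constructor
    · intro h i hi
      exact h i (by rw [abs_le]; constructor <;> omega)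
    · intro h i hi
      rw [abs_le] at hi
      exact h i ⟨by omega, by omega⟩
  rw [this, Filter.biInter_finset_mem]
  intro i _
  have hc : Continuous (fun x' : ℤ → β => x' i) := continuous_apply i
  have h2 := ((isOpen_discrete ({x i} : Set β)).preimage hc).mem_nhds (show x i ∈ ({x i} : Set β) from rfl)
  filter_upwards [h2] with x' hx'
  exact (show x' i = x i from hx').symm

theorem measurableSet_fixed {β : Type*} [Fintype β] [MeasurableSpace β]
    [MeasurableSingletonClass β] (g : (ℤ → β) → (ℤ → β)) (hg : Measurable g) :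
    MeasurableSet {x | g x = x} := by
  have : {x | g x = x} = ⋂ j : ℤ, {x | g x j = x j} := by
    ext x
    simp only [mem_iInter]
    exact funext_iff
  rw [this]
  refine MeasurableSet.iInter fun j => ?_
  have h2 : {x : ℤ → β | g x j = x j} = ⋃ a : β, ((fun x => g x j) ⁻¹' {a}) ∩
      ((fun x : ℤ → β => x j) ⁻¹' {a}) := by
    ext x
    simp only [mem_iUnion]
    constructor
    · intro hx; exact ⟨x j, hx, rfl⟩
    · rintro ⟨a, h1, h2⟩; exact h1.trans h2.symm
  rw [h2]
  refine MeasurableSet.iUnion fun a => ?_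
  exact (((measurable_pi_apply j).comp hg) (measurableSet_singleton a)).inter
    ((measurable_pi_apply j) (measurableSet_singleton a))

theorem measurable_Yi : Measurable Yi := by
  refine Measurable.prodMk ?_ ?_
  · refine measurable_pi_iff.2 fun p => ?_
    exact (measurable_of_finite fun a : Fin 16 => (eB.symm a).1 p.1).comp (measurable_pi_apply p.2)
  · refine measurable_pi_iff.2 fun j => ?_
    exact (measurable_of_finite fun a : Fin 16 => (eB.symm a).2).comp (measurable_pi_apply j)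

/-- **A branch gives a finitary isomorphism with the i.i.d. process.** -/
theorem iso_of_branch (t : List ℕ → Bool) (f : ℕ → ℕ) (hf : ∀ n, t (br f n) = true) :
    ∃ (X₀ : Set (ℤ → Fin 32)) (Y₀ : Set (ℤ → Fin 16))
          (φ : (ℤ → Fin 32) → (ℤ → Fin 16)) (ψ : (ℤ → Fin 16) → (ℤ → Fin 32)),
          mu t X₀ᶜ = 0 ∧ P (Fin 16) Y₀ᶜ = 0 ∧
          Set.MapsTo φ X₀ Y₀ ∧ Set.MapsTo ψ Y₀ X₀ ∧
          Set.LeftInvOn ψ φ X₀ ∧ Set.LeftInvOn φ ψ Y₀ ∧
          ContinuousOn φ X₀ ∧ ContinuousOn ψ Y₀ ∧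
          (∀ x ∈ X₀, φ (fun n => x (n + 1)) = fun n => φ x (n + 1)) ∧
          (∀ y ∈ Y₀, ψ (fun n => y (n + 1)) = fun n => ψ y (n + 1)) ∧
          Measure.map φ (mu t) = P (Fin 16) ∧
          Measure.map ψ (P (Fin 16)) = mu t := by
  have hex : ∀ u, ∃ c, Obs t u → c < u.length ∧ u.getD c 0 < f c := by
    intro u
    by_cases hu : Obs t u
    · obtain ⟨c, h1, h2⟩ := exists_late t f hf u hu
      exact ⟨c, fun _ => ⟨h1, h2⟩⟩
    · exact ⟨0, fun h => absurd h hu⟩
  choose q hq using hex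
  have hq1 : ∀ u ∈ TT t, q u < u.length := fun u hu => (hq u hu).1
  set T := TT t with hT
  have hmu : mu t = PP.map (Psi T q) := mu_eq hq1
  refine ⟨{x | G0 (skA x) ∧ Psi T q (Yi (Phi T q x)) = x}, {y | G0 (Yi y).1}, Phi T q,
    fun y => Psi T q (Yi y), ?_, ?_, ?_, ?_, ?_, ?_, ?_, ?_, ?_, ?_, ?_, ?_⟩
  · -- full measure in the source
    obtain ⟨N, hN1, hN2, hN3⟩ := exists_measurable_superset_of_null
      (show Q (Fin 3 × ℤ) {s | G0 s}ᶜ = 0 from ae_G0)
    have hm : MeasurableSet {x : ℤ → Fin 32 | Psi T q (Yi (Phi T q x)) = x} :=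
      measurableSet_fixed _ ((measurable_Psi hq1).comp (measurable_Yi.comp (measurable_Phi hq1)))
    have hsub : {x | G0 (skA x) ∧ Psi T q (Yi (Phi T q x)) = x}ᶜ ⊆
        (skA ⁻¹' N) ∪ {x : ℤ → Fin 32 | Psi T q (Yi (Phi T q x)) = x}ᶜ := by
      intro x hx
      by_cases h1 : G0 (skA x)
      · exact Or.inr fun h2 => hx ⟨h1, h2⟩
      · exact Or.inl (hN1 h1)
    refine measure_mono_null hsub ?_
    rw [hmu, Measure.map_apply (measurable_Psi hq1) ((measurable_skA hN2).union hm.compl)]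
    have hsub2 : Psi T q ⁻¹' ((skA ⁻¹' N) ∪ {x : ℤ → Fin 32 | Psi T q (Yi (Phi T q x)) = x}ᶜ) ⊆
        N ×ˢ univ := by
      intro p hp
      rcases hp with hp | hp
      · have hp : skA (Psi T q p) ∈ N := hp
        rw [skA_Psi] at hp
        exact ⟨hp, mem_univ _⟩
      · refine absurd ?_ hp
        show Psi T q (Yi (Phi T q (Psi T q p))) = Psi T q p
        rw [Phi_Psi hq1, Yi_Yy]
    refine measure_mono_null hsub2 ?_
    rw [PP, Measure.prod_prod, hN3, zero_mul]
  · -- full measure in the target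
    obtain ⟨N, hN1, hN2, hN3⟩ := exists_measurable_superset_of_null
      (show Q (Fin 3 × ℤ) {s | G0 s}ᶜ = 0 from ae_G0)
    have hm : MeasurableSet {y : ℤ → Fin 16 | (Yi y).1 ∈ N} :=
      (measurable_fst.comp measurable_Yi) hN2
    have hsub : {y : ℤ → Fin 16 | G0 (Yi y).1}ᶜ ⊆ {y | (Yi y).1 ∈ N} := fun y hy => hN1 hy
    refine measure_mono_null hsub ?_
    rw [← map_Yy, Measure.map_apply measurable_Yy hm]
    have hsub2 : Yy ⁻¹' {y : ℤ → Fin 16 | (Yi y).1 ∈ N} ⊆ N ×ˢ univ := by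
      intro p hp
      have hp : (Yi (Yy p)).1 ∈ N := hp
      rw [Yi_Yy] at hp
      exact ⟨hp, mem_univ _⟩
    refine measure_mono_null hsub2 ?_
    rw [PP, Measure.prod_prod, hN3, zero_mul]
  · -- maps to
    rintro x ⟨h1, -⟩
    show G0 (Yi (Phi T q x)).1
    have : (Yi (Phi T q x)).1 = skA x := by
      unfold Yi Phi
      simp
    rw [this]; exact h1
  · intro y hy
    have hy : G0 (Yi y).1 := hy
    refine ⟨?_, ?_⟩
    · show G0 (skA (Psi T q (Yi y)))
      rw [skA_Psi]; exact hy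
    · show Psi T q (Yi (Phi T q (Psi T q (Yi y)))) = Psi T q (Yi y)
      rw [Phi_Psi hq1, Yi_Yy]
  · rintro x ⟨-, h2⟩
    exact h2
  · intro y _
    show Phi T q (Psi T q (Yi y)) = y
    rw [Phi_Psi hq1, Yy_Yi]
  · -- continuity of the decoder
    rintro x ⟨h1, -⟩
    refine ContinuousAt.continuousWithinAt ?_
    refine continuousAt_pi.2 fun j => ?_
    obtain ⟨W, hW⟩ := Phi_stable hq h1 j
    refine tendsto_const_nhds.congr' ?_
    filter_upwards [ball_mem_nhds x j W] with x' hx'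
    exact (hW x' hx').symm
  · -- continuity of the encoder
    intro y hy
    have hy : G0 (Yi y).1 := hy
    refine ContinuousAt.continuousWithinAt ?_
    refine continuousAt_pi.2 fun j => ?_
    obtain ⟨W, hW⟩ := Psi_stable hq hy (Yi y).2 j
    refine tendsto_const_nhds.congr' ?_
    filter_upwards [ball_mem_nhds y j W] with y' hy'
    refine (hW (Yi y').1 (Yi y').2 (fun τ i hi => ?_) (fun i hi => ?_)).symm
    · show (eB.symm (y i)).1 τ = (eB.symm (y' i)).1 τ
      rw [hy' i hi]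
    · show (eB.symm (y i)).2 = (eB.symm (y' i)).2
      rw [hy' i hi]
  · intro x _
    exact Phi_shn hq1 1 x
  · intro y _
    exact Psi_tr hq1 1 (Yi y).1 (Yi y).2
  · rw [hmu, Measure.map_map (measurable_Phi hq1) (measurable_Psi hq1)]
    have : Phi T q ∘ Psi T q = Yy := funext fun p => Phi_Psi hq1 p
    rw [this, map_Yy]
  · show Measure.map (Psi T q ∘ Yi) (P (Fin 16)) = mu t
    rw [← map_Yy, Measure.map_map ((measurable_Psi hq1).comp measurable_Yi) measurable_Yy, hmu]
    congr 1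
    funext p
    show Psi T q (Yi (Yy p)) = Psi T q p
    rw [Yi_Yy]

end Pool.Agent.TH288.FI
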