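import Pool.Agent.TH288.FI.Meas

/-!
# Probability estimates given the occurrence of a frame
-/

set_option autoImplicit false

open MeasureTheory Set Filter
open scoped ENNReal Topology

namespace Pool.Agent.TH288.FI

/-- the frame of `u` occurs at the origin -/
def OccS (u : List ℕ) : Set Sk := {s | Hd s u 0 ∧ Mk s u 0}

/-- positions of marks -/
noncomputable def MF (u : List ℕ) : Finset ℤ :=
  (Finset.range u.length).biUnion fun k =>
    (Finset.range (DD u * ell k / (u.getD k 0 + 1) + 1)).image fun i : ℕ =>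
      (bs u k 0 : ℤ) + ((i * (u.getD k 0 + 1) : ℕ) : ℤ)

/-- coordinates determining the occurrence -/
noncomputable def FO (u : List ℕ) : Finset (Fin 3 × ℤ) :=
  ({0} ×ˢ Finset.Icc (-(mm u : ℤ) - 2) (-1)) ∪ ({1} ×ˢ MF u)

theorem mem_MF {u : List ℕ} {k x : ℕ} (hk : k < u.length) (hx : x < DD u * ell k)
    (hd : u.getD k 0 + 1 ∣ x) : (bs u k 0 : ℤ) + (x : ℤ) ∈ MF u := by
  obtain ⟨i, rfl⟩ := hd
  unfold MF
  rw [Finset.mem_biUnion]
  refine ⟨k, Finset.mem_range.2 hk, Finset.mem_image.2 ⟨i, ?_, ?_⟩⟩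
  · rw [Finset.mem_range, Nat.lt_succ_iff, Nat.le_div_iff_mul_le (by omega)]
    rw [mul_comm i]
    exact hx.le
  · rw [mul_comm i]

theorem Dep_Occ (u : List ℕ) : Dep (FO u) (OccS u) := by
  rintro s s' h ⟨h1, h2⟩
  refine ⟨Hd_congr (fun x hx1 hx2 => h (0, x) ?_) h1, fun k hk x hx hdv => ?_⟩
  · refine Finset.mem_union_left _ ?_
    rw [Finset.mem_product, Finset.mem_Icc]
    exact ⟨Finset.mem_singleton_self _, by simp only; omega, by simp only; omega⟩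
  · rw [← h (1, 0 + (bs u k 0 : ℤ) + x) ?_]
    · exact h2 k hk x hx hdv
    · refine Finset.mem_union_right _ ?_
      rw [Finset.mem_product, zero_add]
      exact ⟨Finset.mem_singleton_self _, mem_MF hk hx hdv⟩

theorem Occ_lower (u : List ℕ) : (2⁻¹) ^ (FO u).card ≤ Q (Fin 3 × ℤ) (OccS u) := by
  let w : Sk := fun p => if p.1 = 0 ∧ (p.2 = -1 ∨ p.2 = -(mm u : ℤ) - 2) then 0 else 1
  rw [← Q_cy (FO u) w]
  refine measure_mono fun s hs => ?_
  have h0 : ∀ x : ℤ, -(mm u : ℤ) - 2 ≤ x → x ≤ -1 → s (0, x) = w (0, x) := by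
    intro x h1 h2
    refine hs (0, x) (Finset.mem_union_left _ ?_)
    rw [Finset.mem_product, Finset.mem_Icc]
    exact ⟨Finset.mem_singleton_self _, h1, h2⟩
  refine ⟨⟨fun x hx1 hx2 => ?_, ?_, ?_⟩, fun k hk x hx hdv => ?_⟩
  · rw [h0 x (by omega) (by omega)]
    simp only [w]
    rw [if_neg]
    rintro ⟨-, h | h⟩ <;> omega
  · rw [h0 _ (by omega) (by omega)]
    simp only [w]
    rw [if_pos]
    exact ⟨trivial, Or.inl (by omega)⟩
  · rw [h0 _ (by omega) (by omega)]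
    simp only [w]
    rw [if_pos]
    exact ⟨trivial, Or.inr (by omega)⟩
  · rw [hs (1, 0 + (bs u k 0 : ℤ) + x) ?_]
    · simp only [w]
      rw [if_neg]
      rintro ⟨h, -⟩
      exact absurd h (by decide)
    · refine Finset.mem_union_right _ ?_
      rw [Finset.mem_product, zero_add]
      exact ⟨Finset.mem_singleton_self _, mem_MF hk hx hdv⟩

/-- two different headers have disjoint runs -/
theorem run_disjoint {s : Sk} {u u' : List ℕ} {a' : ℤ} (h : Hd s u 0) (h' : Hd s u' a')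
    (hne : ¬ (u' = u ∧ a' = 0)) {x : ℤ} (hx1 : a' - mm u' - 1 ≤ x) (hx2 : x < a' - 1)
    (hx3 : -(mm u : ℤ) - 2 ≤ x) (hx4 : x ≤ -1) : False := by
  obtain ⟨h1, h2, h3⟩ := h
  obtain ⟨h1', h2', h3'⟩ := h'
  rw [zero_sub] at h2
  have h3 : s (0, -(mm u : ℤ) - 2) = 0 := by
    have e : -(mm u : ℤ) - 2 = 0 - mm u - 2 := by ring
    rw [e]; exact h3
  have hx := h1' x hx1 hx2
  have hxa : x ≠ -1 := by rintro rfl; rw [h2] at hx; exact absurd hx (by decide)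
  have hxb : x ≠ -(mm u : ℤ) - 2 := by rintro rfl; rw [h3] at hx; exact absurd hx (by decide)
  have e1 : a' = 0 := by
    rcases lt_trichotomy a' 0 with hlt | heq | hgt
    · have := h1 (a' - 1) (by omega) (by omega)
      rw [h2'] at this
      exact absurd this (by decide)
    · exact heq
    · have := h1' (-1) (by omega) (by omega)
      rw [h2] at this
      exact absurd this (by decide)
  subst e1
  have e2 : mm u' = mm u := by
    rcases lt_trichotomy (mm u') (mm u) with hlt | heq | hgt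
    · have := h1 (0 - mm u' - 2) (by omega) (by omega)
      rw [h3'] at this
      exact absurd this (by decide)
    · exact heq
    · have := h1' (-(mm u : ℤ) - 2) (by omega) (by omega)
      rw [h3] at this
      exact absurd this (by decide)
  unfold mm at e2
  exact hne ⟨Encodable.encode_injective (by omega), rfl⟩

theorem Q_Occ_Hd (u u' : List ℕ) (a' : ℤ) (hne : ¬ (u' = u ∧ a' = 0)) :
    Q (Fin 3 × ℤ) (OccS u ∩ {s | Hd s u' a'}) ≤ Q (Fin 3 × ℤ) (OccS u) * (2⁻¹) ^ (mm u') := by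
  classical
  rcases (OccS u ∩ {s | Hd s u' a'}).eq_empty_or_nonempty with h | ⟨s, hs1, hs2⟩
  · rw [h, measure_empty]; exact zero_le
  · have hd : Disjoint (FO u) (Rn u' a') := by
      rw [Finset.disjoint_left]
      rintro ⟨τ, x⟩ h1 h2
      unfold Rn at h2
      rw [Finset.mem_product, Finset.mem_singleton, Finset.mem_Ico] at h2
      obtain ⟨rfl, h3, h4⟩ := h2
      unfold FO at h1
      rw [Finset.mem_union, Finset.mem_product, Finset.mem_product, Finset.mem_Icc] at h1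
      rcases h1 with h1 | h1
      · exact run_disjoint hs1.1 hs2 hne h3 h4 h1.2.1 h1.2.2
      · have h5 : (0 : Fin 3) = 1 := Finset.mem_singleton.1 h1.1
        exact absurd h5 (by decide)
    refine (measure_mono (inter_subset_inter_right _ (Hd_subset u' a'))).trans ?_
    rw [Q_inter hd (Dep_Occ u) (Dep_cy _ _), Q_cy, card_Rn]

theorem cover_Occ (u : List ℕ) (e0 : ℕ) (j : ℤ) :
    Q (Fin 3 × ℤ) (OccS u ∩ {s | ∃ u' a', ¬ (u' = u ∧ a' = 0) ∧ e0 ≤ Encodable.encode u' ∧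
      Hd s u' a' ∧ Cov u' a' j}) ≤ Q (Fin 3 × ℤ) (OccS u) * (2⁻¹) ^ (4 * e0 + 50) :=
  cover_le (OccS u) (fun u' a' => u' = u ∧ a' = 0) (fun u' a' h => Q_Occ_Hd u u' a' h) e0 j

/-! ### Empty buckets -/

/-- window on the track of classes -/
noncomputable def Cw (l r : ℤ) : Finset (Fin 3 × ℤ) := {2} ×ˢ Finset.Ico l r

theorem mem_Cw {l r x : ℤ} : ((2 : Fin 3), x) ∈ Cw l r ↔ l ≤ x ∧ x < r := by
  simp [Cw]

theorem disjoint_FO_Cw (u : List ℕ) (l r : ℤ) : Disjoint (FO u) (Cw l r) := by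
  classical
  rw [Finset.disjoint_left]
  rintro ⟨τ, x⟩ h1 h2
  unfold Cw at h2
  rw [Finset.mem_product, Finset.mem_singleton] at h2
  have h3 : τ = 2 := h2.1
  subst h3
  unfold FO at h1
  rw [Finset.mem_union, Finset.mem_product, Finset.mem_product] at h1
  rcases h1 with h1 | h1
  · have h5 : (2 : Fin 3) = 0 := Finset.mem_singleton.1 h1.1
    exact absurd h5 (by decide)
  · have h5 : (2 : Fin 3) = 1 := Finset.mem_singleton.1 h1.1
    exact absurd h5 (by decide)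

theorem cls_eq_cy (j : ℤ) (k : ℕ) : {s : Sk | cls s j k} =
    cy (Cw j (j + k + 1)) (fun p => if p.2 = j + k then 0 else 1) := by
  ext s
  constructor
  · rintro ⟨h1, h2⟩ ⟨τ, x⟩ hp
    unfold Cw at hp
    rw [Finset.mem_product, Finset.mem_singleton, Finset.mem_Ico] at hp
    obtain ⟨rfl, h3, h4⟩ := hp
    simp only at h3 h4 ⊢
    split_ifs with h5
    · rw [h5]; exact h2
    · obtain ⟨y, hy⟩ := Int.eq_ofNat_of_zero_le (show 0 ≤ x - j by omega)
      have : x = j + y := by omega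
      rw [this]
      exact h1 y (by omega)
  · intro h
    refine ⟨fun x hx => ?_, ?_⟩
    · rw [h (2, j + x) (mem_Cw.2 ⟨by omega, by omega⟩)]
      simp only
      rw [if_neg (by omega)]
    · rw [h (2, j + k) (mem_Cw.2 ⟨by omega, by omega⟩)]
      simp only
      rw [if_pos trivial]

theorem card_Cw (j : ℤ) (k : ℕ) : (Cw j (j + k + 1)).card = k + 1 := by
  unfold Cw
  rw [Finset.card_product, Finset.card_singleton, Int.card_Ico]
  omega

theorem Q_not_cls (j : ℤ) (k : ℕ) :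
    Q (Fin 3 × ℤ) {s : Sk | cls s j k}ᶜ = 1 - (2⁻¹) ^ (k + 1) := by
  rw [cls_eq_cy, measure_compl (Dep_cy _ _).measurableSet (measure_ne_top _ _), measure_univ, Q_cy,
    card_Cw]

/-- no position of class `k` among `N` disjoint windows -/
def emp (A : ℤ) (k N : ℕ) : Set Sk := {s | ∀ l < N, ¬ cls s (A + ((l * (k + 1) : ℕ) : ℤ)) k}

theorem Dep_emp (A : ℤ) (k N : ℕ) : Dep (Cw A (A + ((N * (k + 1) : ℕ) : ℤ))) (emp A k N) := by
  intro s s' h hs l hl hcon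
  refine hs l hl (cls_congr (fun x h1 h2 => ?_) hcon)
  have h3 : (l + 1) * (k + 1) ≤ N * (k + 1) := Nat.mul_le_mul_right _ hl
  have h4 : (l + 1) * (k + 1) = l * (k + 1) + (k + 1) := by ring
  have h5 : ((l * (k + 1) : ℕ) : ℤ) + (k + 1) ≤ ((N * (k + 1) : ℕ) : ℤ) := by
    have : l * (k + 1) + (k + 1) ≤ N * (k + 1) := by omega
    exact_mod_cast this
  have h6 : (0 : ℤ) ≤ ((l * (k + 1) : ℕ) : ℤ) := by positivity
  exact (h (2, x) (mem_Cw.2 ⟨by omega, by omega⟩)).symm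

theorem Q_emp (A : ℤ) (k N : ℕ) : Q (Fin 3 × ℤ) (emp A k N) = (1 - (2⁻¹) ^ (k + 1)) ^ N := by
  induction N with
  | zero =>
    have : emp A k 0 = univ := by ext s; simp [emp]
    rw [this, measure_univ, pow_zero]
  | succ N ih =>
    have h1 : emp A k (N + 1) = emp A k N ∩ {s : Sk | cls s (A + ((N * (k + 1) : ℕ) : ℤ)) k}ᶜ := by
      ext s
      constructor
      · intro h
        exact ⟨fun l hl => h l (by omega), h N (by omega)⟩
      · rintro ⟨h1, h2⟩ l hl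
        rcases Nat.lt_succ_iff_lt_or_eq.1 hl with h | rfl
        · exact h1 l h
        · exact h2
    have h2 : Dep (Cw (A + ((N * (k + 1) : ℕ) : ℤ)) (A + ((N * (k + 1) : ℕ) : ℤ) + k + 1))
        {s : Sk | cls s (A + ((N * (k + 1) : ℕ) : ℤ)) k}ᶜ := by
      rw [cls_eq_cy]
      exact (Dep_cy _ _).compl
    have h3 : Disjoint (Cw A (A + ((N * (k + 1) : ℕ) : ℤ)))
        (Cw (A + ((N * (k + 1) : ℕ) : ℤ)) (A + ((N * (k + 1) : ℕ) : ℤ) + k + 1)) := by
      rw [Finset.disjoint_left]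
      rintro ⟨τ, x⟩ g1 g2
      unfold Cw at g1 g2
      rw [Finset.mem_product, Finset.mem_Ico] at g1 g2
      have := g1.2.2
      have := g2.2.1
      omega
    rw [h1, Q_inter h3 (Dep_emp A k N) h2, ih, Q_not_cls]
    exact (pow_succ _ _).symm

theorem real_ineq (m : ℕ) (hm : 0 < m) : (1 - 1 / (m : ℝ)) ^ m ≤ 1 / 2 := by
  have hm' : (0 : ℝ) < m := by exact_mod_cast hm
  have hm1 : (1 : ℝ) ≤ m := by exact_mod_cast hm
  have h1 : 1 + (m : ℝ) * (1 / m) ≤ (1 + 1 / (m : ℝ)) ^ m :=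
    one_add_mul_le_pow (by have : 0 ≤ 1 / (m : ℝ) := by positivity
                           linarith) m
  have h2 : (m : ℝ) * (1 / m) = 1 := by field_simp
  rw [h2] at h1
  have h3 : 0 ≤ 1 - 1 / (m : ℝ) := by
    rw [sub_nonneg, div_le_one hm']; exact hm1
  have h4 : (1 - 1 / (m : ℝ)) ^ m * (1 + 1 / (m : ℝ)) ^ m ≤ 1 := by
    rw [← mul_pow]
    refine pow_le_one₀ (by positivity) ?_
    have : (1 - 1 / (m : ℝ)) * (1 + 1 / (m : ℝ)) = 1 - (1 / (m : ℝ)) ^ 2 := by ring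
    rw [this]
    have : 0 ≤ (1 / (m : ℝ)) ^ 2 := by positivity
    linarith
  have h5 : 0 ≤ (1 - 1 / (m : ℝ)) ^ m := by positivity
  nlinarith

theorem pow_half_le (k M : ℕ) :
    (1 - ((2 : ℝ≥0∞)⁻¹) ^ (k + 1)) ^ (2 ^ (k + 1) * M) ≤ (2⁻¹) ^ M := by
  rw [pow_mul]
  refine pow_le_pow_left₀ zero_le ?_ M
  have h1 := real_ineq (2 ^ (k + 1)) (by positivity)
  have h2 : (1 : ℝ≥0∞) - (2⁻¹) ^ (k + 1) = ENNReal.ofReal (1 - 1 / ((2 ^ (k + 1) : ℕ) : ℝ)) := by
    rw [ENNReal.ofReal_sub _ (by positivity), ENNReal.ofReal_one]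
    congr 1
    rw [← ENNReal.inv_pow, one_div, ENNReal.ofReal_inv_of_pos (by positivity),
      ENNReal.ofReal_natCast]
    push_cast
    rfl
  rw [h2, ← ENNReal.ofReal_pow]
  · refine (ENNReal.ofReal_le_ofReal h1).trans ?_
    rw [one_div, ENNReal.ofReal_inv_of_pos (by norm_num)]
    simp
  · rw [sub_nonneg, div_le_one (by positivity)]
    exact_mod_cast Nat.one_le_two_pow

theorem not_hc_subset (A : ℤ) (k N : ℕ) (hN : N * (k + 1) ≤ ell k) :
    {s : Sk | ¬ hc s A k} ⊆ emp A k N := by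
  intro s hs l hl hcon
  refine hs ⟨l * (k + 1), ?_, hcon⟩
  have h3 : (l + 1) * (k + 1) ≤ N * (k + 1) := Nat.mul_le_mul_right _ hl
  have h4 : (l + 1) * (k + 1) = l * (k + 1) + (k + 1) := by ring
  omega

theorem Q_Occ_empty (u : List ℕ) (A : ℤ) (k M : ℕ) (hM : 2 ^ (k + 1) * M * (k + 1) ≤ ell k) :
    Q (Fin 3 × ℤ) (OccS u ∩ {s | ¬ hc s A k}) ≤ Q (Fin 3 × ℤ) (OccS u) * (2⁻¹) ^ M := by
  classical
  refine (measure_mono (inter_subset_inter_right _ (not_hc_subset A k _ hM))).trans ?_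
  rw [Q_inter (disjoint_FO_Cw u _ _) (Dep_Occ u) (Dep_emp A k _), Q_emp]
  exact mul_le_mul' le_rfl (pow_half_le k M)

theorem size_region (k : ℕ) : 2 ^ (k + 1) * (k + 8) * (k + 1) ≤ ell k := by
  have h1 : k + 1 ≤ 2 ^ k := Nat.lt_two_pow_self
  have h2 : k + 8 ≤ 2 ^ (k + 3) := by rw [pow_add]; omega
  calc 2 ^ (k + 1) * (k + 8) * (k + 1) ≤ 2 ^ (k + 1) * 2 ^ (k + 3) * 2 ^ k := by gcongr
    _ = 2 ^ (3 * k + 4) := by rw [← pow_add, ← pow_add]; congr 1; ring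
    _ ≤ 2 ^ (3 * k + 7) := Nat.pow_le_pow_right (by norm_num) (by omega)

theorem size_extra (e : ℕ) : 2 ^ (e + 1) * (4 * e + 48) * (e + 1) ≤ ell e := by
  have h1 : e + 1 ≤ 2 ^ e := Nat.lt_two_pow_self
  have h2 : 4 * e + 48 ≤ 2 ^ (e + 6) := by rw [pow_add]; omega
  calc 2 ^ (e + 1) * (4 * e + 48) * (e + 1) ≤ 2 ^ (e + 1) * 2 ^ (e + 6) * 2 ^ e := by gcongr
    _ = 2 ^ (3 * e + 7) := by rw [← pow_add, ← pow_add]; congr 1; ring

/-! ### The frame is alive, isolated and most relations are active -/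

/-- no other frame covers the end points of the frame at the origin -/
def NS (s : Sk) (u : List ℕ) : Prop :=
  ∀ (u' : List ℕ) (a' : ℤ), Hd s u' a' → ¬ (u' = u ∧ a' = 0) →
    ¬ Cov u' a' (-(mm u : ℤ) - 2) ∧ ¬ Cov u' a' ((bs u 0 0 : ℤ) - 1) ∧
    ¬ Cov u' a' ((Len u : ℤ) - 1) ∧ ¬ Cov u' a' (Len u : ℤ)

theorem Q_not_NS (u : List ℕ) : Q (Fin 3 × ℤ) (OccS u ∩ {s | ¬ NS s u}) ≤
    Q (Fin 3 × ℤ) (OccS u) * (2⁻¹) ^ 48 := by
  have hsub : OccS u ∩ {s | ¬ NS s u} ⊆ ⋃ j ∈ ({-(mm u : ℤ) - 2, (bs u 0 0 : ℤ) - 1,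
      (Len u : ℤ) - 1, (Len u : ℤ)} : Finset ℤ),
      (OccS u ∩ {s | ∃ u' a', ¬ (u' = u ∧ a' = 0) ∧ 0 ≤ Encodable.encode u' ∧
      Hd s u' a' ∧ Cov u' a' j}) := by
    rintro s ⟨h1, h2⟩
    have h2 : ¬ NS s u := h2
    unfold NS at h2
    push Not at h2
    obtain ⟨u', a', h3, h4, h5⟩ := h2
    have h4' : ¬ (u' = u ∧ a' = 0) := fun h => h4 h.1 h.2
    have : ∃ j ∈ ({-(mm u : ℤ) - 2, (bs u 0 0 : ℤ) - 1, (Len u : ℤ) - 1, (Len u : ℤ)} : Finset ℤ),
        Cov u' a' j := by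
      by_contra hcon
      push Not at hcon
      exact hcon (Len u : ℤ) (by simp) (h5 (hcon _ (by simp)) (hcon _ (by simp)) (hcon _ (by simp)))
    obtain ⟨j, hj, hcov⟩ := this
    exact mem_iUnion₂.2 ⟨j, hj, h1, u', a', h4', Nat.zero_le _, h3, hcov⟩
  refine (measure_mono hsub).trans ((measure_biUnion_finset_le _ _).trans ?_)
  refine (Finset.sum_le_sum fun j _ => cover_Occ u 0 j).trans ?_
  rw [Finset.sum_const, nsmul_eq_mul]
  have h1 : (({-(mm u : ℤ) - 2, (bs u 0 0 : ℤ) - 1, (Len u : ℤ) - 1, (Len u : ℤ)} :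
      Finset ℤ).card : ℝ≥0∞) ≤ 4 := by
    exact_mod_cast Finset.card_le_four
  calc _ ≤ 4 * (Q (Fin 3 × ℤ) (OccS u) * (2⁻¹) ^ (4 * 0 + 50)) := by gcongr
    _ = Q (Fin 3 × ℤ) (OccS u) * (4 * (2⁻¹) ^ 50) := by ring
    _ = Q (Fin 3 × ℤ) (OccS u) * (2⁻¹) ^ 48 := by
      congr 1
      have h2 : (4 : ℝ≥0∞) = 2 ^ 2 := by norm_num
      have h3 : ((2 : ℝ≥0∞)⁻¹) ^ 50 = (2⁻¹) ^ 2 * (2⁻¹) ^ 48 := by rw [← pow_add]
      rw [h2, h3, ← mul_assoc, ← mul_pow, ENNReal.mul_inv_cancel (by simp) (by simp), one_pow,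
        one_mul]

theorem Alive_of {s : Sk} {u : List ℕ} (h1 : s ∈ OccS u)
    (h2 : ∀ d < DD u, hc s (0 + (ell (Encodable.encode u) * d : ℕ)) (Encodable.encode u))
    (h3 : NS s u) : Alive s u 0 := by
  refine ⟨h1.1, h1.2, h2, fun a' j g1 g2 g3 => ?_⟩
  by_contra hne
  have h4 := h3 u a' g1 (fun h => hne h.2)
  obtain ⟨g4, g5⟩ := g2
  obtain ⟨g6, g7⟩ := g3
  have hL : (0 : ℤ) ≤ Len u := by positivity
  rcases lt_trichotomy a' 0 with hlt | heq | hgt
  · refine h4.1 ⟨by omega, ?_⟩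
    by_contra hcon
    omega
  · exact hne heq
  · refine h4.2.2.1 ⟨?_, by omega⟩
    by_contra hcon
    omega

theorem Q_not_extra (u : List ℕ) : Q (Fin 3 × ℤ) (OccS u ∩ {s | ¬ ∀ d < DD u,
      hc s (0 + (ell (Encodable.encode u) * d : ℕ)) (Encodable.encode u)}) ≤
    Q (Fin 3 × ℤ) (OccS u) * (2⁻¹) ^ 8 := by
  have hsub : OccS u ∩ {s | ¬ ∀ d < DD u,
      hc s (0 + (ell (Encodable.encode u) * d : ℕ)) (Encodable.encode u)} ⊆
      ⋃ d ∈ Finset.range (DD u), (OccS u ∩ {s | ¬ hc s (0 + (ell (Encodable.encode u) * d : ℕ))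
        (Encodable.encode u)}) := by
    rintro s ⟨h1, h2⟩
    have h2 : ¬ ∀ d < DD u, hc s (0 + (ell (Encodable.encode u) * d : ℕ)) (Encodable.encode u) := h2
    push Not at h2
    obtain ⟨d, h3, h4⟩ := h2
    exact mem_iUnion₂.2 ⟨d, Finset.mem_range.2 h3, h1, h4⟩
  refine (measure_mono hsub).trans ((measure_biUnion_finset_le _ _).trans ?_)
  refine (Finset.sum_le_sum fun d _ => Q_Occ_empty u _ _ _ (size_extra (Encodable.encode u))).trans ?_
  rw [Finset.sum_const, Finset.card_range, nsmul_eq_mul]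
  refine le_of_eq ?_
  unfold DD
  have h : 4 * Encodable.encode u + 48 = (4 * Encodable.encode u + 40) + 8 := by ring
  rw [h, pow_add (2⁻¹ : ℝ≥0∞) (4 * Encodable.encode u + 40)]
  push_cast
  calc (2 : ℝ≥0∞) ^ (4 * Encodable.encode u + 40) * (Q (Fin 3 × ℤ) (OccS u) *
        (2⁻¹ ^ (4 * Encodable.encode u + 40) * 2⁻¹ ^ 8)) =
      (2 ^ (4 * Encodable.encode u + 40) * 2⁻¹ ^ (4 * Encodable.encode u + 40)) *
        (Q (Fin 3 × ℤ) (OccS u) * 2⁻¹ ^ 8) := by ring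
    _ = _ := by rw [← mul_pow, ENNReal.mul_inv_cancel (by simp) (by simp), one_pow, one_mul]

theorem sum_pow_le (n c : ℕ) : ∑ k ∈ Finset.range n, ((2 : ℝ≥0∞)⁻¹) ^ (k + c + 1) ≤ (2⁻¹) ^ c := by
  have h1 : ∀ k, ((2 : ℝ≥0∞)⁻¹) ^ (k + c + 1) = (2⁻¹) ^ c * (2⁻¹) ^ (k + 1) := by
    intro k; rw [← pow_add]; congr 1; ring
  simp only [h1]
  rw [← Finset.mul_sum]
  refine mul_le_of_le_one_right' ?_
  refine (ENNReal.sum_le_tsum _).trans ?_
  rw [ENNReal.tsum_geometric_add_one, ENNReal.one_sub_inv_two, inv_inv,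
    ENNReal.inv_mul_cancel (by simp) (by simp)]

theorem Q_not_ActD (u : List ℕ) {d : ℕ} (hd : d < DD u) :
    Q (Fin 3 × ℤ) (OccS u ∩ {s | ¬ ActD s u 0 d}) ≤ Q (Fin 3 × ℤ) (OccS u) * (2⁻¹) ^ 6 := by
  have hsub : OccS u ∩ {s | ¬ ActD s u 0 d} ⊆
      ⋃ k ∈ Finset.range u.length, ((⋃ x ∈ Finset.range (ell k),
        (OccS u ∩ {s | ∃ u' a', ¬ (u' = u ∧ a' = 0) ∧ k + 1 ≤ Encodable.encode u' ∧
      Hd s u' a' ∧ Cov u' a' (0 + (bs u k d : ℕ) + (x : ℕ))})) ∪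
      (OccS u ∩ {s | ¬ hc s (0 + (bs u k d : ℕ)) k})) := by
    rintro s ⟨h1, h2⟩
    have h2 : ¬ ActD s u 0 d := h2
    unfold ActD Free at h2
    push Not at h2
    obtain ⟨k, hk, h3⟩ := h2 hd
    refine mem_iUnion₂.2 ⟨k, Finset.mem_range.2 hk, ?_⟩
    by_cases h4 : hc s (0 + (bs u k d : ℕ)) k
    · left
      have h5 : ¬ ∀ x < ell k, ∀ (u' : List ℕ) (a' : ℤ), Encodable.encode u' ≤ Encodable.encode u →
          k + 1 ≤ u'.length → Hd s u' a' → Cov u' a' (0 + (bs u k d : ℕ) + (x : ℕ)) →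
          u' = u ∧ a' = 0 := fun h => h3 h h4
      push Not at h5
      obtain ⟨x, hx, u', a', g1, g2, g3, g4, g5⟩ := h5
      refine mem_iUnion₂.2 ⟨x, Finset.mem_range.2 hx, h1, u', a', fun h => g5 h.1 h.2, ?_, g3, g4⟩
      exact g2.trans (length_le_encode u')
    · right
      exact ⟨h1, h4⟩
  refine (measure_mono hsub).trans ((measure_biUnion_finset_le _ _).trans ?_)
  have hterm : ∀ k ∈ Finset.range u.length, Q (Fin 3 × ℤ) ((⋃ x ∈ Finset.range (ell k),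
        (OccS u ∩ {s | ∃ u' a', ¬ (u' = u ∧ a' = 0) ∧ k + 1 ≤ Encodable.encode u' ∧
      Hd s u' a' ∧ Cov u' a' (0 + (bs u k d : ℕ) + (x : ℕ))})) ∪
      (OccS u ∩ {s | ¬ hc s (0 + (bs u k d : ℕ)) k})) ≤
      Q (Fin 3 × ℤ) (OccS u) * (2⁻¹) ^ (k + 6 + 1) := by
    intro k _
    refine (measure_union_le _ _).trans ?_
    have e1 : Q (Fin 3 × ℤ) (⋃ x ∈ Finset.range (ell k),
        (OccS u ∩ {s | ∃ u' a', ¬ (u' = u ∧ a' = 0) ∧ k + 1 ≤ Encodable.encode u' ∧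
      Hd s u' a' ∧ Cov u' a' (0 + (bs u k d : ℕ) + (x : ℕ))})) ≤
      Q (Fin 3 × ℤ) (OccS u) * (2⁻¹) ^ (k + 8) := by
      refine (measure_biUnion_finset_le _ _).trans ?_
      refine (Finset.sum_le_sum fun x _ => cover_Occ u (k + 1) _).trans ?_
      rw [Finset.sum_const, Finset.card_range, nsmul_eq_mul]
      unfold ell
      have h : 4 * (k + 1) + 50 = (3 * k + 7) + (k + 47) := by ring
      rw [h, pow_add (2⁻¹ : ℝ≥0∞) (3 * k + 7)]
      push_cast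
      calc (2 : ℝ≥0∞) ^ (3 * k + 7) * (Q (Fin 3 × ℤ) (OccS u) *
            (2⁻¹ ^ (3 * k + 7) * 2⁻¹ ^ (k + 47))) =
          (2 ^ (3 * k + 7) * 2⁻¹ ^ (3 * k + 7)) * (Q (Fin 3 × ℤ) (OccS u) * 2⁻¹ ^ (k + 47)) := by
            ring
        _ = Q (Fin 3 × ℤ) (OccS u) * 2⁻¹ ^ (k + 47) := by
            rw [← mul_pow, ENNReal.mul_inv_cancel (by simp) (by simp), one_pow, one_mul]
        _ ≤ _ := mul_le_mul' le_rfl (pow_le_pow_right_of_le_one'
              (show (2⁻¹ : ℝ≥0∞) ≤ 1 by norm_num) (by omega))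
    have e2 := Q_Occ_empty u (0 + (bs u k d : ℕ)) k (k + 8) (size_region k)
    refine (add_le_add e1 e2).trans (le_of_eq ?_)
    rw [← mul_add, ← two_mul, show k + 8 = k + 6 + 1 + 1 by ring, pow_succ _ (k + 6 + 1),
      mul_comm (2 : ℝ≥0∞), mul_assoc, ENNReal.inv_mul_cancel (by simp) (by simp), mul_one]
  refine (Finset.sum_le_sum hterm).trans ?_
  rw [← Finset.mul_sum]
  exact mul_le_mul' le_rfl (sum_pow_le _ _)

/-! ### Markov inequality -/

open Classical in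
theorem markov_count {Ω ι : Type*} [MeasurableSpace Ω] (μ : Measure Ω) (S : Finset ι)
    (A : ι → Set Ω) (hA : ∀ i ∈ S, MeasurableSet (A i)) (O : Set Ω) (c : ι → ℝ≥0∞)
    (h : ∀ i ∈ S, μ (O ∩ A i) ≤ c i) (K : ℕ) :
    (K : ℝ≥0∞) * μ (O ∩ {ω | K ≤ (S.filter fun i => ω ∈ A i).card}) ≤ ∑ i ∈ S, c i := by
  let f : Ω → ℝ≥0∞ := fun ω => ∑ i ∈ S, (A i).indicator (fun _ => 1) ω
  have hf : Measurable f := Finset.measurable_sum _ fun i hi => measurable_const.indicator (hA i hi)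
  have hcard : ∀ ω, f ω = ((S.filter fun i => ω ∈ A i).card : ℝ≥0∞) := by
    intro ω
    simp only [f, Set.indicator_apply]
    rw [Finset.sum_boole]
  have h1 := mul_meas_ge_le_lintegral (μ := μ.restrict O) hf (K : ℝ≥0∞)
  have h2 : ∫⁻ ω, f ω ∂(μ.restrict O) = ∑ i ∈ S, μ (A i ∩ O) := by
    simp only [f]
    rw [lintegral_finsetSum' _ fun i hi => (measurable_const.indicator (hA i hi)).aemeasurable]
    refine Finset.sum_congr rfl fun i hi => ?_
    rw [lintegral_indicator_const (hA i hi), one_mul, Measure.restrict_apply (hA i hi)]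
  have h3 : {ω | (K : ℝ≥0∞) ≤ f ω} = {ω | K ≤ (S.filter fun i => ω ∈ A i).card} := by
    ext ω
    show (K : ℝ≥0∞) ≤ f ω ↔ K ≤ _
    rw [hcard]
    exact Nat.cast_le
  have h4 : MeasurableSet {ω | (K : ℝ≥0∞) ≤ f ω} := measurableSet_le measurable_const hf
  rw [Measure.restrict_apply h4, h3, h2] at h1
  rw [inter_comm]
  refine h1.trans (Finset.sum_le_sum fun i hi => ?_)
  rw [inter_comm]
  exact h i hi

theorem ActD_local {s s' : Sk} {u : List ℕ} {a : ℤ} {d : ℕ}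
    (h : ∀ (τ : Fin 3) (x : ℤ), a - 2 * Sg (Encodable.encode u) ≤ x →
      x ≤ a + 2 * Sg (Encodable.encode u) → s (τ, x) = s' (τ, x)) (hs : ActD s u a d) :
    ActD s' u a d := by
  have hL := Len_le u
  refine ActD_congr ?_ ?_ hs
  · intro u' a' j h1 h2 h3 h4 h5
    have hL' := Len_le u'
    have hS := Sg_mono h1
    obtain ⟨c3, c4⟩ := h4
    exact Hd_congr (fun x hx1 hx2 => (h 0 x (by omega) (by omega)).symm) h5
  · intro τ x hx1 hx2
    exact h τ x (by omega) (by omega)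

theorem measurableSet_ActD (u : List ℕ) (a : ℤ) (d : ℕ) : MeasurableSet {s : Sk | ActD s u a d} := by
  have : Dep (Wd (a - 2 * Sg (Encodable.encode u)) (a + 2 * Sg (Encodable.encode u)))
      {s : Sk | ActD s u a d} := by
    intro s s' h hs
    exact ActD_local (fun τ x h1 h2 => h (τ, x) (mem_Wd.2 ⟨h1, h2⟩)) hs
  exact this.measurableSet

open Classical in
theorem Q_inactive (u : List ℕ) : Q (Fin 3 × ℤ) (OccS u ∩ {s | DD u ≤
    2 * ((Finset.range (DD u)).filter fun d => ¬ ActD s u 0 d).card}) ≤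
      Q (Fin 3 × ℤ) (OccS u) * (2⁻¹) ^ 5 := by
  obtain ⟨K, hK⟩ : ∃ K, DD u = 2 * K := ⟨2 ^ (4 * Encodable.encode u + 39), by
    unfold DD; rw [← pow_succ']⟩
  have hKpos : 0 < K := by have := DD_pos u; omega
  have h1 := markov_count (Q (Fin 3 × ℤ)) (Finset.range (DD u)) (fun d => {s | ¬ ActD s u 0 d})
    (fun d _ => (measurableSet_ActD u 0 d).compl) (OccS u)
    (fun _ => Q (Fin 3 × ℤ) (OccS u) * (2⁻¹) ^ 6)
    (fun d hd => Q_not_ActD u (Finset.mem_range.1 hd)) K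
  rw [Finset.sum_const, Finset.card_range, nsmul_eq_mul, hK] at h1
  have h2 : ((2 * K : ℕ) : ℝ≥0∞) * (Q (Fin 3 × ℤ) (OccS u) * (2⁻¹) ^ 6) =
      K * (Q (Fin 3 × ℤ) (OccS u) * (2⁻¹) ^ 5) := by
    push_cast
    rw [pow_succ _ 5]
    calc (2 : ℝ≥0∞) * K * (Q (Fin 3 × ℤ) (OccS u) * (2⁻¹ ^ 5 * 2⁻¹)) =
        K * (Q (Fin 3 × ℤ) (OccS u) * 2⁻¹ ^ 5) * (2 * 2⁻¹) := by ring
      _ = _ := by rw [ENNReal.mul_inv_cancel (by simp) (by simp), mul_one]
  rw [h2] at h1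
  have h3 := (ENNReal.mul_le_mul_iff_right (a := (K : ℝ≥0∞)) (by simp; omega)
    (ENNReal.natCast_ne_top _)).1 h1
  refine (measure_mono ?_).trans h3
  refine inter_subset_inter_right _ fun s hs => ?_
  have hs : DD u ≤ 2 * ((Finset.range (DD u)).filter fun d => ¬ ActD s u 0 d).card := hs
  rw [hK] at hs
  have h5 : K ≤ ((Finset.range (2 * K)).filter fun d => ¬ ActD s u 0 d).card := by omega
  refine le_trans h5 (le_of_eq (congrArg Finset.card ?_))
  ext d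
  simp

end Pool.Agent.TH288.FI
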