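import Pool.Agent.TH288.FI.Base
import Pool.Agent.TH288.NB.Neg3

/-!
# Frames in a random skeleton
-/

set_option autoImplicit false

open MeasureTheory Set Filter
open scoped ENNReal Topology

namespace Pool.Agent.TH288.FI

/-- skeletons: three tracks of bits (headers, marks, classes) -/
abbrev Sk : Type := Fin 3 × ℤ → Bt

/-- number of relations of a frame -/
def DD (u : List ℕ) : ℕ := 2 ^ (4 * Encodable.encode u + 40)

/-- length of the run in a header -/
def mm (u : List ℕ) : ℕ := 12 * Encodable.encode u + 100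

/-- bucket lengths -/
def ell (k : ℕ) : ℕ := 2 ^ (3 * k + 7)

/-- sums of bucket lengths -/
def oo (k : ℕ) : ℕ := ∑ i ∈ Finset.range k, ell i

/-- start of the bucket `d` of region `k` -/
def bs (u : List ℕ) (k d : ℕ) : ℕ := DD u * (ell (Encodable.encode u) + oo k) + ell k * d

/-- length of a frame -/
def Len (u : List ℕ) : ℕ := bs u u.length 0

/-- bound for the extent of a frame -/
def Sg (e : ℕ) : ℕ := 2 ^ (7 * e + 49)

theorem ell_pos (k : ℕ) : 0 < ell k := by unfold ell; positivity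

theorem DD_pos (u : List ℕ) : 0 < DD u := by unfold DD; positivity

theorem oo_succ (k : ℕ) : oo (k + 1) = oo k + ell k := Finset.sum_range_succ _ _

theorem oo_le (k : ℕ) : oo k + 1 ≤ 2 ^ (3 * k + 7) := by
  induction k with
  | zero => simp [oo]
  | succ k ih =>
    rw [oo_succ]
    unfold ell
    have : 2 ^ (3 * (k + 1) + 7) = 2 ^ (3 * k + 7) * 8 := by
      rw [show 3 * (k + 1) + 7 = 3 * k + 7 + 3 by ring, pow_add]; norm_num
    omega

theorem bs_eq (u : List ℕ) (k d : ℕ) : bs u k d = bs u k 0 + ell k * d := by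
  unfold bs; simp

theorem bs_succ (u : List ℕ) (k : ℕ) : bs u (k + 1) 0 = bs u k 0 + DD u * ell k := by
  unfold bs; rw [oo_succ]; ring

theorem bs_mono (u : List ℕ) {k k' : ℕ} (h : k ≤ k') : bs u k 0 ≤ bs u k' 0 := by
  induction k', h using Nat.le_induction with
  | base => exact le_rfl
  | succ k' _ ih => rw [bs_succ]; omega

theorem bucket_lt {L d D x : ℕ} (hd : d < D) (hx : x < L) : L * d + x < D * L := by
  calc L * d + x < L * d + L := by omega
    _ = L * (d + 1) := by ring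
    _ ≤ L * D := Nat.mul_le_mul_left _ hd
    _ = D * L := by ring

theorem bs_lt (u : List ℕ) {k d x : ℕ} (hd : d < DD u) (hx : x < ell k) :
    bs u k d + x < bs u (k + 1) 0 := by
  rw [bs_eq, bs_succ]
  have := bucket_lt hd hx
  omega

theorem bs_lt_Len (u : List ℕ) {k d x : ℕ} (hk : k < u.length) (hd : d < DD u) (hx : x < ell k) :
    bs u k d + x < Len u :=
  (bs_lt u hd hx).trans_le (bs_mono u hk)

theorem eb_lt (u : List ℕ) {d x : ℕ} (hd : d < DD u) (hx : x < ell (Encodable.encode u)) :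
    ell (Encodable.encode u) * d + x < bs u 0 0 := by
  have := bucket_lt hd hx
  unfold bs oo
  simpa using this

theorem length_le_encode (u : List ℕ) : u.length ≤ Encodable.encode u :=
  (NB.le_encode_list u).1

theorem Len_le (u : List ℕ) : Len u + mm u + 2 ≤ Sg (Encodable.encode u) := by
  unfold Len bs mm Sg DD
  set e := Encodable.encode u with he
  have h1 := oo_le u.length
  have h2 : 2 ^ (3 * u.length + 7) ≤ 2 ^ (3 * e + 7) :=
    Nat.pow_le_pow_right (by norm_num) (by have := length_le_encode u; omega)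
  have h3 : ell e + oo u.length ≤ 2 ^ (3 * e + 8) := by
    have : 2 ^ (3 * e + 8) = 2 ^ (3 * e + 7) + 2 ^ (3 * e + 7) := by
      rw [show 3 * e + 8 = 3 * e + 7 + 1 by ring, pow_succ]; ring
    unfold ell
    omega
  have h4 : 2 ^ (4 * e + 40) * (ell e + oo u.length) ≤ 2 ^ (7 * e + 48) := by
    calc 2 ^ (4 * e + 40) * (ell e + oo u.length) ≤ 2 ^ (4 * e + 40) * 2 ^ (3 * e + 8) :=
          Nat.mul_le_mul_left _ h3
      _ = 2 ^ (7 * e + 48) := by rw [← pow_add]; congr 1; ring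
  have h5 : 12 * e + 102 ≤ 2 ^ (7 * e + 48) := by
    have h6 : e + 1 ≤ 2 ^ e := Nat.lt_two_pow_self
    have h7 : 2 ^ e * 2 ^ 48 ≤ 2 ^ (7 * e + 48) := by
      rw [← pow_add]; exact Nat.pow_le_pow_right (by norm_num) (by omega)
    have h8 : (e + 1) * 2 ^ 48 ≤ 2 ^ e * 2 ^ 48 := Nat.mul_le_mul_right _ h6
    have h9 : 12 * e + 102 ≤ (e + 1) * 2 ^ 48 := by norm_num; omega
    omega
  have h6 : 2 ^ (7 * e + 49) = 2 ^ (7 * e + 48) + 2 ^ (7 * e + 48) := by
    rw [show 7 * e + 49 = 7 * e + 48 + 1 by ring, pow_succ]; ring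
  simp only [mul_zero, add_zero]
  omega

theorem Sg_mono {e e' : ℕ} (h : e ≤ e') : Sg e ≤ Sg e' :=
  Nat.pow_le_pow_right (by norm_num) (by omega)

/-- translation of a skeleton -/
def tr (a : ℤ) (s : Sk) : Sk := fun p => s (p.1, p.2 + a)

theorem tr_apply (a : ℤ) (s : Sk) (τ : Fin 3) (j : ℤ) : tr a s (τ, j) = s (τ, j + a) := rfl

/-- header of a frame with anchor `a` -/
def Hd (s : Sk) (u : List ℕ) (a : ℤ) : Prop :=
  (∀ x : ℤ, a - mm u - 1 ≤ x → x < a - 1 → s (0, x) = 1) ∧ s (0, a - 1) = 0 ∧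
    s (0, a - mm u - 2) = 0

/-- positions covered by a frame -/
def Cov (u : List ℕ) (a j : ℤ) : Prop := a - (mm u : ℤ) - 2 ≤ j ∧ j < a + Len u

/-- marks of a frame -/
def Mk (s : Sk) (u : List ℕ) (a : ℤ) : Prop :=
  ∀ k < u.length, ∀ x : ℕ, x < DD u * ell k → u.getD k 0 + 1 ∣ x →
    s (1, a + (bs u k 0 : ℤ) + x) = 1

/-- class `k` at position `j` -/
def cls (s : Sk) (j : ℤ) (k : ℕ) : Prop := (∀ x : ℕ, x < k → s (2, j + x) = 1) ∧ s (2, j + k) = 0

/-- the bucket starting at `A` contains a position of class `k` -/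
def hc (s : Sk) (A : ℤ) (k : ℕ) : Prop := ∃ x : ℕ, x + k < ell k ∧ cls s (A + x) k

/-- the first position of class `k` in the bucket starting at `A` -/
noncomputable def pt (s : Sk) (A : ℤ) (k : ℕ) : ℤ :=
  A + (sInf {x : ℕ | x + k < ell k ∧ cls s (A + x) k} : ℕ)

/-- position `j`, for class at least `i`, is not used by a frame of smaller index -/
def Free (s : Sk) (u : List ℕ) (a j : ℤ) (i : ℕ) : Prop :=
  ∀ (u' : List ℕ) (a' : ℤ), Encodable.encode u' ≤ Encodable.encode u → i ≤ u'.length →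
    Hd s u' a' → Cov u' a' j → u' = u ∧ a' = a

/-- the frame is alive -/
def Alive (s : Sk) (u : List ℕ) (a : ℤ) : Prop :=
  Hd s u a ∧ Mk s u a ∧
  (∀ d < DD u, hc s (a + (ell (Encodable.encode u) * d : ℕ)) (Encodable.encode u)) ∧
  (∀ a' j : ℤ, Hd s u a' → Cov u a' j → Cov u a j → a' = a)

/-- the relation `d` of the frame is active -/
def ActD (s : Sk) (u : List ℕ) (a : ℤ) (d : ℕ) : Prop :=
  d < DD u ∧ ∀ k < u.length, (∀ x < ell k, Free s u a (a + (bs u k d : ℕ) + (x : ℕ)) (k + 1)) ∧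
    hc s (a + (bs u k d : ℕ)) k

/-- active relations -/
def Act (s : Sk) (u : List ℕ) (a : ℤ) (d : ℕ) : Prop := Alive s u a ∧ ActD s u a d

/-- pivots -/
noncomputable def piv (s : Sk) (u : List ℕ) (a : ℤ) (d k : ℕ) : ℤ := pt s (a + (bs u k d : ℕ)) k

/-- position of the extra bit -/
noncomputable def eps (s : Sk) (u : List ℕ) (a : ℤ) (d : ℕ) : ℤ :=
  pt s (a + (ell (Encodable.encode u) * d : ℕ)) (Encodable.encode u)

theorem cls_unique {s : Sk} {j : ℤ} {k k' : ℕ} (h : cls s j k) (h' : cls s j k') : k = k' := by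
  rcases lt_trichotomy k k' with hlt | heq | hgt
  · have h1 := h'.1 k hlt
    rw [h.2] at h1
    exact absurd h1 (by decide)
  · exact heq
  · have h1 := h.1 k' hgt
    rw [h'.2] at h1
    exact absurd h1 (by decide)

theorem pt_spec {s : Sk} {A : ℤ} {k : ℕ} (h : hc s A k) :
    ∃ x : ℕ, x + k < ell k ∧ pt s A k = A + x ∧ cls s (A + x) k := by
  have := Nat.sInf_mem (s := {x : ℕ | x + k < ell k ∧ cls s (A + x) k}) h
  exact ⟨_, this.1, rfl, this.2⟩

theorem cls_pt {s : Sk} {A : ℤ} {k : ℕ} (h : hc s A k) : cls s (pt s A k) k := by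
  obtain ⟨x, -, h2, h3⟩ := pt_spec h
  rw [h2]; exact h3

theorem pt_bounds {s : Sk} {A : ℤ} {k : ℕ} (h : hc s A k) : A ≤ pt s A k ∧ pt s A k + k < A + ell k := by
  obtain ⟨x, h1, h2, -⟩ := pt_spec h
  rw [h2]
  constructor <;> omega

theorem cls_congr {s s' : Sk} {j : ℤ} {k : ℕ}
    (h : ∀ x : ℤ, j ≤ x → x ≤ j + k → s (2, x) = s' (2, x)) (hc : cls s j k) : cls s' j k := by
  refine ⟨fun x hx => ?_, ?_⟩
  · rw [← h _ (by omega) (by omega)]; exact hc.1 x hx
  · rw [← h _ (by omega) (by omega)]; exact hc.2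

theorem hc_congr {s s' : Sk} {A : ℤ} {k : ℕ}
    (h : ∀ x : ℤ, A ≤ x → x < A + ell k → s (2, x) = s' (2, x)) (hs : hc s A k) : hc s' A k := by
  obtain ⟨x, h1, h2⟩ := hs
  exact ⟨x, h1, cls_congr (fun y h3 h4 => h y (by omega) (by omega)) h2⟩

theorem pt_congr {s s' : Sk} {A : ℤ} {k : ℕ}
    (h : ∀ x : ℤ, A ≤ x → x < A + ell k → s (2, x) = s' (2, x)) : pt s A k = pt s' A k := by
  unfold pt
  congr 3
  ext x
  constructor
  · rintro ⟨h1, h2⟩
    exact ⟨h1, cls_congr (fun y h3 h4 => h y (by omega) (by omega)) h2⟩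
  · rintro ⟨h1, h2⟩
    exact ⟨h1, cls_congr (fun y h3 h4 => (h y (by omega) (by omega)).symm) h2⟩

/-! ### Bounds -/

theorem piv_bounds {s : Sk} {u : List ℕ} {a : ℤ} {d k : ℕ} (h : ActD s u a d) (hk : k < u.length) :
    a + (bs u k 0 : ℤ) ≤ piv s u a d k ∧ piv s u a d k + k < a + (bs u (k + 1) 0 : ℤ) := by
  have h1 := pt_bounds (h.2 k hk).2
  have h2 := bs_lt u (k := k) h.1 (x := ell k - 1) (by have := ell_pos k; omega)
  have h3 := bs_eq u k d
  have h4 := ell_pos k
  unfold piv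
  constructor
  · have : (bs u k 0 : ℤ) ≤ bs u k d := by rw [h3]; exact_mod_cast Nat.le_add_right _ _
    omega
  · omega

theorem eps_bounds {s : Sk} {u : List ℕ} {a : ℤ} {d : ℕ} (h : Alive s u a) (hd : d < DD u) :
    a ≤ eps s u a d ∧ eps s u a d + (Encodable.encode u : ℤ) < a + (bs u 0 0 : ℤ) := by
  have h1 := pt_bounds (h.2.2.1 d hd)
  have h2 := eb_lt u hd (x := ell (Encodable.encode u) - 1)
    (by have := ell_pos (Encodable.encode u); omega)
  have h4 := ell_pos (Encodable.encode u)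
  unfold eps
  constructor
  · omega
  · omega

theorem bs_zero_le_Len (u : List ℕ) : bs u 0 0 ≤ Len u := bs_mono u (Nat.zero_le _)

theorem Cov_of {u : List ℕ} {a j : ℤ} (h0 : a ≤ j) (h1 : j < a + Len u) : Cov u a j :=
  ⟨by omega, h1⟩

theorem Cov_piv {s : Sk} {u : List ℕ} {a : ℤ} {d k : ℕ} (h : ActD s u a d) (hk : k < u.length) :
    Cov u a (piv s u a d k) := by
  have h1 := piv_bounds h hk
  have h2 : bs u (k + 1) 0 ≤ Len u := bs_mono u hk
  exact Cov_of (by omega) (by omega)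

theorem Cov_eps {s : Sk} {u : List ℕ} {a : ℤ} {d : ℕ} (h : Alive s u a) (hd : d < DD u) :
    Cov u a (eps s u a d) := by
  have h1 := eps_bounds h hd
  have h2 := bs_zero_le_Len u
  exact Cov_of (by omega) (by omega)

theorem bucket_inj {L d d' x x' : ℕ} (hx : x < L) (hx' : x' < L) (h : L * d + x = L * d' + x') :
    d = d' := by
  rcases lt_trichotomy d d' with hlt | heq | hgt
  · have : L * (d + 1) ≤ L * d' := Nat.mul_le_mul_left _ hlt
    rw [mul_add] at this; omega
  · exact heq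
  · have : L * (d' + 1) ≤ L * d := Nat.mul_le_mul_left _ hgt
    rw [mul_add] at this; omega

/-- pivots of active relations are distinct -/
theorem piv_inj {s : Sk} {u u' : List ℕ} {a a' : ℤ} {d d' k k' : ℕ} (h : Act s u a d)
    (h' : Act s u' a' d') (hk : k < u.length) (hk' : k' < u'.length)
    (heq : piv s u a d k = piv s u' a' d' k') : u = u' ∧ a = a' ∧ d = d' ∧ k = k' := by
  have key : ∀ (u u' : List ℕ) (a a' : ℤ) (d d' k k' : ℕ), Act s u a d → Act s u' a' d' →
      k < u.length → k' < u'.length → piv s u a d k = piv s u' a' d' k' →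
      Encodable.encode u' ≤ Encodable.encode u → u' = u ∧ a' = a := by
    intro u u' a a' d d' k k' h h' hk hk' heq hle
    have c1 := cls_pt (h.2.2 k hk).2
    have c2 := cls_pt (h'.2.2 k' hk').2
    have c3 : k = k' := by
      have e1 : pt s (a + (bs u k d : ℕ)) k = pt s (a' + (bs u' k' d' : ℕ)) k' := heq
      rw [e1] at c1
      exact cls_unique c1 c2
    obtain ⟨x, x1, x2, -⟩ := pt_spec (h.2.2 k hk).2
    have hfree := (h.2.2 k hk).1 x (by omega) u' a' hle (by omega) h'.1.1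
    rw [← x2] at hfree
    refine hfree ?_
    have e1 : pt s (a + (bs u k d : ℕ)) k = piv s u' a' d' k' := heq
    rw [e1]
    exact Cov_piv h'.2 hk'
  have hua : u = u' ∧ a = a' := by
    rcases le_total (Encodable.encode u') (Encodable.encode u) with hle | hle
    · have := key u u' a a' d d' k k' h h' hk hk' heq hle
      exact ⟨this.1.symm, this.2.symm⟩
    · exact key u' u a' a d' d k' k h' h hk' hk heq.symm hle
  obtain ⟨rfl, rfl⟩ := hua
  have c1 := cls_pt (h.2.2 k hk).2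
  have c2 := cls_pt (h'.2.2 k' hk').2
  have e1 : pt s (a + (bs u k d : ℕ)) k = pt s (a + (bs u k' d' : ℕ)) k' := heq
  rw [e1] at c1
  have c3 := cls_unique c1 c2
  subst c3
  obtain ⟨x, x1, x2, -⟩ := pt_spec (h.2.2 k hk).2
  obtain ⟨x', x1', x2', -⟩ := pt_spec (h'.2.2 k hk').2
  rw [x2, x2'] at e1
  have b1 := bs_eq u k d
  have b2 := bs_eq u k d'
  refine ⟨rfl, rfl, bucket_inj (L := ell k) (x := x) (x' := x') (by omega) (by omega) ?_, rfl⟩
  omega

/-- extra positions of active relations are distinct -/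
theorem eps_inj {s : Sk} {u u' : List ℕ} {a a' : ℤ} {d d' : ℕ} (h : Act s u a d)
    (h' : Act s u' a' d') (heq : eps s u a d = eps s u' a' d') : u = u' ∧ a = a' ∧ d = d' := by
  have c1 := cls_pt (h.1.2.2.1 d h.2.1)
  have c2 := cls_pt (h'.1.2.2.1 d' h'.2.1)
  have e1 : pt s (a + (ell (Encodable.encode u) * d : ℕ)) (Encodable.encode u) =
    pt s (a' + (ell (Encodable.encode u') * d' : ℕ)) (Encodable.encode u') := heq
  rw [e1] at c1
  have c3 := Encodable.encode_injective (cls_unique c1 c2)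
  subst c3
  have v1 := Cov_eps h.1 h.2.1
  have v2 := Cov_eps h'.1 h'.2.1
  rw [heq] at v1
  have c4 := h.1.2.2.2 a' _ h'.1.1 v2 v1
  subst c4
  obtain ⟨x, x1, x2, -⟩ := pt_spec (h.1.2.2.1 d h.2.1)
  obtain ⟨x', x1', x2', -⟩ := pt_spec (h'.1.2.2.1 d' h'.2.1)
  rw [x2, x2'] at e1
  refine ⟨rfl, rfl, bucket_inj (L := ell (Encodable.encode u)) (x := x) (x' := x')
    (by omega) (by omega) ?_⟩
  omega

/-! ### Transfer -/

theorem Hd_congr {s s' : Sk} {u : List ℕ} {a : ℤ}
    (h : ∀ x : ℤ, a - mm u - 2 ≤ x → x < a → s (0, x) = s' (0, x)) (hs : Hd s u a) : Hd s' u a := by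
  obtain ⟨h1, h2, h3⟩ := hs
  refine ⟨fun x hx1 hx2 => ?_, ?_, ?_⟩
  · rw [← h x (by omega) (by omega)]; exact h1 x hx1 hx2
  · rw [← h _ (by omega) (by omega)]; exact h2
  · rw [← h _ (by omega) (by omega)]; exact h3

theorem Free_congr {s s' : Sk} {u : List ℕ} {a j : ℤ} {i : ℕ}
    (h : ∀ (u' : List ℕ) (a' : ℤ), Encodable.encode u' ≤ Encodable.encode u → Cov u' a' j →
      Hd s' u' a' → Hd s u' a') (hs : Free s u a j i) : Free s' u a j i :=
  fun u' a' h1 h2 h3 h4 => hs u' a' h1 h2 (h u' a' h1 h4 h3) h4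

theorem Alive_congr {s s' : Sk} {u : List ℕ} {a : ℤ}
    (h0 : Hd s' u a)
    (h1 : ∀ (a' : ℤ) (j : ℤ), Cov u a' j → Cov u a j → Hd s' u a' → Hd s u a')
    (h2 : ∀ (τ : Fin 3) (x : ℤ), a ≤ x → x < a + Len u → s (τ, x) = s' (τ, x))
    (hs : Alive s u a) : Alive s' u a := by
  obtain ⟨-, g1, g2, g3⟩ := hs
  refine ⟨h0, fun k hk x hx hdv => ?_, fun d hd => ?_, fun a' j hHd hc1 hc2 => ?_⟩
  · have b1 : bs u k 0 + x < Len u := by
      have e1 := bs_succ u k
      have e2 : bs u (k + 1) 0 ≤ Len u := bs_mono u hk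
      omega
    rw [← h2 1 _ (by omega) (by omega)]
    exact g1 k hk x hx hdv
  · refine hc_congr (fun x hx1 hx2 => ?_) (g2 d hd)
    have b1 := eb_lt u hd (x := ell (Encodable.encode u) - 1)
      (by have := ell_pos (Encodable.encode u); omega)
    have b2 := ell_pos (Encodable.encode u)
    have b3 := bs_zero_le_Len u
    exact h2 2 x (by omega) (by omega)
  · exact g3 a' j (h1 a' j hc1 hc2 hHd) hc1 hc2

theorem ActD_congr {s s' : Sk} {u : List ℕ} {a : ℤ} {d : ℕ}
    (h1 : ∀ (u' : List ℕ) (a' : ℤ) (j : ℤ), Encodable.encode u' ≤ Encodable.encode u →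
      a + bs u 0 0 ≤ j → j < a + Len u → Cov u' a' j → Hd s' u' a' → Hd s u' a')
    (h2 : ∀ (τ : Fin 3) (x : ℤ), a + bs u 0 0 ≤ x → x < a + Len u → s (τ, x) = s' (τ, x))
    (hs : ActD s u a d) : ActD s' u a d := by
  obtain ⟨g1, g2⟩ := hs
  refine ⟨g1, fun k hk => ⟨fun x hx => ?_, ?_⟩⟩
  · have b1 := bs_lt_Len u hk g1 hx
    have b2 := bs_eq u k d
    have b3 := bs_mono u (Nat.zero_le k)
    refine Free_congr (fun u' a' e1 e2 e3 => ?_) ((g2 k hk).1 x hx)
    exact h1 u' a' _ e1 (by omega) (by omega) e2 e3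
  · refine hc_congr (fun x hx1 hx2 => ?_) (g2 k hk).2
    have b0 := ell_pos k
    have b1 := bs_lt_Len u hk g1 (x := ell k - 1) (by omega)
    have b2 := bs_eq u k d
    have b3 := bs_mono u (Nat.zero_le k)
    exact h2 2 x (by omega) (by omega)

theorem piv_congr {s s' : Sk} {u : List ℕ} {a : ℤ} {d k : ℕ} (hd : d < DD u) (hk : k < u.length)
    (h2 : ∀ (τ : Fin 3) (x : ℤ), a + bs u 0 0 ≤ x → x < a + Len u → s (τ, x) = s' (τ, x)) :
    piv s u a d k = piv s' u a d k := by
  refine pt_congr fun x hx1 hx2 => ?_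
  have b0 := ell_pos k
  have b1 := bs_lt_Len u hk hd (x := ell k - 1) (by omega)
  have b2 := bs_eq u k d
  have b3 := bs_mono u (Nat.zero_le k)
  exact h2 2 x (by omega) (by omega)

theorem eps_congr {s s' : Sk} {u : List ℕ} {a : ℤ} {d : ℕ} (hd : d < DD u)
    (h2 : ∀ (τ : Fin 3) (x : ℤ), a ≤ x → x < a + Len u → s (τ, x) = s' (τ, x)) :
    eps s u a d = eps s' u a d := by
  refine pt_congr fun x hx1 hx2 => ?_
  have b1 := eb_lt u hd (x := ell (Encodable.encode u) - 1)
    (by have := ell_pos (Encodable.encode u); omega)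
  have b2 := ell_pos (Encodable.encode u)
  have b3 := bs_zero_le_Len u
  exact h2 2 x (by omega) (by omega)

/-- activity is local -/
theorem Act_local {s s' : Sk} {u : List ℕ} {a : ℤ} {d : ℕ}
    (h : ∀ (τ : Fin 3) (x : ℤ), a - 2 * Sg (Encodable.encode u) ≤ x →
      x ≤ a + 2 * Sg (Encodable.encode u) → s (τ, x) = s' (τ, x)) (hs : Act s u a d) :
    Act s' u a d := by
  have hL := Len_le u
  have hHd : ∀ (u' : List ℕ) (a' j : ℤ), Encodable.encode u' ≤ Encodable.encode u →
      Cov u a j → Cov u' a' j → Hd s' u' a' → Hd s u' a' := by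
    intro u' a' j h1 h2 h3 h4
    have hL' := Len_le u'
    have hS := Sg_mono h1
    obtain ⟨c1, c2⟩ := h2
    obtain ⟨c3, c4⟩ := h3
    exact Hd_congr (fun x hx1 hx2 => (h 0 x (by omega) (by omega)).symm) h4
  refine ⟨Alive_congr ?_ ?_ ?_ hs.1, ActD_congr ?_ ?_ hs.2⟩
  · exact Hd_congr (fun x hx1 hx2 => h 0 x (by omega) (by omega)) hs.1.1
  · intro a' j h1 h2 h3
    exact hHd u a' j le_rfl h2 h1 h3
  · intro τ x hx1 hx2
    exact h τ x (by omega) (by omega)
  · intro u' a' j h1 h2 h3 h4 h5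
    exact hHd u' a' j h1 (Cov_of (by omega) h3) h4 h5
  · intro τ x hx1 hx2
    exact h τ x (by omega) (by omega)

/-! ### Translation -/

theorem Hd_tr {s : Sk} {u : List ℕ} {a b : ℤ} : Hd (tr b s) u a ↔ Hd s u (a + b) := by
  unfold Hd tr
  simp only
  have e1 : a - 1 + b = a + b - 1 := by ring
  have e2 : a - mm u - 2 + b = a + b - mm u - 2 := by ring
  rw [e1, e2]
  refine and_congr_left fun _ => ⟨fun h x hx1 hx2 => ?_, fun h x hx1 hx2 => ?_⟩
  · have := h (x - b) (by omega) (by omega)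
    rwa [sub_add_cancel] at this
  · exact h (x + b) (by omega) (by omega)

theorem Cov_tr {u : List ℕ} {a j b : ℤ} : Cov u (a + b) (j + b) ↔ Cov u a j := by
  unfold Cov; constructor <;> rintro ⟨h1, h2⟩ <;> constructor <;> omega

theorem cls_tr {s : Sk} {j b : ℤ} {k : ℕ} : cls (tr b s) j k ↔ cls s (j + b) k := by
  unfold cls tr
  simp only
  have e2 : j + k + b = j + b + k := by ring
  rw [e2]
  refine and_congr_left fun _ => forall_congr' fun x => ?_
  have e1 : j + x + b = j + b + x := by ring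
  rw [e1]

theorem hc_tr {s : Sk} {A b : ℤ} {k : ℕ} : hc (tr b s) A k ↔ hc s (A + b) k := by
  unfold hc
  refine exists_congr fun x => ?_
  have e1 : A + x + b = A + b + x := by ring
  rw [cls_tr, e1]

theorem pt_tr {s : Sk} {A b : ℤ} {k : ℕ} : pt (tr b s) A k + b = pt s (A + b) k := by
  unfold pt
  have : {x : ℕ | x + k < ell k ∧ cls (tr b s) (A + x) k} =
      {x : ℕ | x + k < ell k ∧ cls s (A + b + x) k} := by
    ext x
    have e1 : A + x + b = A + b + x := by ring
    show _ ∧ _ ↔ _ ∧ _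
    rw [cls_tr, e1]
  rw [this]; ring

theorem Free_tr {s : Sk} {u : List ℕ} {a j b : ℤ} {i : ℕ} :
    Free (tr b s) u a j i ↔ Free s u (a + b) (j + b) i := by
  unfold Free
  constructor
  · intro h u' a' h1 h2 h3 h4
    have e1 : a' = (a' - b) + b := by ring
    have h5 := h u' (a' - b) h1 h2 (by rw [Hd_tr]; rwa [← e1]) (by
      rw [← Cov_tr (b := b)]; rwa [← e1])
    exact ⟨h5.1, by omega⟩
  · intro h u' a' h1 h2 h3 h4
    have h5 := h u' (a' + b) h1 h2 (Hd_tr.1 h3) (Cov_tr.2 h4)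
    exact ⟨h5.1, by omega⟩

theorem Act_tr {s : Sk} {u : List ℕ} {a b : ℤ} {d : ℕ} :
    Act (tr b s) u a d ↔ Act s u (a + b) d := by
  unfold Act
  refine and_congr ?_ ?_
  · unfold Alive
    refine and_congr Hd_tr (and_congr ?_ (and_congr ?_ ?_))
    · unfold Mk tr
      simp only
      refine forall_congr' fun k => forall_congr' fun _ => forall_congr' fun x =>
        forall_congr' fun _ => forall_congr' fun _ => ?_
      have e1 : a + (bs u k 0 : ℤ) + x + b = a + b + (bs u k 0 : ℤ) + x := by ring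
      rw [e1]
    · refine forall_congr' fun d => forall_congr' fun _ => ?_
      rw [hc_tr]
      have e1 : a + ((ell (Encodable.encode u) * d : ℕ) : ℤ) + b =
        a + b + ((ell (Encodable.encode u) * d : ℕ) : ℤ) := by ring
      rw [e1]
    · constructor
      · intro h a' j h1 h2 h3
        have e1 : a' = (a' - b) + b := by ring
        have e2 : j = (j - b) + b := by ring
        have h5 := h (a' - b) (j - b) (by rw [Hd_tr]; rwa [← e1])
          (by rw [← Cov_tr (b := b)]; rwa [← e1, ← e2])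
          (by rw [← Cov_tr (b := b)]; rwa [← e2])
        omega
      · intro h a' j h1 h2 h3
        have h5 := h (a' + b) (j + b) (Hd_tr.1 h1) (Cov_tr.2 h2) (Cov_tr.2 h3)
        omega
  · unfold ActD
    refine and_congr_right fun _ => forall_congr' fun k => forall_congr' fun _ => and_congr ?_ ?_
    · refine forall_congr' fun x => forall_congr' fun _ => ?_
      rw [Free_tr]
      have e1 : a + ((bs u k d : ℕ) : ℤ) + ((x : ℕ) : ℤ) + b =
        a + b + ((bs u k d : ℕ) : ℤ) + ((x : ℕ) : ℤ) := by ring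
      rw [e1]
    · rw [hc_tr]
      have e1 : a + ((bs u k d : ℕ) : ℤ) + b = a + b + ((bs u k d : ℕ) : ℤ) := by ring
      rw [e1]

theorem piv_tr {s : Sk} {u : List ℕ} {a b : ℤ} {d k : ℕ} :
    piv (tr b s) u a d k + b = piv s u (a + b) d k := by
  unfold piv
  rw [pt_tr]
  congr 1
  ring

theorem eps_tr {s : Sk} {u : List ℕ} {a b : ℤ} {d : ℕ} :
    eps (tr b s) u a d + b = eps s u (a + b) d := by
  unfold eps
  rw [pt_tr]
  congr 1
  ring

end Pool.Agent.TH288.FI
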