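import Pool.Agent.TH288.FI.Prob
import Pool.Agent.TH288.FI.Pos

/-!
# Undecided positions in the regions of a frame
-/

set_option autoImplicit false

open MeasureTheory Set Filter
open scoped ENNReal Topology

namespace Pool.Agent.TH288.FI

open Pool.Agent.TH288.NB (shn measurable_shn P P_cyl cyl unif unif_singleton Obs
  measurableSet_window)

attribute [local irreducible] DD ell Sg mm

section Und

variable {β γ : Type*} (X₀ : Set (ℤ → β)) (φ : (ℤ → β) → (ℤ → γ))

/-- undecided at radius `r` -/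
def Und (r : ℕ) (x : ℤ → β) : Prop :=
  ¬ ∃ c : γ, ∀ y ∈ X₀, (∀ j : ℤ, |j| ≤ (r : ℤ) → y j = x j) → φ y 0 = c

theorem Und_congr {r : ℕ} {x x' : ℤ → β} (h : ∀ j : ℤ, |j| ≤ (r : ℤ) → x j = x' j)
    (hx : Und X₀ φ r x) : Und X₀ φ r x' := by
  rintro ⟨c, hc⟩
  exact hx ⟨c, fun y hy hyx => hc y hy fun j hj => by rw [hyx j hj, h j hj]⟩

theorem measurableSet_Und [Fintype β] [MeasurableSpace β] [MeasurableSingletonClass β] (r : ℕ) :
    MeasurableSet {x | Und X₀ φ r x} :=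
  measurableSet_window r _ fun _ _ hxy hx => Und_congr X₀ φ (fun j hj => (hxy j hj).symm) hx

theorem exists_radius [Fintype β] [MeasurableSpace β] [MeasurableSingletonClass β]
    (μ : Measure (ℤ → β)) [IsProbabilityMeasure μ] (hX : μ X₀ᶜ = 0)
    (hfin : ∀ x ∈ X₀, ∃ n : ℕ, ∀ y ∈ X₀, (∀ i : ℤ, |i| ≤ (n : ℤ) → y i = x i) → φ y 0 = φ x 0)
    (ε : ℝ≥0∞) (hε : 0 < ε) : ∃ r : ℕ, μ {x | Und X₀ φ r x} ≤ ε := by
  have hanti : Antitone fun r : ℕ => {x | Und X₀ φ r x} := by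
    intro r r' hrr x hx
    rintro ⟨b, hb⟩
    exact hx ⟨b, fun y hy hyx => hb y hy fun j hj => hyx j (hj.trans (by exact_mod_cast hrr))⟩
  have hlim := tendsto_measure_iInter_atTop (μ := μ)
    (fun r => (measurableSet_Und X₀ φ r).nullMeasurableSet) hanti ⟨0, measure_ne_top _ _⟩
  have h0 : μ (⋂ r : ℕ, {x | Und X₀ φ r x}) = 0 := by
    refine measure_mono_null ?_ hX
    intro z hz hmem
    obtain ⟨n, hn⟩ := hfin _ hmem
    exact (mem_iInter.1 hz n) ⟨_, hn⟩
  rw [h0] at hlim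
  have := hlim.eventually (Iic_mem_nhds hε)
  rw [Filter.eventually_atTop] at this
  obtain ⟨r, hr⟩ := this
  exact ⟨r, hr r le_rfl⟩

end Und

/-- independence of an event of the skeleton and an event of both coordinates -/
theorem prod_indep {F G : Finset (Fin 3 × ℤ)} (hd : Disjoint F G) {A : Set Sk} (hA : Dep F A)
    {B : Set (Sk × (ℤ → Bt))} (hB : MeasurableSet B) (hBd : ∀ b, Dep G {s | (s, b) ∈ B}) :
    PP (A ×ˢ univ ∩ B) = Q (Fin 3 × ℤ) A * PP B := by
  have hm : MeasurableSet (A ×ˢ (univ : Set (ℤ → Bt)) ∩ B) :=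
    (hA.measurableSet.prod MeasurableSet.univ).inter hB
  unfold PP
  rw [Measure.prod_apply_symm hm, Measure.prod_apply_symm hB, ← lintegral_const_mul]
  · refine lintegral_congr fun b => ?_
    have h1 : (fun x : Sk => (x, b)) ⁻¹' (A ×ˢ univ ∩ B) = A ∩ {s | (s, b) ∈ B} := by
      ext s; simp
    rw [h1]
    exact Q_inter hd hA (hBd b)
  · exact measurable_measure_prodMk_right hB

/-- good locations: far from the marks and the ends of the region -/
def GLo (u : List ℕ) (k w p : ℕ) : Prop :=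
  ∀ i : ℤ, |i| ≤ (w : ℤ) → 0 ≤ (p : ℤ) + i ∧ (p : ℤ) + i < (DD u * ell k : ℕ) ∧
    ¬ ((u.getD k 0 : ℤ) + 1) ∣ ((p : ℤ) + i)

theorem disjoint_FO_Wd {u : List ℕ} {k w p : ℕ} (hG : GLo u k w p) :
    Disjoint (FO u) (Wd ((bs u k 0 : ℤ) + p - w) ((bs u k 0 : ℤ) + p + w)) := by
  classical
  rw [Finset.disjoint_left]
  rintro ⟨τ, x⟩ h1 h2
  rw [mem_Wd] at h2
  obtain ⟨h3, h4⟩ := h2
  obtain ⟨g1, g2, g3⟩ := hG (x - ((bs u k 0 : ℤ) + p)) (by rw [abs_le]; constructor <;> omega)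
  have e1 : (p : ℤ) + (x - ((bs u k 0 : ℤ) + p)) = x - bs u k 0 := by ring
  rw [e1] at g1 g2 g3
  unfold FO at h1
  rw [Finset.mem_union, Finset.mem_product, Finset.mem_product, Finset.mem_Icc] at h1
  rcases h1 with h1 | h1
  · have := h1.2.2
    simp only at this
    have : (0 : ℤ) ≤ bs u k 0 := by positivity
    omega
  · have h5 : x ∈ MF u := h1.2
    unfold MF at h5
    rw [Finset.mem_biUnion] at h5
    obtain ⟨k', hk', h6⟩ := h5
    rw [Finset.mem_image] at h6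
    obtain ⟨i, hi, rfl⟩ := h6
    rw [Finset.mem_range, Nat.lt_succ_iff, Nat.le_div_iff_mul_le (by omega)] at hi
    rcases lt_trichotomy k' k with hlt | heq | hgt
    · have b1 := bs_mono u hlt
      have b2 := bs_succ u k'
      have b3 : (bs u k' 0 : ℤ) + ((i * (u.getD k' 0 + 1) : ℕ) : ℤ) - bs u k 0 = 0 := by
        have : bs u k' 0 + i * (u.getD k' 0 + 1) ≤ bs u k 0 := by
          rw [b2] at b1
          omega
        omega
      rw [b3] at g3
      exact g3 (dvd_zero _)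
    · subst heq
      refine g3 ?_
      have : (bs u k' 0 : ℤ) + ((i * (u.getD k' 0 + 1) : ℕ) : ℤ) - bs u k' 0 =
        ((u.getD k' 0 : ℤ) + 1) * i := by push_cast; ring
      rw [this]
      exact dvd_mul_right _ _
    · have b1 := bs_mono u hgt
      have b2 := bs_succ u k
      have b3 : (0 : ℤ) ≤ ((i * (u.getD k' 0 + 1) : ℕ) : ℤ) := by positivity
      have b4 : (bs u (k + 1) 0 : ℤ) ≤ bs u k' 0 := by exact_mod_cast b1
      have b5 : (bs u (k + 1) 0 : ℤ) = bs u k 0 + ((DD u * ell k : ℕ) : ℤ) := by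
        exact_mod_cast b2
      omega

section Region

variable (X₀ : Set (ℤ → Fin 32)) (φ : (ℤ → Fin 32) → (ℤ → Fin 16))

theorem und_prob {T : Set (List ℕ)} (hT0 : ∀ v ∈ T, 0 < v.length) {u : List ℕ}
    (hlen : 2 ≤ u.length) {k : ℕ} (hk : k < u.length) {p r E : ℕ}
    (hG : GLo u k (r + 3 * Sg E) p) (ε : ℝ≥0∞)
    (hε : (PP.map (Psi T fun _ => 0)) {x | Und X₀ φ r x} ≤ ε)
    (hr : ((2 * r + 1 : ℕ) : ℝ≥0∞) * (2⁻¹) ^ (4 * (E + 1) + 50) ≤ ε) :
    PP ((OccS u ×ˢ univ) ∩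
      {ω | Und X₀ φ r (shn ((bs u k 0 : ℤ) + p) (Psi T (fun _ => 0) ω))}) ≤
      Q (Fin 3 × ℤ) (OccS u) * (3 * ε) := by
  classical
  set j : ℤ := (bs u k 0 : ℤ) + p with hj
  set q : List ℕ → ℕ := fun v => if v = u ∧ k = 0 then 1 else 0 with hq
  have hq1 : ∀ v ∈ T, q v < v.length := by
    intro v hv
    simp only [hq]
    split_ifs with h
    · rw [h.1]; omega
    · exact hT0 v hv
  have hqu : q u ≠ k ∧ q u < u.length := by
    simp only [hq]
    split_ifs with h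
    · exact ⟨by omega, by omega⟩
    · constructor
      · intro h2; exact h ⟨trivial, h2.symm⟩
      · omega
  set T' := Tr T E with hT'
  have hq2 : ∀ v ∈ T', q v < v.length := fun v hv => hq1 v hv.1
  have hm1 := measurable_Psi (T := T) (q := fun _ => 0) hT0
  have hm2 := measurable_Psi hq1
  have hm3 := measurable_Psi hq2
  have hU := measurableSet_Und X₀ φ r
  have hUj : MeasurableSet {x : ℤ → Fin 32 | Und X₀ φ r (shn j x)} := (measurable_shn j) hU
  have hOm : MeasurableSet (OccS u) := (Dep_Occ u).measurableSet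
  -- step 1: change of pivots
  have s1 : PP ((OccS u ×ˢ univ) ∩ {ω | Und X₀ φ r (shn j (Psi T (fun _ => 0) ω))}) =
      PP ((OccS u ×ˢ univ) ∩ {ω | Und X₀ φ r (shn j (Psi T q ω))}) := by
    have hS : MeasurableSet (skA ⁻¹' (OccS u) ∩ {x : ℤ → Fin 32 | Und X₀ φ r (shn j x)}) :=
      (measurable_skA hOm).inter hUj
    have h1 := Measure.map_apply (μ := PP) hm1 hS
    have h2 := Measure.map_apply (μ := PP) hm2 hS
    rw [law_Psi hT0 hq1] at h1
    have h3 : ∀ q' : List ℕ → ℕ, Psi T q' ⁻¹' (skA ⁻¹' (OccS u) ∩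
        {x : ℤ → Fin 32 | Und X₀ φ r (shn j x)}) =
        (OccS u ×ˢ univ) ∩ {ω | Und X₀ φ r (shn j (Psi T q' ω))} := by
      intro q'
      ext ω
      constructor
      · rintro ⟨g1, g2⟩
        have g1 : skA (Psi T q' ω) ∈ OccS u := g1
        rw [skA_Psi] at g1
        exact ⟨⟨g1, mem_univ _⟩, g2⟩
      · rintro ⟨g1, g2⟩
        refine ⟨?_, g2⟩
        show skA (Psi T q' ω) ∈ OccS u
        rw [skA_Psi]; exact g1.1
    rw [h3] at h1 h2
    rw [← h1, ← h2]
  -- step 2: truncation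
  set NJ : Set Sk := {s | ∃ i ∈ Finset.Icc (-(r : ℤ)) r, ∃ u' a', ¬ (u' = u ∧ a' = 0) ∧
    E + 1 ≤ Encodable.encode u' ∧ Hd s u' a' ∧ Cov u' a' (j + i)} with hNJ
  have s2 : (OccS u ×ˢ univ) ∩ {ω | Und X₀ φ r (shn j (Psi T q ω))} ⊆
      ((OccS u ∩ NJ) ×ˢ univ) ∪ ((OccS u ×ˢ univ) ∩ {ω | Und X₀ φ r (shn j (Psi T' q ω))}) := by
    rintro ⟨s, b⟩ ⟨⟨g1, -⟩, g2⟩
    have g1 : s ∈ OccS u := g1
    by_cases hs : s ∈ NJ
    · exact Or.inl ⟨⟨g1, hs⟩, mem_univ _⟩
    · refine Or.inr ⟨⟨g1, mem_univ _⟩, ?_⟩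
      refine Und_congr X₀ φ (fun i hi => ?_) g2
      have hi' := abs_le.1 hi
      show Psi T q (s, b) (i + j) = Psi T' q (s, b) (i + j)
      refine Psi_T_congr hq1 hq2 fun v a d hv hact htouch => ?_
      have hvT : v ∈ T := by
        rcases hv with hv | hv
        · exact hv
        · exact hv.1
      have hGi := hG i (by push_cast; omega)
      have b1 : bs u 0 0 ≤ bs u k 0 := bs_mono u (Nat.zero_le _)
      have b2 := bs_succ u k
      have b3 : (bs u (k + 1) 0 : ℤ) = bs u k 0 + ((DD u * ell k : ℕ) : ℤ) := by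
        exact_mod_cast b2
      refine ⟨fun _ => ⟨hvT, ?_⟩, fun _ => hvT⟩
      by_contra hlt
      push Not at hlt
      have hcov : Cov v a (i + j) := by
        rcases htouch with h | h
        · rw [← h]; exact Cov_piv hact.2 (hq1 v hvT)
        · rw [← h]; exact Cov_eps hact.1 hact.2.1
      by_cases hva : v = u ∧ a = 0
      · obtain ⟨rfl, rfl⟩ := hva
        rcases htouch with h | h
        · have h5 := piv_bounds hact.2 hqu.2
          rw [h] at h5
          rcases lt_or_gt_of_ne hqu.1 with h6 | h6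
          · have h7 : bs v (q v + 1) 0 ≤ bs v k 0 := bs_mono v h6
            omega
          · have h7 : bs v (k + 1) 0 ≤ bs v (q v) 0 := bs_mono v h6
            omega
        · have h5 := eps_bounds hact.1 hact.2.1
          rw [h] at h5
          omega
      · refine hs ⟨i, Finset.mem_Icc.2 hi', v, a, hva, hlt, hact.1.1, ?_⟩
        rw [add_comm]; exact hcov
  -- step 3
  have s3 : Q (Fin 3 × ℤ) (OccS u ∩ NJ) ≤ Q (Fin 3 × ℤ) (OccS u) * ε := by
    have hsub : OccS u ∩ NJ ⊆ ⋃ i ∈ Finset.Icc (-(r : ℤ)) r, (OccS u ∩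
        {s | ∃ u' a', ¬ (u' = u ∧ a' = 0) ∧ E + 1 ≤ Encodable.encode u' ∧
          Hd s u' a' ∧ Cov u' a' (j + i)}) := by
      rintro s ⟨g1, i, hi, g2⟩
      exact mem_iUnion₂.2 ⟨i, hi, g1, g2⟩
    refine (measure_mono hsub).trans ((measure_biUnion_finset_le _ _).trans ?_)
    refine (Finset.sum_le_sum fun i _ => cover_Occ u (E + 1) (j + i)).trans ?_
    rw [Finset.sum_const, Int.card_Icc, nsmul_eq_mul]
    have h1 : ((r : ℤ) + 1 - -(r : ℤ)).toNat = 2 * r + 1 := by omega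
    rw [h1, mul_left_comm]
    exact mul_le_mul' le_rfl hr
  -- step 4: independence
  have s4 : PP ((OccS u ×ˢ univ) ∩ {ω | Und X₀ φ r (shn j (Psi T' q ω))}) =
      Q (Fin 3 × ℤ) (OccS u) * PP {ω | Und X₀ φ r (shn j (Psi T' q ω))} := by
    refine prod_indep (disjoint_FO_Wd hG) (Dep_Occ u) (hm3 hUj) fun b => ?_
    intro s s' hss hs
    refine Und_congr X₀ φ (fun i hi => ?_) hs
    have hi' := abs_le.1 hi
    show Psi T' q (s, b) (i + j) = Psi T' q (s', b) (i + j)
    refine Psi_local (E := E) (fun v hv => hv.2) hq2 (fun τ x hx => hss (τ, x) ?_) (fun _ _ => rfl)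
    have hx' := abs_le.1 hx
    rw [mem_Wd]
    push_cast
    constructor <;> omega
  -- step 5: stationarity
  have s5 : PP {ω | Und X₀ φ r (shn j (Psi T' q ω))} = PP {ω | Und X₀ φ r (Psi T' q ω)} := by
    have h1 := Measure.map_apply (μ := PP) hm3 hUj
    have h2 := Measure.map_apply (μ := PP) hm3 hU
    have h3 := Measure.map_apply (μ := PP.map (Psi T' q)) (measurable_shn j) hU
    rw [map_Psi_shn hq2] at h3
    exact h1.symm.trans (h3.symm.trans h2)
  -- step 6
  have s6 : PP {ω | Und X₀ φ r (Psi T' q ω)} ≤ 2 * ε := by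
    set NI : Set Sk := {s | ∃ i ∈ Finset.Icc (-(r : ℤ)) r, ∃ u' a',
      E + 1 ≤ Encodable.encode u' ∧ Hd s u' a' ∧ Cov u' a' i} with hNI
    have hsub : {ω | Und X₀ φ r (Psi T' q ω)} ⊆ {ω | Und X₀ φ r (Psi T q ω)} ∪ (NI ×ˢ univ) := by
      rintro ⟨s, b⟩ g2
      by_cases hs : s ∈ NI
      · exact Or.inr ⟨hs, mem_univ _⟩
      · refine Or.inl ?_
        refine Und_congr X₀ φ (fun i hi => ?_) g2
        have hi' := abs_le.1 hi
        refine Psi_T_congr hq2 hq1 fun v a d hv hact htouch => ?_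
        have hvT : v ∈ T := by
          rcases hv with hv | hv
          · exact hv.1
          · exact hv
        refine ⟨fun _ => hvT, fun _ => ⟨hvT, ?_⟩⟩
        by_contra hlt
        push Not at hlt
        have hcov : Cov v a i := by
          rcases htouch with h | h
          · rw [← h]; exact Cov_piv hact.2 (hq1 v hvT)
          · rw [← h]; exact Cov_eps hact.1 hact.2.1
        exact hs ⟨i, Finset.mem_Icc.2 hi', v, a, hlt, hact.1.1, hcov⟩
    have h1 : PP {ω | Und X₀ φ r (Psi T q ω)} ≤ ε := by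
      have h2 := Measure.map_apply (μ := PP) hm2 hU
      rw [← law_Psi hT0 hq1] at h2
      exact (h2.symm.le).trans hε
    have h2 : PP (NI ×ˢ univ) ≤ ε := by
      rw [PP, Measure.prod_prod, measure_univ, mul_one]
      have hsub : NI ⊆ ⋃ i ∈ Finset.Icc (-(r : ℤ)) r,
          {s | ∃ u' a', E + 1 ≤ Encodable.encode u' ∧ Hd s u' a' ∧ Cov u' a' i} := by
        rintro s ⟨i, hi, g2⟩
        exact mem_iUnion₂.2 ⟨i, hi, g2⟩
      refine (measure_mono hsub).trans ((measure_biUnion_finset_le _ _).trans ?_)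
      refine (Finset.sum_le_sum fun i _ => cover_univ (E + 1) i).trans ?_
      rw [Finset.sum_const, Int.card_Icc, nsmul_eq_mul]
      have h1 : ((r : ℤ) + 1 - -(r : ℤ)).toNat = 2 * r + 1 := by omega
      rw [h1]
      exact hr
    refine (measure_mono hsub).trans ((measure_union_le _ _).trans ?_)
    rw [two_mul]
    exact add_le_add h1 h2
  rw [s1]
  refine (measure_mono s2).trans ((measure_union_le _ _).trans ?_)
  rw [s4, s5]
  have e1 : PP ((OccS u ∩ NJ) ×ˢ univ) = Q (Fin 3 × ℤ) (OccS u ∩ NJ) := by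
    rw [PP, Measure.prod_prod, measure_univ, mul_one]
  rw [e1]
  calc Q (Fin 3 × ℤ) (OccS u ∩ NJ) +
        Q (Fin 3 × ℤ) (OccS u) * PP {ω | Und X₀ φ r (Psi T' q ω)}
      ≤ Q (Fin 3 × ℤ) (OccS u) * ε + Q (Fin 3 × ℤ) (OccS u) * (2 * ε) :=
        add_le_add s3 (mul_le_mul' le_rfl s6)
    _ = _ := by ring

open Classical in
/-- few bad locations -/
theorem card_bad (u : List ℕ) (k w : ℕ) (hU : u.getD k 0 + 1 ≤ DD u)
    (hw : (2 * w + 1) * (ell k * 2 ^ (k + 11)) ≤ u.getD k 0 + 1) :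
    ((Finset.range (DD u * ell k)).filter fun p => ¬ GLo u k w p).card * 2 ^ (k + 9) ≤ DD u := by
  set U := u.getD k 0 + 1 with hUdef
  set N := DD u * ell k with hN
  set S : Finset ℕ := (Finset.range (N / U + 1)).image (fun m => m * U) ∪ {N} with hS
  have hcS : S.card ≤ N / U + 2 := by
    refine (Finset.card_union_le _ _).trans ?_
    rw [Finset.card_singleton]
    have := Finset.card_image_le (s := Finset.range (N / U + 1)) (f := fun m => m * U)
    rw [Finset.card_range] at this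
    omega
  have hsub : ((Finset.range N).filter fun p => ¬ GLo u k w p) ⊆
      S.biUnion fun m => (Finset.Icc (m - w) (m + w)) := by
    intro e he
    rw [Finset.mem_filter, Finset.mem_range] at he
    obtain ⟨heN, hbad⟩ := he
    unfold GLo at hbad
    push Not at hbad
    obtain ⟨j, hj, hbad⟩ := hbad
    have hj' := abs_le.1 hj
    rw [Finset.mem_biUnion]
    by_cases h0 : 0 ≤ (e : ℤ) + j
    · by_cases h1 : (e : ℤ) + j < N
      · have h2 := hbad h0 h1
        obtain ⟨c, hc⟩ := h2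
        have hcU : (e : ℤ) + j = c * U := by rw [hc, hUdef]; push_cast; ring
        have hUpos : (0 : ℤ) < U := by rw [hUdef]; positivity
        have hc0 : 0 ≤ c := by
          by_contra hcon
          have : c * U < 0 := mul_neg_of_neg_of_pos (by omega) hUpos
          omega
        obtain ⟨c', rfl⟩ := Int.eq_ofNat_of_zero_le hc0
        have h3 : c' * U < N := by exact_mod_cast (hcU ▸ h1)
        refine ⟨c' * U, ?_, ?_⟩
        · rw [hS, Finset.mem_union, Finset.mem_image]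
          refine Or.inl ⟨c', ?_, rfl⟩
          rw [Finset.mem_range, Nat.lt_succ_iff, Nat.le_div_iff_mul_le (by omega)]
          exact h3.le
        · rw [Finset.mem_Icc]
          have h4 : (e : ℤ) + j = ((c' * U : ℕ) : ℤ) := by rw [hcU]; push_cast; ring
          constructor <;> omega
      · refine ⟨N, ?_, ?_⟩
        · rw [hS, Finset.mem_union]; exact Or.inr (Finset.mem_singleton_self _)
        · rw [Finset.mem_Icc]
          constructor <;> omega
    · refine ⟨0, ?_, ?_⟩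
      · rw [hS, Finset.mem_union, Finset.mem_image]
        exact Or.inl ⟨0, by simp, by simp⟩
      · rw [Finset.mem_Icc]
        constructor <;> omega
  have h1 : ((Finset.range N).filter fun p => ¬ GLo u k w p).card ≤ (N / U + 2) * (2 * w + 1) := by
    refine (Finset.card_le_card hsub).trans ?_
    refine (Finset.card_biUnion_le_card_mul _ _ (2 * w + 1) fun m _ => ?_).trans
      (Nat.mul_le_mul_right _ hcS)
    rw [Nat.card_Icc]
    omega
  set c := ((Finset.range N).filter fun p => ¬ GLo u k w p).card with hc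
  have hDN : DD u ≤ N := Nat.le_mul_of_pos_right _ (ell_pos k)
  have h2 : c * (ell k * 2 ^ (k + 11)) ≤ 3 * N := by
    calc c * (ell k * 2 ^ (k + 11)) ≤ (N / U + 2) * (2 * w + 1) * (ell k * 2 ^ (k + 11)) :=
          Nat.mul_le_mul_right _ h1
      _ = (N / U + 2) * ((2 * w + 1) * (ell k * 2 ^ (k + 11))) := by ring
      _ ≤ (N / U + 2) * U := Nat.mul_le_mul_left _ hw
      _ = N / U * U + 2 * U := by ring
      _ ≤ N + 2 * N := by
          have := Nat.div_mul_le_self N U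
          omega
      _ = 3 * N := by ring
  have h3 : ell k * (c * 2 ^ (k + 11)) ≤ ell k * (3 * DD u) := by
    calc ell k * (c * 2 ^ (k + 11)) = c * (ell k * 2 ^ (k + 11)) := by ring
      _ ≤ 3 * N := h2
      _ = ell k * (3 * DD u) := by rw [hN]; ring
  have h4 := Nat.le_of_mul_le_mul_left h3 (ell_pos k)
  have h5 : c * 2 ^ (k + 11) = 4 * (c * 2 ^ (k + 9)) := by
    rw [show k + 11 = k + 9 + 2 by ring, pow_add]; ring
  omega

/-- locations in the regions -/
noncomputable def Loc (u : List ℕ) : Finset (Σ _ : ℕ, ℕ) :=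
  (Finset.range u.length).sigma fun k => Finset.range (DD u * ell k)

/-- bad locations -/
def BadS (T : Set (List ℕ)) (u : List ℕ) (r E : ℕ → ℕ) (i : Σ _ : ℕ, ℕ) :
    Set (Sk × (ℤ → Bt)) :=
  {ω | ¬ GLo u i.1 (r i.1 + 3 * Sg (E i.1)) i.2 ∨
    Und X₀ φ (r i.1) (shn ((bs u i.1 0 : ℤ) + i.2) (Psi T (fun _ => 0) ω))}

theorem measurableSet_BadS {T : Set (List ℕ)} (hT0 : ∀ v ∈ T, 0 < v.length) (u : List ℕ)
    (r E : ℕ → ℕ) (i : Σ _ : ℕ, ℕ) : MeasurableSet (BadS X₀ φ T u r E i) := by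
  refine MeasurableSet.union (MeasurableSet.const _) ?_
  exact (measurable_Psi (T := T) (q := fun _ => 0) hT0)
    ((measurable_shn _) (measurableSet_Und X₀ φ (r i.1)))

open Classical in
theorem prob_many_bad {T : Set (List ℕ)} (hT0 : ∀ v ∈ T, 0 < v.length) {u : List ℕ}
    (hlen : 2 ≤ u.length) (r E : ℕ → ℕ)
    (hε : ∀ k, (PP.map (Psi T fun _ => 0)) {x | Und X₀ φ (r k) x} ≤ (2⁻¹) ^ (4 * k + 20))
    (hr : ∀ k, ((2 * r k + 1 : ℕ) : ℝ≥0∞) * (2⁻¹) ^ (4 * (E k + 1) + 50) ≤ (2⁻¹) ^ (4 * k + 20))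
    (hU : ∀ k < u.length, u.getD k 0 + 1 ≤ DD u)
    (hw : ∀ k < u.length,
      (2 * (r k + 3 * Sg (E k)) + 1) * (ell k * 2 ^ (k + 11)) ≤ u.getD k 0 + 1) :
    PP ((OccS u ×ˢ univ) ∩ {ω | DD u ≤
      16 * ((Loc u).filter fun i => ω ∈ BadS X₀ φ T u r E i).card}) ≤
      Q (Fin 3 × ℤ) (OccS u) * (2⁻¹) ^ 3 := by
  obtain ⟨K, hK⟩ : ∃ K, DD u = 16 * K := ⟨2 ^ (4 * Encodable.encode u + 36), by
    unfold DD
    rw [show (16 : ℕ) = 2 ^ 4 by norm_num, ← pow_add]; congr 1; ring⟩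
  have hKpos : 0 < K := by have := DD_pos u; omega
  set qo := Q (Fin 3 × ℤ) (OccS u) with hqo
  let c : (Σ _ : ℕ, ℕ) → ℝ≥0∞ := fun i =>
    if GLo u i.1 (r i.1 + 3 * Sg (E i.1)) i.2 then qo * (3 * (2⁻¹) ^ (4 * i.1 + 20)) else qo
  have hOcc : PP (OccS u ×ˢ univ) = qo := by
    rw [PP, Measure.prod_prod, measure_univ, mul_one]
  have h1 := markov_count PP (Loc u) (BadS X₀ φ T u r E)
    (fun i _ => measurableSet_BadS X₀ φ hT0 u r E i) (OccS u ×ˢ univ) c (by
      rintro ⟨k, p⟩ hi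
      have hk : k < u.length := by
        unfold Loc at hi
        rw [Finset.mem_sigma, Finset.mem_range] at hi
        exact hi.1
      simp only [c]
      split_ifs with hG
      · refine (measure_mono ?_).trans (und_prob X₀ φ hT0 hlen hk hG _ (hε k) (hr k))
        refine inter_subset_inter_right _ ?_
        rintro ω (h | h)
        · exact absurd hG h
        · exact h
      · exact (measure_mono inter_subset_left).trans hOcc.le) K
  have h2 : ∑ i ∈ Loc u, c i ≤ qo * (DD u * (2⁻¹) ^ 7) := by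
    unfold Loc
    rw [Finset.sum_sigma]
    have h3 : ∀ k ∈ Finset.range u.length, ∑ p ∈ Finset.range (DD u * ell k), c ⟨k, p⟩ ≤
        qo * (DD u * (2⁻¹) ^ (k + 7 + 1)) := by
      intro k hk
      have hk := Finset.mem_range.1 hk
      have h4 : ∑ p ∈ Finset.range (DD u * ell k), c ⟨k, p⟩ ≤
          ∑ p ∈ Finset.range (DD u * ell k), (qo * (3 * (2⁻¹) ^ (4 * k + 20)) +
            if ¬ GLo u k (r k + 3 * Sg (E k)) p then qo else 0) := by
        refine Finset.sum_le_sum fun p _ => ?_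
        simp only [c]
        split_ifs with hG
        · simp
        · exact le_add_self
      refine h4.trans ?_
      rw [Finset.sum_add_distrib, ← Finset.sum_filter, Finset.sum_const, Finset.sum_const,
        Finset.card_range, nsmul_eq_mul, nsmul_eq_mul]
      set cb := ((Finset.range (DD u * ell k)).filter
        fun p => ¬ GLo u k (r k + 3 * Sg (E k)) p).card with hcb
      have h5 := card_bad u k (r k + 3 * Sg (E k)) (hU k hk) (hw k hk)
      rw [← hcb] at h5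
      have h6 : (cb : ℝ≥0∞) ≤ DD u * (2⁻¹) ^ (k + 9) := by
        have h7 : ((cb * 2 ^ (k + 9) : ℕ) : ℝ≥0∞) ≤ DD u := by exact_mod_cast h5
        calc (cb : ℝ≥0∞) = cb * (2 ^ (k + 9) * (2⁻¹) ^ (k + 9)) := by
              rw [← mul_pow, ENNReal.mul_inv_cancel (by simp) (by simp), one_pow, mul_one]
          _ = ((cb * 2 ^ (k + 9) : ℕ) : ℝ≥0∞) * (2⁻¹) ^ (k + 9) := by push_cast; ring
          _ ≤ DD u * (2⁻¹) ^ (k + 9) := by gcongr
      have h8 : ((DD u * ell k : ℕ) : ℝ≥0∞) * (qo * (3 * (2⁻¹) ^ (4 * k + 20))) ≤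
          qo * (DD u * (2⁻¹) ^ (k + 9)) := by
        have h9 : ((ell k : ℕ) : ℝ≥0∞) * (3 * (2⁻¹) ^ (4 * k + 20)) ≤ (2⁻¹) ^ (k + 9) := by
          unfold ell
          have e1 : 4 * k + 20 = (3 * k + 7) + (2 + (k + 11)) := by ring
          rw [e1, pow_add (2⁻¹ : ℝ≥0∞) (3 * k + 7), pow_add (2⁻¹ : ℝ≥0∞) 2]
          push_cast
          calc (2 : ℝ≥0∞) ^ (3 * k + 7) * (3 * (2⁻¹ ^ (3 * k + 7) * (2⁻¹ ^ 2 * 2⁻¹ ^ (k + 11)))) =
              (2 ^ (3 * k + 7) * 2⁻¹ ^ (3 * k + 7)) * ((3 * 2⁻¹ ^ 2) * 2⁻¹ ^ (k + 11)) := by ring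
            _ = (3 * 2⁻¹ ^ 2) * 2⁻¹ ^ (k + 11) := by
              rw [← mul_pow, ENNReal.mul_inv_cancel (by simp) (by simp), one_pow, one_mul]
            _ ≤ (2 ^ 2 * 2⁻¹ ^ 2) * 2⁻¹ ^ (k + 11) := by
              gcongr
              norm_num
            _ = 2⁻¹ ^ (k + 11) := by
              rw [← mul_pow, ENNReal.mul_inv_cancel (by simp) (by simp), one_pow, one_mul]
            _ ≤ _ := pow_le_pow_right_of_le_one' (show (2⁻¹ : ℝ≥0∞) ≤ 1 by norm_num) (by omega)
        calc ((DD u * ell k : ℕ) : ℝ≥0∞) * (qo * (3 * (2⁻¹) ^ (4 * k + 20))) =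
            qo * (DD u * (((ell k : ℕ) : ℝ≥0∞) * (3 * (2⁻¹) ^ (4 * k + 20)))) := by
              push_cast; ring
          _ ≤ _ := by gcongr
      calc ((DD u * ell k : ℕ) : ℝ≥0∞) * (qo * (3 * (2⁻¹) ^ (4 * k + 20))) + cb * qo
          ≤ qo * (DD u * (2⁻¹) ^ (k + 9)) + (DD u * (2⁻¹) ^ (k + 9)) * qo := by gcongr
        _ = qo * (DD u * (2⁻¹ ^ (k + 9) * 2)) := by ring
        _ = qo * (DD u * (2⁻¹) ^ (k + 7 + 1)) := by
          rw [show k + 9 = (k + 7 + 1) + 1 by ring, pow_succ _ (k + 7 + 1), mul_assoc,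
            ENNReal.inv_mul_cancel (by simp) (by simp), mul_one]
    refine (Finset.sum_le_sum h3).trans ?_
    rw [← Finset.mul_sum, ← Finset.mul_sum]
    gcongr
    exact sum_pow_le _ _
  have h3 := h1.trans h2
  rw [hK] at h3
  have h4 : qo * (((16 * K : ℕ) : ℝ≥0∞) * (2⁻¹) ^ 7) = K * (qo * (2⁻¹) ^ 3) := by
    have e1 : ((2 : ℝ≥0∞)⁻¹) ^ 7 = (2⁻¹) ^ 4 * (2⁻¹) ^ 3 := by rw [← pow_add]
    have e2 : (16 : ℝ≥0∞) = 2 ^ 4 := by norm_num
    push_cast
    rw [e1, e2]
    calc qo * ((2 : ℝ≥0∞) ^ 4 * K * (2⁻¹ ^ 4 * 2⁻¹ ^ 3)) =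
        K * (qo * 2⁻¹ ^ 3) * (2 ^ 4 * 2⁻¹ ^ 4) := by ring
      _ = _ := by rw [← mul_pow, ENNReal.mul_inv_cancel (by simp) (by simp), one_pow, mul_one]
  rw [h4] at h3
  have h5 := (ENNReal.mul_le_mul_iff_right (a := (K : ℝ≥0∞)) (by simp; omega)
    (ENNReal.natCast_ne_top _)).1 h3
  refine (measure_mono ?_).trans h5
  refine inter_subset_inter_right _ fun ω hω => ?_
  have hω : DD u ≤ 16 * ((Loc u).filter fun i => ω ∈ BadS X₀ φ T u r E i).card := hω
  rw [hK] at hω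
  have h6 : K ≤ ((Loc u).filter fun i => ω ∈ BadS X₀ φ T u r E i).card := by omega
  exact h6

end Region

end Pool.Agent.TH288.FI
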